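import Pool.Agent.IndSat.Prob2

set_option autoImplicit false

namespace Pool.Agent.IndSat

open Finset Matrix Filter Topology

set_option linter.unusedSectionVars false

/-- the total failure bound -/
noncomputable def bnd (K n : ℕ) : ℝ :=
  (n : ℝ) ^ 3 / 2 ^ (n - 3) + (n : ℝ) ^ 4 / 2 ^ (n - 4) + 3 / 2 ^ K +
    ∑ k ∈ range K, ((n : ℝ) ^ k * ((2 ^ k - 1) ^ n * (1 / 2 ^ (k * (n - k)))) +
      2 * ((n : ℝ) ^ (k + 2) * ((2 ^ (k + 1) - 1 / 2) ^ n *
        (2 * (1 / 2 ^ ((k + 1) * (n - (k + 1))))))))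

/-- graphs for which the criterion fails -/
def Bad {V : Type} [Fintype V] [DecidableEq V] (H : SimpleGraph V) : Prop :=
  ¬ (G1 H ∧ G2 H ∧ (∃ i j, H.Adj i j ∧ Drop (adj H) i j) ∧
    (∃ i j, ¬ H.Adj i j ∧ Drop (adj H) i j))

lemma cnt_bad {V : Type} [Fintype V] [DecidableEq V] (hV : 1 ≤ Fintype.card V) (K : ℕ) :
    cnt (Bad (V := V)) ≤ bnd K (Fintype.card V) * tot V := by
  classical
  have h1 : cnt (Bad (V := V)) ≤ cnt (fun H : SimpleGraph V => ¬ G1 H ∨ (¬ G2 H ∨ (BK K H ∨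
      ∃ k : Fin K, (ZF k H ∨ (BS k 0 H ∨ BS k 1 H))))) := by
    apply cnt_mono
    intro H hH
    by_contra hcon
    simp only [not_or, not_not, not_exists] at hcon
    obtain ⟨g1, g2, g3, g4⟩ := hcon
    have hZ : ∀ k < K, ¬ ZF k H := fun k hk => (g4 ⟨k, hk⟩).1
    have hB : ∀ k < K, ∀ c, ¬ BS k c H := by
      intro k hk c
      rcases F_cases c with rfl | rfl
      · exact (g4 ⟨k, hk⟩).2.1
      · exact (g4 ⟨k, hk⟩).2.2
    apply hH
    refine ⟨g1, g2, ?_, ?_⟩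
    · obtain ⟨i, j, hij, hD⟩ := det H K g3 hZ hB 0
      refine ⟨i, j, ?_, hD⟩
      rw [← adj_one]
      exact F_ne_zero.1 hij
    · obtain ⟨i, j, hij, hD⟩ := det H K g3 hZ hB 1
      refine ⟨i, j, ?_, hD⟩
      rw [← adj_one]
      exact hij
  refine h1.trans ?_
  refine (cnt_or _ _).trans ?_
  have e2 := cnt_or (fun H : SimpleGraph V => ¬ G2 H) (fun H => BK K H ∨
      ∃ k : Fin K, (ZF k H ∨ (BS k 0 H ∨ BS k 1 H)))
  have e3 := cnt_or (fun H : SimpleGraph V => BK K H) (fun H =>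
      ∃ k : Fin K, (ZF k H ∨ (BS k 0 H ∨ BS k 1 H)))
  have e4 := cnt_exists (fun (k : Fin K) (H : SimpleGraph V) =>
      (ZF k H ∨ (BS k 0 H ∨ BS k 1 H)))
  have e5 : ∀ k : Fin K, cnt (fun H : SimpleGraph V => (ZF k H ∨ (BS k 0 H ∨ BS k 1 H))) ≤
      (((Fintype.card V : ℕ) : ℝ) ^ (k : ℕ) * ((2 ^ (k : ℕ) - 1) ^ (Fintype.card V) *
        (1 / 2 ^ ((k : ℕ) * (Fintype.card V - k)))) +
      2 * (((Fintype.card V : ℕ) : ℝ) ^ ((k : ℕ) + 2) * ((2 ^ ((k : ℕ) + 1) - 1 / 2) ^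
        (Fintype.card V) * (2 * (1 / 2 ^ (((k : ℕ) + 1) * (Fintype.card V - (k + 1)))))))) *
        tot V := by
    intro k
    refine (cnt_or _ _).trans ?_
    have f1 := cnt_or (fun H : SimpleGraph V => BS k 0 H) (fun H => BS k 1 H)
    have f2 := cnt_ZF (V := V) k
    have f3 := cnt_BS (V := V) k 0
    have f4 := cnt_BS (V := V) k 1
    refine (add_le_add f2 (f1.trans (add_le_add f3 f4))).trans (le_of_eq ?_)
    ring
  have e6 : ∑ k : Fin K, cnt (fun H : SimpleGraph V => (ZF k H ∨ (BS k 0 H ∨ BS k 1 H))) ≤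
      (∑ k ∈ range K, ((((Fintype.card V : ℕ) : ℝ)) ^ k * ((2 ^ k - 1) ^ (Fintype.card V) *
        (1 / 2 ^ (k * (Fintype.card V - k)))) +
      2 * (((Fintype.card V : ℕ) : ℝ) ^ (k + 2) * ((2 ^ (k + 1) - 1 / 2) ^ (Fintype.card V) *
        (2 * (1 / 2 ^ ((k + 1) * (Fintype.card V - (k + 1))))))))) * tot V := by
    rw [Finset.sum_mul, Finset.sum_range]
    exact Finset.sum_le_sum fun k _ => e5 k
  have g1 := cnt_G1 (V := V)
  have g2 := cnt_G2 (V := V)
  have g3 := cnt_BK (V := V) K hV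
  unfold bnd
  have g1' : (Fintype.card V : ℝ) ^ 3 * (tot V / 2 ^ (Fintype.card V - 3)) =
      (Fintype.card V : ℝ) ^ 3 / 2 ^ (Fintype.card V - 3) * tot V := by ring
  have g2' : (Fintype.card V : ℝ) ^ 4 * (tot V / 2 ^ (Fintype.card V - 4)) =
      (Fintype.card V : ℝ) ^ 4 / 2 ^ (Fintype.card V - 4) * tot V := by ring
  rw [g1'] at g1
  rw [g2'] at g2
  rw [add_mul, add_mul, add_mul]
  linarith [e2, e3, e4, e6, g1, g2, g3]

lemma tend_aux (m : ℕ) {r : ℝ} (h0 : 0 ≤ r) (h1 : r < 1) (C : ℝ) :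
    Tendsto (fun n : ℕ => C * ((n : ℝ) ^ m * r ^ n)) atTop (𝓝 0) := by
  have := tendsto_pow_const_mul_const_pow_of_abs_lt_one m (r := r)
    (by rw [abs_of_nonneg h0]; exact h1)
  have h2 := this.const_mul C
  rwa [mul_zero] at h2

lemma tend_pow (m : ℕ) : Tendsto (fun n : ℕ => (n : ℝ) ^ m / 2 ^ (n - m)) atTop (𝓝 0) := by
  have h := tend_aux m (r := 1 / 2) (by norm_num) (by norm_num) (2 ^ m)
  refine h.congr' ?_
  filter_upwards [eventually_ge_atTop m] with n hn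
  have : (2 : ℝ) ^ n = 2 ^ m * 2 ^ (n - m) := by
    rw [← pow_add]; congr 1; omega
  rw [one_div, inv_pow, this]
  have h1 : (2 : ℝ) ^ m ≠ 0 := by positivity
  have h2 : (2 : ℝ) ^ (n - m) ≠ 0 := by positivity
  field_simp

lemma tend_ZF (k : ℕ) : Tendsto (fun n : ℕ =>
    (n : ℝ) ^ k * ((2 ^ k - 1) ^ n * (1 / 2 ^ (k * (n - k))))) atTop (𝓝 0) := by
  have hk : (1 : ℝ) ≤ 2 ^ k := one_le_pow₀ (by norm_num)
  have h := tend_aux k (r := (2 ^ k - 1) / 2 ^ k) (by
    apply div_nonneg <;> linarith) (by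
    rw [div_lt_one (by positivity)]; linarith) (2 ^ (k * k))
  refine h.congr' ?_
  filter_upwards [eventually_ge_atTop k] with n hn
  have e : (2 : ℝ) ^ (k * (n - k)) = (2 ^ k) ^ n / 2 ^ (k * k) := by
    rw [eq_div_iff (by positivity), ← pow_add, ← pow_mul]
    congr 1
    rw [← mul_add]
    congr 1
    omega
  rw [e, div_pow]
  have h1 : (2 : ℝ) ^ (k * k) ≠ 0 := by positivity
  have h2 : ((2 : ℝ) ^ k) ^ n ≠ 0 := by positivity
  field_simp

lemma tend_BS (k : ℕ) : Tendsto (fun n : ℕ =>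
    (n : ℝ) ^ (k + 2) * ((2 ^ (k + 1) - 1 / 2) ^ n *
        (2 * (1 / 2 ^ ((k + 1) * (n - (k + 1))))))) atTop (𝓝 0) := by
  have hk : (1 : ℝ) ≤ 2 ^ (k + 1) := one_le_pow₀ (by norm_num)
  have h := tend_aux (k + 2) (r := (2 ^ (k + 1) - 1 / 2) / 2 ^ (k + 1)) (by
    apply div_nonneg <;> linarith) (by
    rw [div_lt_one (by positivity)]; linarith) (2 * 2 ^ ((k + 1) * (k + 1)))
  refine h.congr' ?_
  filter_upwards [eventually_ge_atTop (k + 1)] with n hn
  have e : (2 : ℝ) ^ ((k + 1) * (n - (k + 1))) =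
      (2 ^ (k + 1)) ^ n / 2 ^ ((k + 1) * (k + 1)) := by
    rw [eq_div_iff (by positivity), ← pow_add, ← pow_mul]
    congr 1
    rw [← mul_add]
    congr 1
    omega
  rw [e, div_pow]
  have h1 : (2 : ℝ) ^ ((k + 1) * (k + 1)) ≠ 0 := by positivity
  have h2 : ((2 : ℝ) ^ (k + 1)) ^ n ≠ 0 := by positivity
  generalize (2 : ℝ) ^ ((k + 1) * (k + 1)) = A at *
  generalize ((2 : ℝ) ^ (k + 1)) ^ n = D at *
  generalize ((2 : ℝ) ^ (k + 1) - 1 / 2) ^ n = C at *
  field_simp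

/-- the failure bound is eventually below any positive number, for a suitable `K` -/
lemma bnd_small {ε : ℝ} (hε : 0 < ε) : ∃ K N : ℕ, ∀ n ≥ N, bnd K n ≤ ε := by
  obtain ⟨K, hK⟩ : ∃ K : ℕ, 3 / (2 : ℝ) ^ K < ε / 2 := by
    obtain ⟨K, hK⟩ := exists_pow_lt_of_lt_one (show (0 : ℝ) < ε / 6 by linarith)
      (show (1 / 2 : ℝ) < 1 by norm_num)
    refine ⟨K, ?_⟩
    have : 3 / (2 : ℝ) ^ K = 3 * (1 / 2) ^ K := by
      rw [one_div, inv_pow]; ring
    rw [this]
    linarith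
  refine ⟨K, ?_⟩
  have h : Tendsto (fun n => bnd K n) atTop (𝓝 (0 + 0 + 3 / 2 ^ K + ∑ k ∈ range K, (0 + 2 * 0)))
      := by
    unfold bnd
    refine Tendsto.add (Tendsto.add (Tendsto.add (tend_pow 3) (tend_pow 4))
      tendsto_const_nhds) ?_
    apply tendsto_finsetSum
    intro k _
    exact Tendsto.add (tend_ZF k) (Tendsto.const_mul 2 (tend_BS k))
  simp only [add_zero, mul_zero, Finset.sum_const_zero, zero_add] at h
  have h2 : ∀ᶠ n in atTop, bnd K n < ε := h.eventually_lt_const (by linarith)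
  obtain ⟨N, hN⟩ := eventually_atTop.1 h2
  exact ⟨N, fun n hn => (hN n hn).le⟩

/-- transport of saturation along a bijection of the host's vertex set -/
lemma Sat.transport {V W W' : Type} {H : SimpleGraph V} {G : SimpleGraph W} (h : Sat H G)
    (e : W' ≃ W) : Sat H (G.comap e) := by
  refine ⟨⟨fun φ => ?_⟩, ?_⟩
  · apply h.1.false
    exact ⟨⟨fun v => e (φ v), fun a b hab => φ.injective (e.injective hab)⟩, by
      intro a b
      exact φ.map_rel_iff⟩
  · rintro G' ⟨p, hp⟩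
    have hG : ∀ f : Sym2 W, (f ∈ G.edgeSet ↔ Sym2.map e.symm f ∈ (G.comap e).edgeSet) := by
      intro f
      induction f using Sym2.ind with
      | _ a b =>
      simp only [Sym2.map_mk, SimpleGraph.mem_edgeSet, SimpleGraph.comap_adj,
        Equiv.apply_symm_apply]
    have hG' : ∀ f : Sym2 W, (f ∈ (G'.comap e.symm).edgeSet ↔
        Sym2.map e.symm f ∈ G'.edgeSet) := by
      intro f
      induction f using Sym2.ind with
      | _ a b =>
      simp only [Sym2.map_mk, SimpleGraph.mem_edgeSet, SimpleGraph.comap_adj]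
    obtain ⟨φ⟩ := h.2 (G'.comap e.symm) ⟨Sym2.map e p, fun f => by
      rw [hG f, hG' f, hp]
      constructor
      · intro h1 h2
        apply h1
        rw [h2, Sym2.map_map]
        simp
      · intro h1 h2
        apply h1
        rw [← h2, Sym2.map_map]
        simp⟩
    refine ⟨⟨⟨fun v => e.symm (φ v), fun a b hab => φ.injective (e.symm.injective hab)⟩, ?_⟩⟩
    intro a b
    exact φ.map_rel_iff

/-- A good graph has a finite induced-saturated graph. -/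
lemma good {n : ℕ} {H : SimpleGraph (Fin n)} (h : ¬ Bad H) :
    ∃ m : ℕ, n ≤ m ∧ ∃ G : SimpleGraph (Fin m), Sat H G := by
  classical
  unfold Bad at h
  rw [not_not] at h
  obtain ⟨h1, h2, h3, h4⟩ := h
  obtain ⟨d, hd, hc⟩ := criterion H h1 h2 h3 h4
  rw [Fintype.card_fin] at hc
  exact ⟨_, hc, _, hd.transport (Fintype.equivFin _).symm⟩

/-- Almost every graph has a finite induced-saturated graph. -/
theorem almost_all (ε : ℝ) (hε : 0 < ε) : ∃ N : ℕ, ∀ n : ℕ, N ≤ n →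
    (1 - ε) * (Nat.card (SimpleGraph (Fin n)) : ℝ) ≤
      (Nat.card {H : SimpleGraph (Fin n) //
        ∃ m : ℕ, n ≤ m ∧ ∃ G : SimpleGraph (Fin m), Sat H G} : ℝ) := by
  classical
  obtain ⟨K, N, hN⟩ := bnd_small hε
  refine ⟨max N 1, ?_⟩
  intro n hn
  have h1 := cnt_bad (V := Fin n) (by rw [Fintype.card_fin]; exact le_trans (le_max_right _ _) hn) K
  rw [Fintype.card_fin] at h1
  have h2 := hN n (le_trans (le_max_left _ _) hn)
  have h3 : cnt (Bad (V := Fin n)) ≤ ε * tot (Fin n) :=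
    h1.trans (mul_le_mul_of_nonneg_right h2 tot_nonneg)
  have h4 : cnt (fun H : SimpleGraph (Fin n) => ¬ Bad H) ≤
      (Nat.card {H : SimpleGraph (Fin n) //
        ∃ m : ℕ, n ≤ m ∧ ∃ G : SimpleGraph (Fin m), Sat H G} : ℝ) := by
    rw [Nat.card_eq_fintype_card, Fintype.card_subtype]
    unfold cnt
    norm_cast
    apply Finset.card_le_card
    intro H hH
    simp only [mem_filter, mem_univ, true_and] at hH ⊢
    exact good hH
  have h5 : cnt (Bad (V := Fin n)) + cnt (fun H : SimpleGraph (Fin n) => ¬ Bad H) =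
      tot (Fin n) := by
    unfold cnt tot
    norm_cast
    rw [← Finset.card_univ]
    convert Finset.card_filter_add_card_filter_not (s := (univ : Finset (SimpleGraph (Fin n))))
      Bad
  have h6 : tot (Fin n) = (Nat.card (SimpleGraph (Fin n)) : ℝ) := by
    unfold tot
    rw [Nat.card_eq_fintype_card]
  rw [← h6]
  linarith

end Pool.Agent.IndSat
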