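import Pool.Agent.IndSat.Rank

set_option autoImplicit false

namespace Pool.Agent.IndSat

open Finset Matrix

set_option linter.unusedSectionVars false

/-- two graphs differ exactly in the pair `e` -/
def DiffAt {X : Type*} (G G' : SimpleGraph X) (e : Sym2 X) : Prop :=
  ∀ f : Sym2 X, ((f ∈ G.edgeSet ↔ f ∈ G'.edgeSet) ↔ f ≠ e)

lemma DiffAt.ne {X : Type*} {G G' : SimpleGraph X} {x y : X} (h : DiffAt G G' s(x, y)) :
    x ≠ y := by
  rintro rfl
  have := h s(x, x)
  simp at this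

lemma DiffAt.iff_of_ne {X : Type*} {G G' : SimpleGraph X} {x y a b : X}
    (h : DiffAt G G' s(x, y)) (hab : s(a, b) ≠ s(x, y)) : G.Adj a b ↔ G'.Adj a b := by
  have := (h s(a, b)).2 hab
  simpa using this

lemma DiffAt.not_iff {X : Type*} {G G' : SimpleGraph X} {x y a b : X}
    (h : DiffAt G G' s(x, y)) (hab : s(a, b) = s(x, y)) : ¬ (G.Adj a b ↔ G'.Adj a b) := by
  intro h2
  have := (h s(a, b)).1 (by simpa using h2)
  exact this hab

/-- transport of copies along flips of corresponding pairs -/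
lemma flip_embed {V X : Type*} {H K : SimpleGraph V} {G G' : SimpleGraph X} {u v : V} {x y : X}
    (hHK : DiffAt H K s(u, v)) (hGG : DiffAt G G' s(x, y)) (φ : K ↪g G) (hu : φ u = x)
    (hv : φ v = y) : Nonempty (H ↪g G') := by
  refine ⟨⟨φ.toEmbedding, ?_⟩⟩
  intro a b
  change G'.Adj (φ a) (φ b) ↔ H.Adj a b
  have hφ : G.Adj (φ a) (φ b) ↔ K.Adj a b := φ.map_adj_iff
  have hs : s(φ a, φ b) = s(x, y) ↔ s(a, b) = s(u, v) := by
    rw [← hu, ← hv]
    have hinj := Sym2.map.injective φ.injective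
    constructor
    · intro h
      apply hinj
      simpa [Sym2.map_mk] using h
    · intro h
      have := congrArg (Sym2.map φ) h
      simpa [Sym2.map_mk] using this
  by_cases h : s(a, b) = s(u, v)
  · have h1 := hHK.not_iff h
    have h2 := hGG.not_iff (hs.2 h)
    tauto
  · have h1 := hHK.iff_of_ne h
    have h2 := hGG.iff_of_ne (fun h3 => h (hs.1 h3))
    tauto

/-- a copy in the flipped graph uses the flipped pair -/
lemma uses_pair {V X : Type*} {H : SimpleGraph V} {G G' : SimpleGraph X} {x y : X}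
    (hG : IsEmpty (H ↪g G)) (hGG : DiffAt G G' s(x, y)) (ψ : H ↪g G') :
    ∃ u v, ψ u = x ∧ ψ v = y := by
  by_contra hcon
  push Not at hcon
  refine hG.false ⟨ψ.toEmbedding, ?_⟩
  intro a b
  change G.Adj (ψ a) (ψ b) ↔ H.Adj a b
  have hψ : G'.Adj (ψ a) (ψ b) ↔ H.Adj a b := ψ.map_adj_iff
  have hne : s(ψ a, ψ b) ≠ s(x, y) := by
    intro h
    rw [Sym2.eq_iff] at h
    rcases h with ⟨h1, h2⟩ | ⟨h1, h2⟩
    · exact hcon a b h1 h2
    · exact hcon b a h2 h1
  rw [hGG.iff_of_ne hne, hψ]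

lemma diffAt_delete {X : Type*} (G : SimpleGraph X) {x y : X} (h : G.Adj x y) :
    DiffAt G (G.deleteEdges {s(x, y)}) s(x, y) := by
  intro f
  induction f using Sym2.ind with
  | _ a b =>
  simp only [SimpleGraph.mem_edgeSet, SimpleGraph.deleteEdges_adj, Set.mem_singleton_iff]
  constructor
  · intro h1 h2
    rw [h2] at h1
    have h3 : G.Adj a b := by
      rw [← SimpleGraph.mem_edgeSet, h2, SimpleGraph.mem_edgeSet]; exact h
    exact (h1.1 h3).2 rfl
  · intro h1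
    exact ⟨fun h2 => ⟨h2, h1⟩, fun h2 => h2.1⟩

lemma diffAt_add {X : Type*} (G : SimpleGraph X) {x y : X} (hxy : x ≠ y) (h : ¬ G.Adj x y) :
    DiffAt G (G ⊔ SimpleGraph.edge x y) s(x, y) := by
  intro f
  induction f using Sym2.ind with
  | _ a b =>
  simp only [SimpleGraph.mem_edgeSet, SimpleGraph.sup_adj, SimpleGraph.adj_edge]
  constructor
  · intro h1 h2
    have hab : a ≠ b := by
      rintro rfl
      rw [Sym2.eq_iff] at h2
      rcases h2 with ⟨e1, e2⟩ | ⟨e1, e2⟩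
      · exact hxy (e1.symm.trans e2)
      · exact hxy (e2.symm.trans e1)
    have h3 : ¬ G.Adj a b := by
      rw [← SimpleGraph.mem_edgeSet, h2, SimpleGraph.mem_edgeSet]; exact h
    exact h3 (h1.2 (Or.inr ⟨h2.symm, hab⟩))
  · intro h1
    exact ⟨fun h2 => Or.inl h2, fun h2 => h2.elim id (fun h3 => absurd h3.1.symm h1)⟩

lemma DiffAt.symm {X : Type*} {G G' : SimpleGraph X} {e : Sym2 X} (h : DiffAt G G' e) :
    DiffAt G' G e := by
  intro f
  rw [← h f]
  constructor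
  · rintro h1
    exact h1.symm
  · rintro h1
    exact h1.symm

/-- isometries act on copies in the symplectic graph -/
lemma move_copy {V : Type*} {K : SimpleGraph V} {d : ℕ} (φ : K ↪g Sp d) {u v : V} (huv : u ≠ v)
    {x y : {x : W d // x ≠ 0}} (hxy : x ≠ y) (h : (Sp d).Adj x y ↔ K.Adj u v) :
    ∃ ψ : K ↪g Sp d, ψ u = x ∧ ψ v = y := by
  have hne : (φ u).1 ≠ (φ v).1 := fun h2 => huv (φ.injective (Subtype.ext h2))
  have hxy' : x.1 ≠ y.1 := fun h2 => hxy (Subtype.ext h2)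
  have hφ : (Sp d).Adj (φ u) (φ v) ↔ K.Adj u v := φ.map_adj_iff
  have hB : B (φ u).1 (φ v).1 = B x.1 y.1 := by
    have h2 : B (φ u).1 (φ v).1 = 1 ↔ B x.1 y.1 = 1 := by
      change (Sp d).Adj (φ u) (φ v) ↔ (Sp d).Adj x y
      rw [hφ, h]
    rcases F_cases (B (φ u).1 (φ v).1) with a | a <;> rcases F_cases (B x.1 y.1) with b | b <;>
      rw [a, b] at h2 ⊢
    · exact absurd (h2.2 rfl) (by decide)
    · exact absurd (h2.1 rfl) (by decide)
  obtain ⟨g, hg, hgx, hgy⟩ := trans_two (φ u).2 (φ v).2 hne x.2 y.2 hxy' hB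
  have hg0 : ∀ a, g (φ a).1 ≠ 0 := by
    intro a ha
    apply (φ a).2
    apply hg.injective
    rw [ha, map_zero]
  refine ⟨⟨⟨fun a => ⟨g (φ a).1, hg0 a⟩, ?_⟩, ?_⟩, Subtype.ext hgx, Subtype.ext hgy⟩
  · intro a b hab
    exact φ.injective (Subtype.ext (hg.injective (congrArg Subtype.val hab)))
  · intro a b
    change B (g (φ a).1) (g (φ b).1) = 1 ↔ K.Adj a b
    rw [hg]
    exact φ.map_adj_iff

lemma exists_adj_pair {d : ℕ} (hd : 1 ≤ d) : ∃ x y, (Sp d).Adj x y := by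
  set t : Fin d := ⟨0, hd⟩
  have h1 : (Pi.single t ((1 : F), (0 : F)) : W d) ≠ 0 := by
    intro h
    have := congrArg Prod.fst (congrFun h t)
    simp at this
  have h2 : (Pi.single t ((0 : F), (1 : F)) : W d) ≠ 0 := by
    intro h
    have := congrArg Prod.snd (congrFun h t)
    simp at this
  refine ⟨⟨_, h1⟩, ⟨_, h2⟩, ?_⟩
  change B _ _ = 1
  unfold B
  rw [Finset.sum_eq_single t]
  · simp
  · intro b _ hb
    simp [Pi.single_eq_of_ne hb]
  · simp

lemma exists_nonadj_pair {d : ℕ} (hd : 2 ≤ d) : ∃ x y, x ≠ y ∧ ¬ (Sp d).Adj x y := by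
  set t : Fin d := ⟨0, by omega⟩ with ht
  set s : Fin d := ⟨1, by omega⟩ with hs
  have hts : t ≠ s := by
    intro h
    have := congrArg Fin.val h
    simp [ht, hs] at this
  have h1 : (Pi.single t ((1 : F), (0 : F)) : W d) ≠ 0 := by
    intro h
    have := congrArg Prod.fst (congrFun h t)
    simp at this
  have h2 : (Pi.single s ((1 : F), (0 : F)) : W d) ≠ 0 := by
    intro h
    have := congrArg Prod.fst (congrFun h s)
    simp at this
  refine ⟨⟨_, h1⟩, ⟨_, h2⟩, ?_, ?_⟩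
  · intro h
    have h3 := congrArg Prod.fst (congrFun (congrArg Subtype.val h) t)
    simp [Pi.single_eq_of_ne hts] at h3
  · change ¬ (B _ _ = 1)
    have : B (Pi.single t ((1 : F), (0 : F)) : W d) (Pi.single s ((1 : F), (0 : F))) = 0 := by
      unfold B
      apply Finset.sum_eq_zero
      intro b _
      by_cases hb : b = t
      · subst hb
        simp [Pi.single_eq_of_ne hts]
      · simp [Pi.single_eq_of_ne hb]
    rw [this]
    decide

/-- **Transitivity criterion.** -/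
theorem sat_iff {V : Type} {H : SimpleGraph V} {d : ℕ} (hd : 2 ≤ d) :
    Sat H (Sp d) ↔ IsEmpty (H ↪g Sp d) ∧
      (∃ u v, H.Adj u v ∧ Nonempty (H.deleteEdges {s(u, v)} ↪g Sp d)) ∧
      (∃ u v, u ≠ v ∧ ¬ H.Adj u v ∧ Nonempty ((H ⊔ SimpleGraph.edge u v) ↪g Sp d)) := by
  constructor
  · rintro ⟨h0, h1⟩
    refine ⟨h0, ?_, ?_⟩
    · obtain ⟨x, y, hxy, hn⟩ := exists_nonadj_pair hd
      have hD := diffAt_add (Sp d) hxy hn
      obtain ⟨ψ⟩ := h1 _ ⟨_, hD⟩
      obtain ⟨u, v, hu, hv⟩ := uses_pair h0 hD ψ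
      have hadj : H.Adj u v := by
        rw [← ψ.map_adj_iff, hu, hv]
        exact Or.inr ((SimpleGraph.edge_adj ..).2 ⟨Or.inl ⟨rfl, rfl⟩, hxy⟩)
      exact ⟨u, v, hadj, flip_embed (diffAt_delete H hadj).symm hD.symm ψ hu hv⟩
    · obtain ⟨x, y, hxy⟩ := exists_adj_pair (d := d) (by omega)
      have hD := diffAt_delete (Sp d) hxy
      obtain ⟨ψ⟩ := h1 _ ⟨_, hD⟩
      obtain ⟨u, v, hu, hv⟩ := uses_pair h0 hD ψ
      have hne : u ≠ v := by
        rintro rfl
        exact hxy.ne (hu.symm.trans hv)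
      have hadj : ¬ H.Adj u v := by
        rw [← ψ.map_adj_iff, hu, hv, SimpleGraph.deleteEdges_adj]
        intro h
        exact h.2 rfl
      exact ⟨u, v, hne, hadj, flip_embed (diffAt_add H hne hadj).symm hD.symm ψ hu hv⟩
  · rintro ⟨h0, ⟨u, v, huv, ⟨φ⟩⟩, ⟨u', v', hne', huv', ⟨φ'⟩⟩⟩
    refine ⟨h0, ?_⟩
    rintro G' ⟨e, hG'⟩
    induction e using Sym2.ind with
    | _ x y =>
    have hD : DiffAt (Sp d) G' s(x, y) := hG'
    by_cases hxy : (Sp d).Adj x y
    · obtain ⟨ψ, hψu, hψv⟩ := move_copy φ' hne' hD.ne (by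
        simp only [hxy, true_iff]
        exact Or.inr ((SimpleGraph.edge_adj ..).2 ⟨Or.inl ⟨rfl, rfl⟩, hne'⟩))
      exact flip_embed (diffAt_add H hne' huv') hD ψ hψu hψv
    · obtain ⟨ψ, hψu, hψv⟩ := move_copy φ huv.ne hD.ne (by
        simp only [hxy, false_iff, SimpleGraph.deleteEdges_adj]
        intro h
        exact h.2 rfl)
      exact flip_embed (diffAt_delete H huv) hD ψ hψu hψv

end Pool.Agent.IndSat
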