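import Pool.Agent.IndSat.Crit

set_option autoImplicit false

namespace Pool.Agent.IndSat

open Finset Matrix

set_option linter.unusedSectionVars false

variable {V : Type} [Fintype V] [DecidableEq V]

/-- xor of a graph with a set of ordered pairs -/
def tw (H : SimpleGraph V) (U : Finset (V × V)) : SimpleGraph V where
  Adj i j := i ≠ j ∧ ¬ (H.Adj i j ↔ ((i, j) ∈ U ∨ (j, i) ∈ U))
  symm := ⟨fun i j h => by
    refine ⟨h.1.symm, ?_⟩
    have := h.2
    rw [H.adj_comm, or_comm] at this
    exact this⟩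
  loopless := ⟨fun i h => h.1 rfl⟩

open Classical in
/-- If the members of `S` are determined by the pairs outside `E`, then `S` is small. -/
lemma card_mul_pow (S : Finset (SimpleGraph V)) (E : Finset (V × V))
    (hE1 : ∀ i j, (i, j) ∈ E → i ≠ j) (hE2 : ∀ i j, (i, j) ∈ E → (j, i) ∉ E)
    (h : ∀ H ∈ S, ∀ H' ∈ S,
      (∀ i j, (i, j) ∉ E → (j, i) ∉ E → (H.Adj i j ↔ H'.Adj i j)) → H = H') :
    S.card * 2 ^ E.card ≤ Fintype.card (SimpleGraph V) := by
  rw [← Finset.card_powerset, ← Finset.card_product]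
  apply Finset.card_le_card_of_injOn (fun p => tw p.1 p.2) (fun _ _ => mem_univ _)
  rintro ⟨H, U⟩ h1 ⟨H', U'⟩ h2 heq
  simp only [coe_product, Set.mem_prod, mem_coe, mem_powerset] at h1 h2
  simp only at heq
  have hadj : ∀ i j, i ≠ j → (¬ (H.Adj i j ↔ ((i, j) ∈ U ∨ (j, i) ∈ U)) ↔
      ¬ (H'.Adj i j ↔ ((i, j) ∈ U' ∨ (j, i) ∈ U'))) := by
    intro i j hij
    have := congrArg (fun G => G.Adj i j) heq
    simp only [tw, eq_iff_iff] at this
    exact ⟨fun h => (this.1 ⟨hij, h⟩).2, fun h => (this.2 ⟨hij, h⟩).2⟩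
  have hH : H = H' := by
    apply h H h1.1 H' h2.1
    intro i j hi hj
    by_cases hij : i = j
    · subst hij; simp
    have e1 : (i, j) ∉ U := fun h => hi (h1.2 h)
    have e2 : (j, i) ∉ U := fun h => hj (h1.2 h)
    have e3 : (i, j) ∉ U' := fun h => hi (h2.2 h)
    have e4 : (j, i) ∉ U' := fun h => hj (h2.2 h)
    have := hadj i j hij
    simp only [e1, e2, e3, e4] at this
    tauto
  subst hH
  have hU : U = U' := by
    ext ⟨i, j⟩
    by_cases hE : (i, j) ∈ E
    · have hne := hE2 i j hE
      have e2 : (j, i) ∉ U := fun h => hne (h1.2 h)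
      have e4 : (j, i) ∉ U' := fun h => hne (h2.2 h)
      have := hadj i j (hE1 i j hE)
      simp only [e2, e4] at this
      tauto
    · exact ⟨fun h => absurd (h1.2 h) hE, fun h => absurd (h2.2 h) hE⟩
  rw [hU]

open Classical in
/-- Graphs whose adjacency matrix is prescribed on a system of vectors that is nonsingular on `T`,
and prescribed on `{i0} × J`. -/
lemma card_struct (T : Finset V) {ι : Type} (w y : ι → V → F)
    (hw : ∀ d : V → F, (∀ i, i ∉ T → d i = 0) → (∀ s, d ⬝ᵥ w s = 0) → d = 0)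
    (i0 : V) (J : Finset V) (hJ : ∀ j ∈ J, j ∉ T ∧ j ≠ i0 ∧ i0 ∉ T) (c : F)
    (S : Finset (SimpleGraph V))
    (hS : ∀ H ∈ S, (∀ s, adj H *ᵥ w s = y s) ∧ ∀ j ∈ J, adj H i0 j = c) :
    S.card * 2 ^ (T.card * (Fintype.card V - T.card) + J.card) ≤
      Fintype.card (SimpleGraph V) := by
  set E : Finset (V × V) := (T ×ˢ Tᶜ) ∪ ({i0} ×ˢ J) with hE
  have hmem : ∀ i j, (i, j) ∈ E ↔ ((i ∈ T ∧ j ∉ T) ∨ (i = i0 ∧ j ∈ J)) := by
    intro i j
    simp only [hE, mem_union, mem_product, mem_compl, mem_singleton]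
  have hcard : E.card = T.card * (Fintype.card V - T.card) + J.card := by
    rw [hE, Finset.card_union_of_disjoint, Finset.card_product, Finset.card_product,
      Finset.card_compl, Finset.card_singleton, one_mul]
    rw [Finset.disjoint_left]
    rintro ⟨i, j⟩ h1 h2
    simp only [mem_product, mem_compl, mem_singleton] at h1 h2
    obtain ⟨-, -, h3⟩ := hJ j h2.2
    rw [← h2.1] at h3
    exact h3 h1.1
  rw [← hcard]
  apply card_mul_pow S E
  · intro i j hij
    rw [hmem] at hij
    rcases hij with ⟨h1, h2⟩ | ⟨h1, h2⟩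
    · rintro rfl; exact h2 h1
    · rintro rfl
      exact (hJ i h2).2.1 h1
  · intro i j hij hji
    rw [hmem] at hij hji
    rcases hij with ⟨h1, h2⟩ | ⟨h1, h2⟩ <;> rcases hji with ⟨h3, h4⟩ | ⟨h3, h4⟩
    · exact h2 h3
    · exact (hJ i h4).1 h1
    · exact (hJ j h2).1 h3
    · exact (hJ j h2).2.1 h3
  · intro H hH H' hH' hag
    have hag' : ∀ i j, (i, j) ∉ E → (j, i) ∉ E → adj H i j = adj H' i j := by
      intro i j h1 h2
      have := hag i j h1 h2
      unfold adj
      simp only [Matrix.of_apply]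
      by_cases h : H.Adj i j
      · rw [if_pos h, if_pos (this.1 h)]
      · rw [if_neg h, if_neg (fun h' => h (this.2 h'))]
    have hout : ∀ i j, i ∉ T → j ∉ T → adj H i j = adj H' i j := by
      intro i j hi hj
      by_cases h1 : (i, j) ∈ E
      · rw [hmem] at h1
        rcases h1 with ⟨h1, -⟩ | ⟨h1, h2⟩
        · exact absurd h1 hi
        · rw [h1, (hS H hH).2 j h2, (hS H' hH').2 j h2]
      · by_cases h2 : (j, i) ∈ E
        · rw [hmem] at h2
          rcases h2 with ⟨h2, -⟩ | ⟨h2, h3⟩
          · exact absurd h2 hj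
          · rw [h2, adj_symm H, adj_symm H', (hS H hH).2 i h3, (hS H' hH').2 i h3]
        · exact hag' i j h1 h2
    have hin : ∀ i j, i ∈ T → j ∈ T → adj H i j = adj H' i j := by
      intro i j hi hj
      apply hag'
      · rw [hmem]
        rintro (⟨-, h2⟩ | ⟨-, h2⟩)
        · exact h2 hj
        · exact (hJ j h2).1 hj
      · rw [hmem]
        rintro (⟨-, h2⟩ | ⟨-, h2⟩)
        · exact h2 hi
        · exact (hJ i h2).1 hi
    have hrow : ∀ l, l ∉ T → ∀ j, adj H l j = adj H' l j := by
      intro l hl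
      have hd : (fun j => adj H l j - adj H' l j) = 0 := by
        apply hw
        · intro i hi
          rw [hout l i hl hi, sub_self]
        · intro s
          have e1 := congrFun ((hS H hH).1 s) l
          have e2 := congrFun ((hS H' hH').1 s) l
          rw [← e2] at e1
          simp only [Matrix.mulVec, dotProduct] at e1
          simp only [dotProduct, sub_mul, Finset.sum_sub_distrib]
          rw [e1, sub_self]
      intro j
      have := congrFun hd j
      exact sub_eq_zero.1 this
    ext i j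
    have : adj H i j = adj H' i j := by
      by_cases hi : i ∈ T
      · by_cases hj : j ∈ T
        · exact hin i j hi hj
        · rw [adj_symm H, adj_symm H', hrow j hj i]
      · exact hrow i hi j
    rw [← adj_one, ← adj_one, this]

/-- Every subspace of `F_2^V` has a basis in reduced echelon form. -/
lemma frame (K : Submodule F (V → F)) : ∃ k : ℕ, ∃ σ : Fin k → V, ∃ x : Fin k → V → F,
    (∀ s, x s ∈ K) ∧ (∀ s t, x s (σ t) = if s = t then 1 else 0) ∧
      ∀ z ∈ K, z = ∑ s, z (σ s) • x s := by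
  induction K using WellFoundedLT.induction with
  | ind K ih =>
  by_cases hK : K = ⊥
  · subst hK
    refine ⟨0, Fin.elim0, fun s => s.elim0, fun s => s.elim0, fun s => s.elim0, ?_⟩
    intro z hz
    rw [Submodule.mem_bot] at hz
    rw [hz]
    simp
  · obtain ⟨y, hyK, hy0⟩ := Submodule.exists_mem_ne_zero_of_ne_bot hK
    obtain ⟨t, ht⟩ : ∃ t, y t = 1 := by
      by_contra hcon
      push Not at hcon
      apply hy0
      funext t
      rcases F_cases (y t) with h | h
      · exact h
      · exact absurd h (hcon t)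
    set K0 : Submodule F (V → F) := K ⊓ LinearMap.ker (LinearMap.proj t : (V → F) →ₗ[F] F)
      with hK0
    have hmem : ∀ z, z ∈ K0 ↔ z ∈ K ∧ z t = 0 := by
      intro z
      rw [hK0, Submodule.mem_inf, LinearMap.mem_ker, LinearMap.proj_apply]
    have hlt : K0 < K := by
      refine lt_of_le_of_ne inf_le_left ?_
      intro h
      rw [← h, hmem] at hyK
      rw [ht] at hyK
      exact absurd hyK.2 (by decide)
    obtain ⟨k, σ, x, h1, h2, h3⟩ := ih K0 hlt
    set x0 : V → F := y - ∑ s, y (σ s) • x s with hx0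
    have hx0K : x0 ∈ K :=
      K.sub_mem hyK (K.sum_mem fun s _ => K.smul_mem _ ((hmem _).1 (h1 s)).1)
    have hx0t : x0 t = 1 := by
      rw [hx0, Pi.sub_apply, Finset.sum_apply, ht]
      rw [Finset.sum_eq_zero, sub_zero]
      intro s _
      rw [Pi.smul_apply, ((hmem _).1 (h1 s)).2, smul_zero]
    have hx0s : ∀ s, x0 (σ s) = 0 := by
      intro s
      rw [hx0, Pi.sub_apply, Finset.sum_apply]
      simp only [Pi.smul_apply, h2, smul_eq_mul, mul_ite, mul_one, mul_zero]
      rw [Finset.sum_ite_eq' univ s (fun s => y (σ s))]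
      simp
    refine ⟨k + 1, Fin.cons t σ, Fin.cons x0 x, ?_, ?_, ?_⟩
    · intro s
      refine Fin.cases ?_ (fun s => ?_) s
      · exact hx0K
      · exact ((hmem _).1 (h1 s)).1
    · intro s t'
      refine Fin.cases ?_ (fun s => ?_) s
      · refine Fin.cases ?_ (fun t' => ?_) t'
        · simp [hx0t]
        · simp only [Fin.cons_zero, Fin.cons_succ]
          rw [hx0s, if_neg (Fin.succ_ne_zero _).symm]
      · refine Fin.cases ?_ (fun t' => ?_) t'
        · simp only [Fin.cons_zero, Fin.cons_succ]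
          rw [((hmem _).1 (h1 s)).2, if_neg (Fin.succ_ne_zero _)]
        · simp only [Fin.cons_succ, Fin.succ_inj]
          exact h2 s t'
    · intro z hz
      have hz0 : z - z t • x0 ∈ K0 := by
        rw [hmem]
        refine ⟨K.sub_mem hz (K.smul_mem _ hx0K), ?_⟩
        rw [Pi.sub_apply, Pi.smul_apply, hx0t, smul_eq_mul, mul_one, sub_self]
      have := h3 _ hz0
      rw [Fin.sum_univ_succ]
      simp only [Fin.cons_zero, Fin.cons_succ]
      have h4 : ∀ s, (z - z t • x0) (σ s) = z (σ s) := by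
        intro s
        rw [Pi.sub_apply, Pi.smul_apply, hx0s, smul_zero, sub_zero]
      simp only [h4] at this
      rw [← this]
      abel

end Pool.Agent.IndSat
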