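import Pool.Agent.IndSat.Symp

set_option autoImplicit false

namespace Pool.Agent.IndSat

open Finset Matrix

set_option linter.unusedSectionVars false

variable {V : Type*} [Fintype V] [DecidableEq V]

/-- If `ker A ⊆ ker A'` and `ker A'` contains two more independent vectors, the rank drops by
at least two. -/
lemma rank_drop (A A' : Matrix V V F) (hle : ∀ x, A *ᵥ x = 0 → A' *ᵥ x = 0) (p q : V → F)
    (hp : A' *ᵥ p = 0) (hq : A' *ᵥ q = 0)
    (hind : ∀ a b : F, a • (A *ᵥ p) + b • (A *ᵥ q) = 0 → a = 0 ∧ b = 0) :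
    A'.rank + 2 ≤ A.rank := by
  have h1 := LinearMap.finrank_range_add_finrank_ker A.mulVecLin
  have h2 := LinearMap.finrank_range_add_finrank_ker A'.mulVecLin
  set f : (LinearMap.ker A'.mulVecLin) →ₗ[F] (V → F) :=
    A.mulVecLin ∘ₗ (LinearMap.ker A'.mulVecLin).subtype with hf
  have h3 := LinearMap.finrank_range_add_finrank_ker f
  have hker : Module.finrank F (LinearMap.ker f) =
      Module.finrank F (LinearMap.ker A.mulVecLin) := by
    have hle' : LinearMap.ker A.mulVecLin ≤ LinearMap.ker A'.mulVecLin := by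
      intro x hx
      rw [LinearMap.mem_ker, Matrix.mulVecLin_apply] at hx ⊢
      exact hle x hx
    rw [hf, LinearMap.ker_comp]
    exact (Submodule.comapSubtypeEquivOfLe hle').finrank_eq
  have hran : 2 ≤ Module.finrank F (LinearMap.range f) := by
    have hli : LinearIndependent F ![A *ᵥ p, A *ᵥ q] := by
      rw [LinearIndependent.pair_iff]
      exact hind
    have e1 := finrank_span_eq_card hli
    rw [Fintype.card_fin] at e1
    refine le_of_eq_of_le e1.symm ?_
    apply Submodule.finrank_mono
    rw [Submodule.span_le]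
    rintro _ ⟨i, rfl⟩
    fin_cases i
    · exact ⟨⟨p, by rw [LinearMap.mem_ker, Matrix.mulVecLin_apply]; exact hp⟩, rfl⟩
    · exact ⟨⟨q, by rw [LinearMap.mem_ker, Matrix.mulVecLin_apply]; exact hq⟩, rfl⟩
  unfold Matrix.rank
  omega

/-- Gram factorisation of an alternating matrix over `F_2`. -/
lemma factor (d : ℕ) : ∀ A : Matrix V V F, (∀ i j, A i j = A j i) → (∀ i, A i i = 0) →
    A.rank ≤ 2 * d → ∃ Φ : V → W d, ∀ u v, A u v = B (Φ u) (Φ v) := by
  induction d with
  | zero =>
    intro A hs hd hr
    refine ⟨fun _ => 0, ?_⟩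
    intro u v
    have hr0 : A.rank = 0 := by omega
    unfold Matrix.rank at hr0
    rw [Submodule.finrank_eq_zero, LinearMap.range_eq_bot] at hr0
    have : A *ᵥ (Pi.single v 1) = 0 := by
      have := congrArg (fun f => f (Pi.single v 1)) hr0
      simpa using this
    have h2 := congrFun this u
    rw [Matrix.mulVec_single_one] at h2
    simp only [Matrix.col_apply, Pi.zero_apply] at h2
    rw [h2]
    simp [B]
  | succ d ih =>
    intro A hs hd hr
    by_cases hA : A = 0
    · refine ⟨fun _ => 0, ?_⟩
      intro u v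
      rw [hA]
      simp [B]
    · obtain ⟨i, j, hij⟩ : ∃ i j, A i j = 1 := by
        by_contra hcon
        push Not at hcon
        apply hA
        ext i j
        rcases F_cases (A i j) with h | h
        · exact h
        · exact absurd h (hcon i j)
      have hji : A j i = 1 := by rw [hs, hij]
      set A' : Matrix V V F := Matrix.of fun u v => A u v + (A u i * A v j + A u j * A v i)
        with hA'
      have hs' : ∀ u v, A' u v = A' v u := by
        intro u v
        simp only [hA', Matrix.of_apply]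
        rw [hs u v]; ring
      have hd' : ∀ u, A' u u = 0 := by
        intro u
        simp only [hA', Matrix.of_apply]
        rw [hd u, mul_comm (A u j), F_add_self, add_zero]
      have happ : ∀ x : V → F, ∀ u, (A' *ᵥ x) u = (A *ᵥ x) u +
          (A u i * (A *ᵥ x) j + A u j * (A *ᵥ x) i) := by
        intro x u
        simp only [Matrix.mulVec, dotProduct, hA', Matrix.of_apply]
        rw [Finset.mul_sum, Finset.mul_sum, ← Finset.sum_add_distrib, ← Finset.sum_add_distrib]
        refine sum_congr rfl fun v _ => ?_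
        rw [hs j v, hs i v]; ring
      have hcol : ∀ k u, (A *ᵥ (Pi.single k 1)) u = A u k := by
        intro k u
        rw [Matrix.mulVec_single_one]
        rfl
      have hdrop : A'.rank + 2 ≤ A.rank := by
        apply rank_drop A A' _ (Pi.single i 1) (Pi.single j 1)
        · funext u
          rw [happ, hcol, hcol, hcol, hji, hd i]
          simp [F_add_self]
        · funext u
          rw [happ, hcol, hcol, hcol, hij, hd j]
          simp [F_add_self]
        · intro a b hab
          have e1 := congrFun hab j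
          have e2 := congrFun hab i
          simp only [Pi.add_apply, Pi.smul_apply, hcol, hji, hij, hd, smul_eq_mul,
            Pi.zero_apply, mul_one, mul_zero, add_zero, zero_add] at e1 e2
          exact ⟨e1, e2⟩
        · intro x hx
          funext u
          rw [happ, hx]
          simp
      obtain ⟨Φ, hΦ⟩ := ih A' hs' hd' (by omega)
      refine ⟨fun u => Fin.cons (A u i, A u j) (Φ u), ?_⟩
      intro u v
      have : A u v = A' u v + (A u i * A v j + A u j * A v i) := by
        simp only [hA', Matrix.of_apply]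
        rw [add_assoc, F_add_self, add_zero]
      rw [this, hΦ]
      unfold B
      rw [Fin.sum_univ_succ]
      simp only [Fin.cons_zero, Fin.cons_succ]
      ring

/-- A Gram matrix in dimension `2d` has rank at most `2d`. -/
lemma rank_le_of_gram {d : ℕ} (A : Matrix V V F) (Φ : V → W d)
    (h : ∀ u v, A u v = B (Φ u) (Φ v)) : A.rank ≤ 2 * d := by
  have hA : A = (Matrix.of fun u (t : Fin d ⊕ Fin d) =>
        Sum.elim (fun t => (Φ u t).1) (fun t => (Φ u t).2) t : Matrix V (Fin d ⊕ Fin d) F) *
      (Matrix.of fun (t : Fin d ⊕ Fin d) v =>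
        Sum.elim (fun t => (Φ v t).2) (fun t => (Φ v t).1) t : Matrix (Fin d ⊕ Fin d) V F) := by
    ext u v
    rw [Matrix.mul_apply, Fintype.sum_sum_type, h]
    simp only [Matrix.of_apply, Sum.elim_inl, Sum.elim_inr]
    unfold B
    rw [Finset.sum_add_distrib]
  rw [hA]
  refine (Matrix.rank_mul_le_left _ _).trans ?_
  refine (Matrix.rank_le_card_width _).trans ?_
  simp [two_mul]

lemma alt_quad (A : Matrix V V F) (hs : ∀ i j, A i j = A j i) (hd : ∀ i, A i i = 0) (x : V → F) :
    x ⬝ᵥ (A *ᵥ x) = 0 := by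
  have : x ⬝ᵥ (A *ᵥ x) = ∑ p ∈ (univ : Finset (V × V)), x p.1 * (A p.1 p.2 * x p.2) := by
    rw [← Finset.univ_product_univ, Finset.sum_product]
    simp only [dotProduct, Matrix.mulVec, Finset.mul_sum]
  rw [this]
  apply Finset.sum_involution (fun p _ => (p.2, p.1))
  · rintro ⟨a, b⟩ _
    simp only
    rw [hs b a]
    have : x b * (A a b * x a) = x a * (A a b * x b) := by ring
    rw [this, F_add_self]
  · rintro ⟨a, b⟩ _ hne heq
    simp only [Prod.mk.injEq] at heq
    apply hne
    simp only
    rw [heq.2, hd]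
    ring
  · intro a _; exact mem_univ _
  · rintro ⟨a, b⟩ _; rfl

lemma sym_quad (A : Matrix V V F) (hs : ∀ i j, A i j = A j i) (x y : V → F) :
    x ⬝ᵥ (A *ᵥ y) = y ⬝ᵥ (A *ᵥ x) := by
  simp only [dotProduct, Matrix.mulVec, Finset.mul_sum]
  rw [Finset.sum_comm]
  refine sum_congr rfl fun i _ => sum_congr rfl fun j _ => ?_
  rw [hs j i]; ring

/-- The matrix of `A` with the pair `i, j` flipped. -/
def flip (A : Matrix V V F) (i j : V) : Matrix V V F :=
  Matrix.of fun u v => A u v + ((if u = i ∧ v = j then 1 else 0) + (if u = j ∧ v = i then 1 else 0))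

/-- flipping `i, j` drops the rank: certificate -/
def Drop (A : Matrix V V F) (i j : V) : Prop :=
  i ≠ j ∧ ∃ u v : V → F, A *ᵥ u = Pi.single i 1 ∧ A *ᵥ v = Pi.single j 1 ∧ u j = 1

lemma flip_apply (A : Matrix V V F) (i j : V) (x : V → F) (u : V) :
    (flip A i j *ᵥ x) u = (A *ᵥ x) u + ((if u = i then x j else 0) + (if u = j then x i else 0)) := by
  simp only [Matrix.mulVec, dotProduct, flip, Matrix.of_apply, add_mul, Finset.sum_add_distrib]
  congr 1
  congr 1
  · by_cases h : u = i
    · simp [h]
    · simp [h]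
  · by_cases h : u = j
    · simp [h]
    · simp [h]

lemma rank_flip (A : Matrix V V F) (hs : ∀ i j, A i j = A j i) (hd : ∀ i, A i i = 0) {i j : V}
    (h : Drop A i j) : (flip A i j).rank + 2 ≤ A.rank := by
  obtain ⟨hij, u, v, hu, hv, huj⟩ := h
  have hui : u i = 0 := by
    have := alt_quad A hs hd u
    rw [hu] at this
    simpa using this
  have hvj : v j = 0 := by
    have := alt_quad A hs hd v
    rw [hv] at this
    simpa using this
  have hvi : v i = 1 := by
    have := sym_quad A hs u v
    rw [hu, hv] at this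
    simp only [dotProduct_single, mul_one] at this
    rw [← this, huj]
  apply rank_drop A (flip A i j) _ u v
  · funext w
    rw [flip_apply, hu, huj, hui]
    by_cases h : w = i
    · subst h; simp [F_add_self]
    · simp [h]
  · funext w
    rw [flip_apply, hv, hvj, hvi]
    by_cases h : w = j
    · subst h; simp [F_add_self]
    · simp [h]
  · intro a b hab
    rw [hu, hv] at hab
    have e1 := congrFun hab i
    have e2 := congrFun hab j
    simp only [Pi.add_apply, Pi.smul_apply, Pi.single_eq_same, Pi.single_eq_of_ne hij,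
      Pi.single_eq_of_ne (Ne.symm hij), smul_eq_mul, mul_one, mul_zero, add_zero, zero_add,
      Pi.zero_apply] at e1 e2
    exact ⟨e1, e2⟩
  · intro x hx
    have hxi : x i = 0 := by
      have := sym_quad A hs u x
      rw [hx, hu] at this
      simpa using this.symm
    have hxj : x j = 0 := by
      have := sym_quad A hs v x
      rw [hx, hv] at this
      simpa using this.symm
    funext w
    rw [flip_apply, hx, hxi, hxj]
    simp

/-- The symplectic graph `Sp(2d, 2)`: nonzero vectors of `F_2^{2d}`, two of them adjacent when the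
symplectic form takes the value `1` on them. -/
def Sp (d : ℕ) : SimpleGraph {x : W d // x ≠ 0} where
  Adj x y := B x.1 y.1 = 1
  symm := ⟨fun x y h => by rw [B_comm]; exact h⟩
  loopless := ⟨fun x h => by
    rw [B_self] at h
    exact absurd h (by decide)⟩

/-- `G` is `H`-free and every graph that differs from `G` in exactly one pair contains an induced
copy of `H`. -/
def Sat {V W : Type*} (H : SimpleGraph V) (G : SimpleGraph W) : Prop :=
  IsEmpty (H ↪g G) ∧ ∀ G' : SimpleGraph W,
    (∃ e : Sym2 W, ∀ f : Sym2 W, ((f ∈ G.edgeSet ↔ f ∈ G'.edgeSet) ↔ f ≠ e)) →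
      Nonempty (H ↪g G')

/-- The adjacency matrix over `F_2`. -/
noncomputable def adj (H : SimpleGraph V) : Matrix V V F :=
  open Classical in Matrix.of fun u v => if H.Adj u v then 1 else 0

lemma adj_one {H : SimpleGraph V} {u v : V} : adj H u v = 1 ↔ H.Adj u v := by
  unfold adj
  simp

lemma adj_zero {H : SimpleGraph V} {u v : V} : adj H u v = 0 ↔ ¬ H.Adj u v := by
  unfold adj
  simp

lemma adj_symm (H : SimpleGraph V) (i j : V) : adj H i j = adj H j i := by
  unfold adj
  by_cases h : H.Adj i j
  · simp [h, h.symm]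
  · have h' : ¬ H.Adj j i := fun h' => h h'.symm
    simp [h, h']

lemma adj_diag (H : SimpleGraph V) (i : V) : adj H i i = 0 := by
  unfold adj
  simp

/-- no row of `H`, even after two changes, vanishes -/
def G1 (H : SimpleGraph V) : Prop := ∀ i a b : V, ∃ l, l ≠ a ∧ l ≠ b ∧ H.Adj i l

/-- no two rows of `H`, even after two columns are deleted, coincide -/
def G2 (H : SimpleGraph V) : Prop :=
  ∀ i j : V, i ≠ j → ∀ a b : V, ∃ l, l ≠ a ∧ l ≠ b ∧ ¬ (H.Adj i l ↔ H.Adj j l)

lemma adj_ne_iff {H : SimpleGraph V} {i j l : V} :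
    adj H i l ≠ adj H j l ↔ ¬ (H.Adj i l ↔ H.Adj j l) := by
  unfold adj
  by_cases h1 : H.Adj i l <;> by_cases h2 : H.Adj j l <;> simp [h1, h2]

/-- embedding of a flipped graph into `Sp(2d, 2)` -/
lemma exists_gram {H : SimpleGraph V} (h1 : G1 H) (h2 : G2 H) {i j : V} (hD : Drop (adj H) i j)
    {d : ℕ} (hd : (adj H).rank ≤ 2 * d + 2) :
    ∃ Φ : V → W d, (∀ u v, flip (adj H) i j u v = B (Φ u) (Φ v)) ∧ (∀ u, Φ u ≠ 0) ∧
      Function.Injective Φ := by
  have hr := rank_flip (adj H) (adj_symm H) (adj_diag H) hD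
  obtain ⟨Φ, hΦ⟩ := factor d (flip (adj H) i j) (by
      intro u v
      simp only [flip, Matrix.of_apply]
      rw [adj_symm H u v, add_comm (if u = i ∧ v = j then (1 : F) else 0)]
      simp only [and_comm]) (by
      intro u
      simp only [flip, Matrix.of_apply]
      rw [adj_diag, zero_add]
      have hij := hD.1
      have e1 : ¬ (u = i ∧ u = j) := by rintro ⟨rfl, h⟩; exact hij h
      have e2 : ¬ (u = j ∧ u = i) := by rintro ⟨rfl, h⟩; exact hij h.symm
      rw [if_neg e1, if_neg e2, add_zero]) (by omega)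
  have hfl : ∀ u l, l ≠ i → l ≠ j → flip (adj H) i j u l = adj H u l := by
    intro u l hi hj
    simp only [flip, Matrix.of_apply]
    rw [if_neg (fun h => hj h.2), if_neg (fun h => hi h.2), add_zero, add_zero]
  refine ⟨Φ, hΦ, ?_, ?_⟩
  · intro u hu
    obtain ⟨l, hl1, hl2, hl3⟩ := h1 u i j
    have := hΦ u l
    rw [hu, hfl u l hl1 hl2, adj_one.2 hl3] at this
    simp [B] at this
  · intro u v huv
    by_contra hne
    obtain ⟨l, hl1, hl2, hl3⟩ := h2 u v hne i j
    have e1 := hΦ u l
    have e2 := hΦ v l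
    rw [huv, ← e2, hfl u l hl1 hl2, hfl v l hl1 hl2] at e1
    exact adj_ne_iff.2 hl3 e1

/-- The criterion: the symplectic graph is `H`-induced-saturated. -/
theorem criterion (H : SimpleGraph V) (h1 : G1 H) (h2 : G2 H)
    (he : ∃ i j, H.Adj i j ∧ Drop (adj H) i j) (hf : ∃ i j, ¬ H.Adj i j ∧ Drop (adj H) i j) :
    ∃ d, Sat H (Sp d) ∧ Fintype.card V ≤ Fintype.card {x : W d // x ≠ 0} := by
  obtain ⟨i0, j0, hadj0, hD0⟩ := he
  have hr := rank_flip (adj H) (adj_symm H) (adj_diag H) hD0
  refine ⟨((adj H).rank - 1) / 2, ⟨?_, ?_⟩, ?_⟩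
  · refine ⟨fun φ => ?_⟩
    have := rank_le_of_gram (adj H) (fun u => (φ u).1) (by
      intro u v
      have hmap := φ.map_rel_iff (a := u) (b := v)
      change B (φ u).1 (φ v).1 = 1 ↔ H.Adj u v at hmap
      by_cases h : H.Adj u v
      · rw [hmap.2 h, adj_one.2 h]
      · rcases F_cases (B (φ u).1 (φ v).1) with h0 | h0
        · rw [h0, adj_zero.2 h]
        · exact absurd (hmap.1 h0) h)
    omega
  · rintro G' ⟨e, hG'⟩
    induction e using Sym2.ind with
    | _ x y =>
    have hxy : x ≠ y := by
      rintro rfl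
      have := hG' s(x, x)
      simp at this
    have hflip : ∀ a b, s(a, b) ≠ s(x, y) → (G'.Adj a b ↔ B a.1 b.1 = 1) := by
      intro a b hab
      have := (hG' s(a, b)).2 hab
      rw [SimpleGraph.mem_edgeSet, SimpleGraph.mem_edgeSet] at this
      exact this.symm
    have hflip2 : G'.Adj x y ↔ ¬ (B x.1 y.1 = 1) := by
      have := (hG' s(x, y))
      rw [SimpleGraph.mem_edgeSet, SimpleGraph.mem_edgeSet] at this
      have h3 : ¬ ((Sp _).Adj x y ↔ G'.Adj x y) := fun h => this.1 h rfl
      change ¬ (B x.1 y.1 = 1 ↔ G'.Adj x y) at h3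
      tauto
    -- choose the pair of `H`
    obtain ⟨i, j, hij, hD⟩ : ∃ i j, (H.Adj i j ↔ ¬ (B x.1 y.1 = 1)) ∧ Drop (adj H) i j := by
      by_cases hB : B x.1 y.1 = 1
      · obtain ⟨i, j, h, hD⟩ := hf
        exact ⟨i, j, by tauto, hD⟩
      · exact ⟨i0, j0, by tauto, hD0⟩
    obtain ⟨Φ, hΦ, hΦ0, hΦi⟩ := exists_gram h1 h2 hD (d := ((adj H).rank - 1) / 2) (by omega)
    have hBij : B (Φ i) (Φ j) = B x.1 y.1 := by
      rw [← hΦ i j]
      simp only [flip, Matrix.of_apply, and_self, if_true]
      rw [if_neg (fun h => hD.1 h.1), add_zero]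
      by_cases hB : B x.1 y.1 = 1
      · rw [adj_zero.2 (by tauto), hB, zero_add]
      · rw [adj_one.2 (by tauto)]
        rcases F_cases (B x.1 y.1) with h | h
        · rw [h]; decide
        · exact absurd h hB
    obtain ⟨g, hg, hgi, hgj⟩ := trans_two (hΦ0 i) (hΦ0 j) (fun h => hD.1 (hΦi h)) x.2 y.2
      (fun h => hxy (Subtype.ext h)) hBij
    have hg0 : ∀ u, g (Φ u) ≠ 0 := by
      intro u hu
      apply hΦ0 u
      apply hg.injective
      rw [hu, map_zero]
    refine ⟨⟨⟨fun u => ⟨g (Φ u), hg0 u⟩, ?_⟩, ?_⟩⟩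
    · intro u v huv
      exact hΦi (hg.injective (congrArg Subtype.val huv))
    · intro u v
      have hinj : ∀ p q : V, g (Φ p) = g (Φ q) → p = q := fun p q h => hΦi (hg.injective h)
      change G'.Adj ⟨g (Φ u), hg0 u⟩ ⟨g (Φ v), hg0 v⟩ ↔ H.Adj u v
      by_cases hcase : s(u, v) = s(i, j)
      · have hHij : H.Adj u v ↔ H.Adj i j := by
          rw [← SimpleGraph.mem_edgeSet, hcase, SimpleGraph.mem_edgeSet]
        have hx : (⟨g (Φ i), hg0 i⟩ : {x : W _ // x ≠ 0}) = x := Subtype.ext hgi
        have hy : (⟨g (Φ j), hg0 j⟩ : {x : W _ // x ≠ 0}) = y := Subtype.ext hgj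
        have hG2 : G'.Adj ⟨g (Φ u), hg0 u⟩ ⟨g (Φ v), hg0 v⟩ ↔ G'.Adj x y := by
          rw [Sym2.eq_iff] at hcase
          rcases hcase with ⟨rfl, rfl⟩ | ⟨rfl, rfl⟩
          · rw [hx, hy]
          · rw [hx, hy, G'.adj_comm]
        rw [hG2, hHij, hflip2, hij]
      · rw [hflip]
        · simp only
          rw [hg, ← hΦ u v]
          have hne : ¬ (u = i ∧ v = j) := by
            rintro ⟨rfl, rfl⟩; exact hcase rfl
          have hne2 : ¬ (u = j ∧ v = i) := by
            rintro ⟨rfl, rfl⟩; exact hcase Sym2.eq_swap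
          simp only [flip, Matrix.of_apply]
          rw [if_neg hne, if_neg hne2, add_zero, add_zero, adj_one]
        · intro hs
          apply hcase
          rw [Sym2.eq_iff] at hs ⊢
          rcases hs with ⟨e1, e2⟩ | ⟨e1, e2⟩
          · left
            have f1 := congrArg Subtype.val e1
            have f2 := congrArg Subtype.val e2
            simp only at f1 f2
            rw [← hgi] at f1
            rw [← hgj] at f2
            exact ⟨hinj _ _ f1, hinj _ _ f2⟩
          · right
            have f1 := congrArg Subtype.val e1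
            have f2 := congrArg Subtype.val e2
            simp only at f1 f2
            rw [← hgj] at f1
            rw [← hgi] at f2
            exact ⟨hinj _ _ f1, hinj _ _ f2⟩
  · obtain ⟨Φ, hΦ, hΦ0, hΦi⟩ := exists_gram h1 h2 hD0 (d := ((adj H).rank - 1) / 2) (by omega)
    apply Fintype.card_le_of_injective (fun u => (⟨Φ u, hΦ0 u⟩ : {x : W _ // x ≠ 0}))
    intro u v huv
    exact hΦi (congrArg Subtype.val huv)

end Pool.Agent.IndSat
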