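import Pool.Agent.IndSat.Char

set_option autoImplicit false

namespace Pool.Agent.IndSat

open Finset Matrix Module

set_option linter.unusedSectionVars false

variable {V : Type} [Fintype V] [DecidableEq V]

/-- The numerical condition for an induced copy of `K` in the symplectic graph. -/
def Fits (K : SimpleGraph V) (d : ℕ) : Prop :=
  ∃ t : ℕ, (adj K).rank + 2 * t ≤ 2 * d ∧
    (∀ v, {u | K.neighborSet u = K.neighborSet v}.ncard ≤ 2 ^ t) ∧
    {u | K.neighborSet u = ∅}.ncard + 1 ≤ 2 ^ t

lemma card_code (t : ℕ) : Fintype.card (Fin t → F) = 2 ^ t := by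
  rw [Fintype.card_fun, ZMod.card, Fintype.card_fin]

lemma exists_code (S : Set V) (t : ℕ) (hS : S.ncard ≤ 2 ^ t) :
    ∃ g : V → (Fin t → F), Set.InjOn g S := by
  classical
  have h1 : Fintype.card S ≤ Fintype.card (Fin t → F) := by
    rw [card_code, ← Nat.card_eq_fintype_card, Nat.card_coe_set_eq]
    exact hS
  obtain ⟨f⟩ := Function.Embedding.nonempty_of_card_le h1
  refine ⟨fun v => if h : v ∈ S then f ⟨v, h⟩ else 0, ?_⟩
  intro a ha b hb hab
  simp only [dif_pos ha, dif_pos hb] at hab
  exact congrArg Subtype.val (f.injective hab)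

lemma exists_code0 (S : Set V) (t : ℕ) (hS : S.ncard + 1 ≤ 2 ^ t) :
    ∃ g : V → (Fin t → F), Set.InjOn g S ∧ ∀ v ∈ S, g v ≠ 0 := by
  classical
  have h1 : Fintype.card S ≤ Fintype.card {x : Fin t → F // x ≠ 0} := by
    rw [Fintype.card_subtype_compl, card_code, Fintype.card_subtype_eq,
      ← Nat.card_eq_fintype_card, Nat.card_coe_set_eq]
    omega
  obtain ⟨f⟩ := Function.Embedding.nonempty_of_card_le h1
  refine ⟨fun v => if h : v ∈ S then (f ⟨v, h⟩).1 else 0, ?_, ?_⟩
  · intro a ha b hb hab
    simp only [dif_pos ha, dif_pos hb] at hab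
    exact congrArg Subtype.val (f.injective (Subtype.ext hab))
  · intro v hv
    simp only [dif_pos hv]
    exact (f ⟨v, hv⟩).2

lemma B_append {r t : ℕ} (a a' : W r) (b b' : W t) :
    B (Fin.append a b : W (r + t)) (Fin.append a' b') = B a a' + B b b' := by
  unfold B
  rw [Fin.sum_univ_add]
  simp only [Fin.append_left, Fin.append_right]

theorem embed_of_fits {K : SimpleGraph V} {d : ℕ} (h : Fits K d) : Nonempty (K ↪g Sp d) := by
  obtain ⟨t, h1, h2, h3⟩ := h
  obtain ⟨r, rfl⟩ : ∃ r, d = r + t := ⟨d - t, by omega⟩
  obtain ⟨Φ, hΦ⟩ := factor r (adj K) (adj_symm K) (adj_diag K) (by omega)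
  have hcode : ∀ N : Set V, ∃ g : V → (Fin t → F), Set.InjOn g {u | K.neighborSet u = N} ∧
      (N = ∅ → ∀ u, K.neighborSet u = ∅ → g u ≠ 0) := by
    intro N
    by_cases hN : N = ∅
    · subst hN
      obtain ⟨g, hg1, hg2⟩ := exists_code0 _ t h3
      exact ⟨g, hg1, fun _ u hu => hg2 u hu⟩
    · by_cases hv : ∃ v, K.neighborSet v = N
      · obtain ⟨v, rfl⟩ := hv
        obtain ⟨g, hg⟩ := exists_code _ t (h2 v)
        exact ⟨g, hg, fun h => absurd h hN⟩
      · refine ⟨fun _ => 0, ?_, fun h => absurd h hN⟩
        intro a ha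
        exact absurd ⟨a, ha⟩ hv
  choose g hg1 hg2 using hcode
  set c : V → (Fin t → F) := fun u => g (K.neighborSet u) u with hc
  set Ψ : V → W (r + t) := fun u => Fin.append (Φ u) (fun k => (c u k, 0)) with hΨ
  have hB : ∀ u v, B (Ψ u) (Ψ v) = adj K u v := by
    intro u v
    rw [hΨ]
    simp only
    rw [B_append, ← hΦ]
    have : B (fun k => (c u k, 0) : W t) (fun k => (c v k, 0)) = 0 := by
      unfold B
      simp
    rw [this, add_zero]
  have happ : ∀ u v, Ψ u = Ψ v → Φ u = Φ v ∧ c u = c v := by
    intro u v huv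
    constructor
    · funext k
      have := congrFun huv (Fin.castAdd t k)
      simpa only [hΨ, Fin.append_left] using this
    · funext k
      have := congrFun huv (Fin.natAdd r k)
      simp only [hΨ, Fin.append_right, Prod.mk.injEq, and_true] at this
      exact this
  have hinj : Function.Injective Ψ := by
    intro u v huv
    obtain ⟨e1, e2⟩ := happ u v huv
    have hN : K.neighborSet u = K.neighborSet v := by
      ext w
      rw [SimpleGraph.mem_neighborSet, SimpleGraph.mem_neighborSet, ← adj_one, ← adj_one, hΦ u w,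
        hΦ v w, e1]
    have e3 : g (K.neighborSet v) u = g (K.neighborSet v) v := by
      rw [hc] at e2
      simp only [hN] at e2
      exact e2
    exact hg1 (K.neighborSet v) hN rfl e3
  have h0 : ∀ u, Ψ u ≠ 0 := by
    intro u hu
    by_cases hN : K.neighborSet u = ∅
    · apply hg2 (K.neighborSet u) hN u hN
      funext k
      have := congrFun hu (Fin.natAdd r k)
      simp only [hΨ, Fin.append_right, Pi.zero_apply] at this
      exact congrArg Prod.fst this
    · obtain ⟨w, hw⟩ := Set.nonempty_iff_ne_empty.2 hN
      have h1 : adj K u w = 1 := adj_one.2 hw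
      rw [← hB, hu] at h1
      simp [B] at h1
  refine ⟨⟨⟨fun u => ⟨Ψ u, h0 u⟩, ?_⟩, ?_⟩⟩
  · intro u v huv
    exact hinj (congrArg Subtype.val huv)
  · intro u v
    change B (Ψ u) (Ψ v) = 1 ↔ K.Adj u v
    rw [hB, adj_one]

/-- the form as a map to the dual space -/
def BL (d : ℕ) : W d →ₗ[F] Dual F (W d) where
  toFun := Bl
  map_add' := fun x y => LinearMap.ext fun z => by simp [B_add_left]
  map_smul' := fun a x => LinearMap.ext fun z => by simp [B_smul_left]

lemma BL_surjective (d : ℕ) : Function.Surjective (BL d) := by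
  have hinj : Function.Injective (BL d) := fun x y h => Bl_injective h
  exact (LinearMap.injective_iff_surjective_of_finrank_eq_finrank
    (Subspace.dual_finrank_eq (K := F) (V := W d)).symm).1 hinj

lemma finrank_W (d : ℕ) : finrank F (W d) = 2 * d := by
  rw [Module.finrank_pi_fintype]
  simp [mul_comm]

theorem fits_of_embed {K : SimpleGraph V} {d : ℕ} (φ : K ↪g Sp d) : Fits K d := by
  classical
  set w : V → W d := fun v => (φ v).1 with hw
  set M := Fintype.linearCombination F w with hM
  set U := LinearMap.range M with hU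
  set T : W d →ₗ[F] Dual F U := U.dualRestrict ∘ₗ BL d with hT
  have hTs : Function.Surjective T := by
    rw [hT, LinearMap.coe_comp]
    exact Subspace.dualRestrict_surjective.comp (BL_surjective d)
  have hTa : ∀ (x : W d) (y : U), T x y = B x y.1 := fun x y => rfl
  set Q : U →ₗ[F] Dual F U := T ∘ₗ U.subtype with hQ
  set R := LinearMap.ker Q with hR
  have hwU : ∀ v, w v ∈ U := by
    intro v
    refine ⟨Pi.single v 1, ?_⟩
    rw [hM, Fintype.linearCombination_apply_single, one_smul]
  have hadj : ∀ u v, B (w u) (w v) = adj K u v := by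
    intro u v
    have hmap : B (w u) (w v) = 1 ↔ K.Adj u v := φ.map_adj_iff
    by_cases h : K.Adj u v
    · rw [hmap.2 h, adj_one.2 h]
    · rcases F_cases (B (w u) (w v)) with h0 | h0
      · rw [h0, adj_zero.2 h]
      · exact absurd (hmap.1 h0) h
  have hinj : Function.Injective w := fun u v h => φ.injective (Subtype.ext h)
  -- being orthogonal to `U`
  have horth : ∀ x : W d, (∀ v, B x (w v) = 0) → ∀ y : U, B x y.1 = 0 := by
    rintro x hx ⟨y, z, rfl⟩
    change B x (M z) = 0
    rw [hM, Fintype.linearCombination_apply]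
    rw [← Bl_apply, map_sum]
    apply Finset.sum_eq_zero
    intro v _
    rw [map_smul, Bl_apply, hx v, smul_zero]
  -- the kernel of the adjacency matrix
  set M' := M.rangeRestrict with hM'
  have hM's : Function.Surjective M' := LinearMap.surjective_rangeRestrict M
  have hMx : ∀ x u, B (M x) (w u) = (adj K *ᵥ x) u := by
    intro x u
    rw [hM, Fintype.linearCombination_apply, B_comm, ← Bl_apply, map_sum]
    simp only [Matrix.mulVec, dotProduct]
    refine sum_congr rfl fun v _ => ?_
    rw [map_smul, Bl_apply, hadj, smul_eq_mul, mul_comm]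
  have hker : LinearMap.ker (adj K).mulVecLin = LinearMap.ker (Q ∘ₗ M') := by
    ext x
    rw [LinearMap.mem_ker, LinearMap.mem_ker, Matrix.mulVecLin_apply]
    constructor
    · intro h
      apply LinearMap.ext
      intro y
      change B (M x) y.1 = 0
      apply horth
      intro v
      rw [hMx, h]
      rfl
    · intro h
      funext u
      rw [← hMx]
      have := congrArg (fun f => f ⟨w u, hwU u⟩) h
      exact this
  have hrank : (adj K).rank + finrank F R = finrank F U := by
    have e1 := LinearMap.finrank_range_add_finrank_ker (adj K).mulVecLin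
    have e2 := LinearMap.finrank_range_add_finrank_ker (Q ∘ₗ M')
    have e3 := LinearMap.finrank_range_add_finrank_ker Q
    have e4 : LinearMap.range (Q ∘ₗ M') = LinearMap.range Q := by
      rw [LinearMap.range_comp, LinearMap.range_eq_top.2 hM's, Submodule.map_top]
    rw [e4, ← hker] at e2
    rw [← hR] at e3
    unfold Matrix.rank
    omega
  have hdim : finrank F U + finrank F R ≤ 2 * d := by
    have e1 := LinearMap.finrank_range_add_finrank_ker T
    rw [LinearMap.range_eq_top.2 hTs, finrank_top, Subspace.dual_finrank_eq, finrank_W] at e1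
    have e2 : finrank F R ≤ finrank F (LinearMap.ker T) := by
      have hle : R.map U.subtype ≤ LinearMap.ker T := by
        rintro _ ⟨x, hx, rfl⟩
        exact hx
      have e3 := Submodule.finrank_mono hle
      rwa [← LinearEquiv.finrank_eq
        (Submodule.equivMapOfInjective U.subtype U.injective_subtype R)] at e3
    omega
  have hcard : Nat.card R = 2 ^ finrank F R := by
    rw [Nat.card_eq_fintype_card, Module.card_eq_pow_finrank (K := F), ZMod.card]
  refine ⟨finrank F R, by omega, ?_, ?_⟩
  · intro v
    rw [← hcard, ← Nat.card_coe_set_eq]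
    have hmem : ∀ u, K.neighborSet u = K.neighborSet v →
        (⟨w u - w v, U.sub_mem (hwU u) (hwU v)⟩ : U) ∈ R := by
      intro u hu
      rw [hR, LinearMap.mem_ker]
      apply LinearMap.ext
      intro y
      change B (w u - w v) y.1 = 0
      apply horth
      intro z
      have e1 : B (w u - w v) (w z) = B (w u) (w z) + B (w v) (w z) := by
        rw [← B_add_left]
        congr 1
        rw [sub_eq_iff_eq_add, add_assoc, W_add_self, add_zero]
      rw [e1, hadj, hadj]
      have e2 : adj K u z = adj K v z := by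
        by_cases h : K.Adj u z
        · have h' : z ∈ K.neighborSet v := by rw [← hu]; exact h
          rw [adj_one.2 h, adj_one.2 h']
        · have h' : ¬ K.Adj v z := by
            intro h2
            apply h
            have : z ∈ K.neighborSet u := by rw [hu]; exact h2
            exact this
          rw [adj_zero.2 h, adj_zero.2 h']
      rw [e2, F_add_self]
    apply Nat.card_le_card_of_injective
      (fun u : {u | K.neighborSet u = K.neighborSet v} =>
        (⟨⟨w u.1 - w v, U.sub_mem (hwU u.1) (hwU v)⟩, hmem u.1 u.2⟩ : R))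
    intro a b hab
    have h1 := congrArg (fun z : R => z.1.1) hab
    simp only [sub_left_inj] at h1
    exact Subtype.ext (hinj h1)
  · rw [← hcard, ← Nat.card_coe_set_eq]
    have hmem : ∀ u, K.neighborSet u = ∅ → (⟨w u, hwU u⟩ : U) ∈ R := by
      intro u hu
      rw [hR, LinearMap.mem_ker]
      apply LinearMap.ext
      intro y
      change B (w u) y.1 = 0
      apply horth
      intro z
      rw [hadj, adj_zero]
      intro h
      have : z ∈ K.neighborSet u := h
      rw [hu] at this
      exact this
    have h1 : Nat.card (Option {u | K.neighborSet u = ∅}) ≤ Nat.card R := by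
      apply Nat.card_le_card_of_injective
        (fun o : Option {u | K.neighborSet u = ∅} =>
          o.elim (0 : R) (fun u => ⟨⟨w u.1, hwU u.1⟩, hmem u.1 u.2⟩))
      intro a b hab
      have h0 : ∀ u : {u | K.neighborSet u = ∅},
          (⟨⟨w u.1, hwU u.1⟩, hmem u.1 u.2⟩ : R) ≠ 0 := by
        intro u hu
        have := congrArg (fun z : R => z.1.1) hu
        exact (φ u.1).2 this
      rcases a with _ | a <;> rcases b with _ | b
      · rfl
      · exact absurd hab.symm (h0 b)
      · exact absurd hab (h0 a)
      · have h1 := congrArg (fun z : R => z.1.1) hab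
        exact congrArg some (Subtype.ext (hinj h1))
    rw [Nat.card_eq_fintype_card, Fintype.card_option, ← Nat.card_eq_fintype_card] at h1
    exact h1

theorem fits_iff {K : SimpleGraph V} {d : ℕ} : Nonempty (K ↪g Sp d) ↔ Fits K d :=
  ⟨fun ⟨φ⟩ => fits_of_embed φ, embed_of_fits⟩

/-- **Characterisation of the symplectic hosts.** -/
theorem sat_iff_fits {H : SimpleGraph V} {d : ℕ} (hd : 2 ≤ d) :
    Sat H (Sp d) ↔ ¬ Fits H d ∧
      (∃ u v, H.Adj u v ∧ Fits (H.deleteEdges {s(u, v)}) d) ∧
      (∃ u v, u ≠ v ∧ ¬ H.Adj u v ∧ Fits (H ⊔ SimpleGraph.edge u v) d) := by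
  rw [sat_iff hd]
  simp only [fits_iff]
  rw [← not_nonempty_iff, fits_iff]

end Pool.Agent.IndSat
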