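import Pool.Agent.IndSat.Char
import Pool.Agent.IndSat.Final

/-!
Hosts: the intersection graphs of all r-subsets of a finite set (complements of Kneser graphs).
-/

set_option autoImplicit false

namespace Pool.Agent.IndSat

open Finset

/-- the intersection graph of the r-subsets of an n-set -/
def Kn (n r : ℕ) : SimpleGraph {A : Finset (Fin n) // A.card = r} where
  Adj A B := A ≠ B ∧ ∃ i, i ∈ A.1 ∧ i ∈ B.1
  symm := ⟨fun A B h => ⟨h.1.symm, by
    obtain ⟨i, h1, h2⟩ := h.2
    exact ⟨i, h2, h1⟩⟩⟩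
  loopless := ⟨fun A h => h.1 rfl⟩

/-- two functions with fibres of the same size differ by a permutation -/
lemma exists_perm_comp {α γ : Type} [Fintype α] [DecidableEq γ] (f g : α → γ)
    (h : ∀ c, Fintype.card {a // f a = c} = Fintype.card {a // g a = c}) :
    ∃ σ : Equiv.Perm α, ∀ a, g (σ a) = f a := by
  have e : ∀ c, Nonempty ({a // f a = c} ≃ {a // g a = c}) := fun c => ⟨Fintype.equivOfCardEq (h c)⟩
  have e' : ∀ c, {a // f a = c} ≃ {a // g a = c} := fun c => Classical.choice (e c)
  exact ⟨(Equiv.sigmaFiberEquiv f).symm.trans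
    ((Equiv.sigmaCongrRight e').trans (Equiv.sigmaFiberEquiv g)), fun a => (e' (f a) ⟨a, rfl⟩).2⟩

lemma card_fib {n : ℕ} (P : Fin n → Prop) [DecidablePred P] :
    Fintype.card {a // P a} = (univ.filter P).card := Fintype.card_subtype P

/-- permutations act transitively on pairs of sets with given sizes -/
lemma exists_perm_pair {n : ℕ} {A B A' B' : Finset (Fin n)} (hA : A.card = A'.card)
    (hB : B.card = B'.card) (hAB : (A ∩ B).card = (A' ∩ B').card) :
    ∃ σ : Equiv.Perm (Fin n), (∀ a, σ a ∈ A' ↔ a ∈ A) ∧ ∀ a, σ a ∈ B' ↔ a ∈ B := by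
  have key : ∀ (A B : Finset (Fin n)) (x y : Bool),
      Fintype.card {a : Fin n // (decide (a ∈ A), decide (a ∈ B)) = (x, y)} =
        match x, y with
        | true, true => (A ∩ B).card
        | true, false => A.card - (A ∩ B).card
        | false, true => B.card - (A ∩ B).card
        | false, false => n - (A.card + B.card - (A ∩ B).card) := by
    intro A B x y
    rw [card_fib]
    cases x <;> cases y
    · have : (univ.filter fun a : Fin n => (decide (a ∈ A), decide (a ∈ B)) = (false, false)) =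
          (A ∪ B)ᶜ := by
        ext a
        simp
      rw [this, Finset.card_compl, Fintype.card_fin, Finset.card_union]
    · have : (univ.filter fun a : Fin n => (decide (a ∈ A), decide (a ∈ B)) = (false, true)) =
          B \ A := by
        ext a
        simp [and_comm]
      rw [this, Finset.card_sdiff]
    · have : (univ.filter fun a : Fin n => (decide (a ∈ A), decide (a ∈ B)) = (true, false)) =
          A \ B := by
        ext a
        simp
      rw [this, Finset.card_sdiff, Finset.inter_comm]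
    · have : (univ.filter fun a : Fin n => (decide (a ∈ A), decide (a ∈ B)) = (true, true)) =
          A ∩ B := by
        ext a
        simp
      rw [this]
  obtain ⟨σ, hσ⟩ := exists_perm_comp (fun a : Fin n => (decide (a ∈ A), decide (a ∈ B)))
    (fun a : Fin n => (decide (a ∈ A'), decide (a ∈ B'))) (by
      rintro ⟨x, y⟩
      rw [key, key]
      cases x <;> cases y <;> simp only [hA, hB, hAB])
  refine ⟨σ, fun a => ?_, fun a => ?_⟩
  · have := congrArg Prod.fst (hσ a)
    simpa using this
  · have := congrArg Prod.snd (hσ a)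
    simpa using this

/-- permutations act on copies in the intersection graph -/
lemma move_copy_kn {V : Type*} {K : SimpleGraph V} {n r : ℕ} (φ : K ↪g Kn n r) {u v : V}
    {x y : {A : Finset (Fin n) // A.card = r}}
    (h : ((φ u).1 ∩ (φ v).1).card = (x.1 ∩ y.1).card) :
    ∃ ψ : K ↪g Kn n r, ψ u = x ∧ ψ v = y := by
  obtain ⟨σ, h1, h2⟩ := exists_perm_pair ((φ u).2.trans x.2.symm) ((φ v).2.trans y.2.symm) h
  have hm : ∀ (A : Finset (Fin n)) (a : Fin n), a ∈ A.map σ.toEmbedding ↔ σ.symm a ∈ A := by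
    intro A a
    rw [Finset.mem_map_equiv]
  refine ⟨⟨⟨fun w => ⟨(φ w).1.map σ.toEmbedding, by rw [Finset.card_map]; exact (φ w).2⟩, ?_⟩,
    ?_⟩, ?_, ?_⟩
  · intro a b hab
    apply φ.injective
    apply Subtype.ext
    exact Finset.map_injective σ.toEmbedding (congrArg Subtype.val hab)
  · intro a b
    rw [← φ.map_adj_iff]
    change ((_ : {A : Finset (Fin n) // A.card = r}) ≠ _ ∧ ∃ i, i ∈ (φ a).1.map σ.toEmbedding ∧
      i ∈ (φ b).1.map σ.toEmbedding) ↔ (φ a ≠ φ b ∧ ∃ i, i ∈ (φ a).1 ∧ i ∈ (φ b).1)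
    constructor
    · rintro ⟨g1, i, g2, g3⟩
      refine ⟨fun g4 => g1 ?_, σ.symm i, (hm _ _).1 g2, (hm _ _).1 g3⟩
      have g5 : a = b := φ.injective g4
      rw [g5]
    · rintro ⟨g1, i, g2, g3⟩
      refine ⟨fun g4 => g1 ?_, σ i, ?_, ?_⟩
      · apply Subtype.ext
        exact Finset.map_injective σ.toEmbedding (congrArg Subtype.val g4)
      · rw [hm, Equiv.symm_apply_apply]; exact g2
      · rw [hm, Equiv.symm_apply_apply]; exact g3
  · apply Subtype.ext
    ext a
    change a ∈ (φ u).1.map σ.toEmbedding ↔ a ∈ x.1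
    rw [hm, ← h1, Equiv.apply_symm_apply]
  · apply Subtype.ext
    ext a
    change a ∈ (φ v).1.map σ.toEmbedding ↔ a ∈ y.1
    rw [hm, ← h2, Equiv.apply_symm_apply]

/-- saturation from one flipped copy for every size of the intersection -/
theorem sat_kn {V : Type*} {H : SimpleGraph V} {n r : ℕ} (h0 : IsEmpty (H ↪g Kn n r))
    (h1 : ∀ j < r, ∃ (K : SimpleGraph V) (u v : V), DiffAt H K s(u, v) ∧
      ∃ φ : K ↪g Kn n r, ((φ u).1 ∩ (φ v).1).card = j) : Sat H (Kn n r) := by
  refine ⟨h0, ?_⟩
  rintro G' ⟨e, hG'⟩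
  induction e using Sym2.ind with
  | _ x y =>
  have hD : DiffAt (Kn n r) G' s(x, y) := hG'
  have hj : (x.1 ∩ y.1).card < r := by
    have hle : (x.1 ∩ y.1).card ≤ x.1.card := Finset.card_le_card Finset.inter_subset_left
    rcases lt_or_eq_of_le hle with h | h
    · rw [x.2] at h
      exact h
    · exfalso
      have h2 : x.1 ∩ y.1 = x.1 := Finset.eq_of_subset_of_card_le Finset.inter_subset_left h.ge
      have h3 : x.1 ⊆ y.1 := Finset.inter_eq_left.1 h2
      have h4 : x.1 = y.1 := Finset.eq_of_subset_of_card_le h3 (by rw [x.2, y.2])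
      exact hD.ne (Subtype.ext h4)
  obtain ⟨K, u, v, hK, φ, hφ⟩ := h1 _ hj
  obtain ⟨ψ, hψu, hψv⟩ := move_copy_kn φ hφ
  exact flip_embed hK hD ψ hψu hψv

end Pool.Agent.IndSat
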