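import Pool.Agent.IndSat.KnRep

/-!
Vertices with many pendant neighbours: the criterion of KnRep applies.
-/

set_option autoImplicit false

namespace Pool.Agent.IndSat

open Finset

lemma rep_of_labels {V Λ : Type*} [Countable Λ] {H : SimpleGraph V} {r : ℕ} (A : V → Finset Λ)
    (hinj : Function.Injective A) (hcard : ∀ x, (A x).card = r)
    (hadj : ∀ x y, x ≠ y → (H.Adj x y ↔ ∃ i, i ∈ A x ∧ i ∈ A y)) : Rep H r := by
  obtain ⟨f, hf⟩ := exists_injective_nat Λ
  refine ⟨fun x => (A x).map ⟨f, hf⟩, ?_, ?_, ?_⟩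
  · intro x y h
    exact hinj (Finset.map_injective _ h)
  · intro x
    rw [Finset.card_map]
    exact hcard x
  · intro x y hxy
    rw [hadj x y hxy]
    constructor
    · rintro ⟨i, h1, h2⟩
      exact ⟨f i, Finset.mem_map_of_mem _ h1, Finset.mem_map_of_mem _ h2⟩
    · rintro ⟨i, h1, h2⟩
      rw [Finset.mem_map] at h1 h2
      obtain ⟨a, ha, rfl⟩ := h1
      obtain ⟨b, hb, hab⟩ := h2
      have : b = a := hf hab
      subst this
      exact ⟨b, ha, hb⟩

/-- the neighbours -/
noncomputable def nb {V : Type*} [Fintype V] (H : SimpleGraph V) (x : V) : Finset V := by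
  classical exact univ.filter (H.Adj x)

lemma mem_nb {V : Type*} [Fintype V] {H : SimpleGraph V} {x y : V} : y ∈ nb H x ↔ H.Adj x y := by
  classical
  unfold nb
  simp

/-- a vertex with many pendant neighbours -/
theorem rep_pendant {V : Type*} [Fintype V] {H : SimpleGraph V} {c : V} {L : Finset V}
    (hL : ∀ l, l ∈ L ↔ ∀ y, H.Adj l y ↔ y = c) (h2 : 2 ≤ L.card) (h3 : 3 ≤ (nb H c).card)
    (hx : ∀ x, x ≠ c → (nb H x).card ≤ L.card ∧ (nb H x).card < (nb H c).card) {v : V} (hv : v ∈ L) :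
    ∃ r, Rep (H.induce {x | x ≠ v}) r ∧ ¬ Rep H r := by
  classical
  have hcL : c ∉ L := fun h => ((hL c).1 h c).2 rfl |>.ne rfl
  have hLc : ∀ l ∈ L, H.Adj c l := fun l hl => (((hL l).1 hl c).2 rfl).symm
  obtain ⟨W, hW⟩ : ∃ W, W = nb H c \ L := ⟨_, rfl⟩
  have hWm : ∀ w, w ∈ W ↔ H.Adj c w ∧ w ∉ L := by
    intro w
    rw [hW, Finset.mem_sdiff, mem_nb]
  have hcW : c ∉ W := fun h => ((hWm c).1 h).1.ne rfl
  have hcard : (nb H c).card = L.card + W.card := by
    have e : nb H c = L ∪ W := by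
      ext w
      rw [Finset.mem_union, hWm, mem_nb]
      constructor
      · intro h
        by_cases hl : w ∈ L
        · exact Or.inl hl
        · exact Or.inr ⟨h, hl⟩
      · rintro (h | h)
        · exact hLc w h
        · exact h.1
    rw [e, Finset.card_union_of_disjoint]
    rw [Finset.disjoint_left]
    intro w h1 h4
    exact ((hWm w).1 h4).2 h1
  -- a clique cover of W with the smallest number of cliques
  have hex : ∃ k : ℕ, ∃ q : V → ℕ, (∀ x ∈ W, ∀ y ∈ W, x ≠ y → q x = q y → H.Adj x y) ∧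
      (W.image q).card = k := by
    obtain ⟨f, hf⟩ := exists_injective_nat V
    exact ⟨_, f, fun x _ y _ hxy h => absurd (hf h) hxy, rfl⟩
  obtain ⟨q, hq, hθ⟩ := Nat.find_spec hex
  have hmin : ∀ g : V → ℕ, (∀ x ∈ W, ∀ y ∈ W, x ≠ y → g x = g y → H.Adj x y) →
      Nat.find hex ≤ (W.image g).card := fun g hg => Nat.find_min' hex ⟨g, hg, rfl⟩
  obtain ⟨θ, hθd⟩ : ∃ θ, θ = Nat.find hex := ⟨_, rfl⟩
  rw [← hθd] at hθ hmin
  have hθ0 : W.Nonempty → 1 ≤ θ := by
    intro h
    rw [← hθ]
    exact Finset.card_pos.2 (h.image q)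
  have hWe : θ = 0 → W = ∅ := by
    intro h
    by_contra hne
    have := hθ0 (Finset.nonempty_iff_ne_empty.2 hne)
    omega
  refine ⟨L.card - 1 + θ, ?_, ?_⟩
  · -- the representation without v
    obtain ⟨r, hr⟩ : ∃ r, r = L.card - 1 + θ := ⟨_, rfl⟩
    rw [← hr]
    have hr2 : 2 ≤ r := by
      rcases Nat.eq_zero_or_pos θ with h | h
      · have h4 := hWe h
        rw [hcard, h4, Finset.card_empty] at h3
        omega
      · omega
    obtain ⟨P, hP⟩ : ∃ P : V → V → Prop, ∀ x y, P x y ↔ (H.Adj x y ∧ ¬ (x = c ∧ y ∈ W) ∧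
        ¬ (y = c ∧ x ∈ W) ∧ ¬ (x ∈ W ∧ y ∈ W ∧ q x = q y)) := ⟨_, fun x y => Iff.rfl⟩
    obtain ⟨b1, hb1⟩ : ∃ b1 : V → Finset (ℕ ⊕ (Sym2 V ⊕ (V × ℕ))), ∀ x, b1 x =
        (if x = c then (W.image q).image Sum.inl else if x ∈ W then {Sum.inl (q x)} else ∅) :=
      ⟨_, fun x => rfl⟩
    obtain ⟨b2, hb2⟩ : ∃ b2 : V → Finset (ℕ ⊕ (Sym2 V ⊕ (V × ℕ))), ∀ x, b2 x =
        (univ.filter (fun y => y ≠ v ∧ P x y)).image (fun y => Sum.inr (Sum.inl s(x, y))) :=
      ⟨_, fun x => rfl⟩
    obtain ⟨b3, hb3⟩ : ∃ b3 : V → Finset (ℕ ⊕ (Sym2 V ⊕ (V × ℕ))), ∀ x, b3 x =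
        (range (r - (b1 x ∪ b2 x).card)).image (fun k => Sum.inr (Sum.inr (x, k))) :=
      ⟨_, fun x => rfl⟩
    obtain ⟨A, hA⟩ : ∃ A : V → Finset (ℕ ⊕ (Sym2 V ⊕ (V × ℕ))), ∀ x, A x = b1 x ∪ b2 x ∪ b3 x :=
      ⟨_, fun x => rfl⟩
    have m1 : ∀ x i, i ∈ b1 x → ∃ a, i = Sum.inl a := by
      intro x i hi
      rw [hb1] at hi
      by_cases h : x = c
      · rw [if_pos h, Finset.mem_image] at hi
        obtain ⟨a, _, rfl⟩ := hi
        exact ⟨a, rfl⟩
      · rw [if_neg h] at hi
        by_cases h' : x ∈ W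
        · rw [if_pos h', Finset.mem_singleton] at hi
          exact ⟨_, hi⟩
        · rw [if_neg h'] at hi
          exact absurd hi (Finset.notMem_empty _)
    have m2 : ∀ x i, i ∈ b2 x → ∃ a, i = Sum.inr (Sum.inl a) := by
      intro x i hi
      rw [hb2, Finset.mem_image] at hi
      obtain ⟨a, _, rfl⟩ := hi
      exact ⟨_, rfl⟩
    have m3 : ∀ x i, i ∈ b3 x → ∃ a, i = Sum.inr (Sum.inr a) ∧ a.1 = x := by
      intro x i hi
      rw [hb3, Finset.mem_image] at hi
      obtain ⟨a, _, rfl⟩ := hi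
      exact ⟨_, rfl, rfl⟩
    have mA1 : ∀ x a, (Sum.inl a : ℕ ⊕ (Sym2 V ⊕ (V × ℕ))) ∈ A x ↔
        (x = c ∧ ∃ w ∈ W, q w = a) ∨ (x ∈ W ∧ q x = a) := by
      intro x a
      rw [hA, Finset.mem_union, Finset.mem_union]
      constructor
      · rintro ((h | h) | h)
        · rw [hb1] at h
          by_cases hc : x = c
          · rw [if_pos hc, Finset.mem_image] at h
            obtain ⟨b, hb, hba⟩ := h
            rw [Finset.mem_image] at hb
            obtain ⟨w, hw, hwb⟩ := hb
            exact Or.inl ⟨hc, w, hw, hwb.trans (Sum.inl_injective hba)⟩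
          · rw [if_neg hc] at h
            by_cases hw : x ∈ W
            · rw [if_pos hw, Finset.mem_singleton] at h
              exact Or.inr ⟨hw, (Sum.inl_injective h).symm⟩
            · rw [if_neg hw] at h
              exact absurd h (Finset.notMem_empty _)
        · obtain ⟨b, hb⟩ := m2 x _ h
          exact absurd hb (by simp)
        · obtain ⟨b, hb, _⟩ := m3 x _ h
          exact absurd hb (by simp)
      · rintro (⟨rfl, w, hw, rfl⟩ | ⟨hw, rfl⟩)
        · left; left
          rw [hb1, if_pos rfl]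
          exact Finset.mem_image_of_mem _ (Finset.mem_image_of_mem _ hw)
        · left; left
          have hne : x ≠ c := by
            rintro rfl
            exact hcW hw
          rw [hb1, if_neg hne, if_pos hw]
          exact Finset.mem_singleton_self _
    have mA2 : ∀ x e, (Sum.inr (Sum.inl e) : ℕ ⊕ (Sym2 V ⊕ (V × ℕ))) ∈ A x ↔
        ∃ y, y ≠ v ∧ P x y ∧ e = s(x, y) := by
      intro x e
      rw [hA, Finset.mem_union, Finset.mem_union]
      constructor
      · rintro ((h | h) | h)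
        · obtain ⟨b, hb⟩ := m1 x _ h
          exact absurd hb (by simp)
        · rw [hb2, Finset.mem_image] at h
          obtain ⟨y, hy, hye⟩ := h
          rw [Finset.mem_filter] at hy
          exact ⟨y, hy.2.1, hy.2.2, (Sum.inl_injective (Sum.inr_injective hye)).symm⟩
        · obtain ⟨b, hb, _⟩ := m3 x _ h
          exact absurd hb (by simp)
      · rintro ⟨y, hy, hPy, rfl⟩
        left; right
        rw [hb2]
        exact Finset.mem_image_of_mem _ (Finset.mem_filter.2 ⟨Finset.mem_univ y, hy, hPy⟩)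
    have mA3 : ∀ x a, (Sum.inr (Sum.inr a) : ℕ ⊕ (Sym2 V ⊕ (V × ℕ))) ∈ A x → a.1 = x := by
      intro x a h
      rw [hA, Finset.mem_union, Finset.mem_union] at h
      rcases h with (h | h) | h
      · obtain ⟨b, hb⟩ := m1 x _ h
        exact absurd hb (by simp)
      · obtain ⟨b, hb⟩ := m2 x _ h
        exact absurd hb (by simp)
      · obtain ⟨b, hb, h4⟩ := m3 x _ h
        have : a = b := Sum.inr_injective (Sum.inr_injective hb)
        rw [this]
        exact h4
    have hPs : ∀ x y, P x y → P y x := by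
      intro x y h
      rw [hP] at h ⊢
      exact ⟨h.1.symm, h.2.2.1, h.2.1, fun h4 => h.2.2.2 ⟨h4.2.1, h4.1, h4.2.2.symm⟩⟩
    -- common labels
    have common : ∀ x y, x ≠ y → ∀ i, i ∈ A x → i ∈ A y →
        (∃ a, i = Sum.inl a ∧ ((x = c ∧ y ∈ W ∧ q y = a) ∨ (y = c ∧ x ∈ W ∧ q x = a) ∨
          (x ∈ W ∧ y ∈ W ∧ q x = a ∧ q y = a))) ∨ (i = Sum.inr (Sum.inl s(x, y)) ∧ P x y) := by
      intro x y hxy i h1 h4
      rcases i with a | (e | z)
      · left
        refine ⟨a, rfl, ?_⟩
        rw [mA1] at h1 h4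
        rcases h1 with ⟨h1, _⟩ | ⟨h1, h5⟩
        · rcases h4 with ⟨h4, _⟩ | ⟨h4, h6⟩
          · exact absurd (h1.trans h4.symm) hxy
          · exact Or.inl ⟨h1, h4, h6⟩
        · rcases h4 with ⟨h4, _⟩ | ⟨h4, h6⟩
          · exact Or.inr (Or.inl ⟨h4, h1, h5⟩)
          · exact Or.inr (Or.inr ⟨h1, h4, h5, h6⟩)
      · right
        rw [mA2] at h1 h4
        obtain ⟨y1, _, h5, h6⟩ := h1
        obtain ⟨y2, _, h7, h8⟩ := h4
        have h9 := h6.symm.trans h8
        rw [Sym2.eq_iff] at h9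
        rcases h9 with ⟨h9, _⟩ | ⟨h9, h10⟩
        · exact absurd h9 hxy
        · rw [h10] at h5 h6
          exact ⟨by rw [h6], h5⟩
      · exfalso
        exact hxy ((mA3 x z h1).symm.trans (mA3 y z h4))
    -- sizes
    have hsz : ∀ x, x ≠ v → (b1 x ∪ b2 x).card ≤ r := by
      intro x hxv
      refine (Finset.card_union_le _ _).trans ?_
      have hc2 : (b2 x).card ≤ (univ.filter (fun y => y ≠ v ∧ P x y)).card := by
        rw [hb2]
        exact Finset.card_image_le
      by_cases hxc : x = c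
      · have h4 : (b1 x).card ≤ θ := by
          rw [hb1, if_pos hxc, ← hθ]
          exact Finset.card_image_le
        have h5 : (univ.filter (fun y => y ≠ v ∧ P x y)).card ≤ (L.erase v).card := by
          apply Finset.card_le_card
          intro y hy
          rw [Finset.mem_filter, hP] at hy
          rw [Finset.mem_erase]
          refine ⟨hy.2.1, ?_⟩
          by_contra hyL
          exact hy.2.2.2.1 ⟨hxc, (hWm y).2 ⟨hxc ▸ hy.2.2.1, hyL⟩⟩
        rw [Finset.card_erase_of_mem hv] at h5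
        omega
      · obtain ⟨h4, h5⟩ := hx x hxc
        have h6 : (univ.filter (fun y => y ≠ v ∧ P x y)) ⊆ nb H x := by
          intro y hy
          rw [Finset.mem_filter, hP] at hy
          exact mem_nb.2 hy.2.2.1
        by_cases hxW : x ∈ W
        · have h7 : (b1 x).card = 1 := by
            rw [hb1, if_neg hxc, if_pos hxW, Finset.card_singleton]
          have h8 : (univ.filter (fun y => y ≠ v ∧ P x y)).card ≤ ((nb H x).erase c).card := by
            apply Finset.card_le_card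
            intro y hy
            rw [Finset.mem_erase]
            refine ⟨?_, h6 hy⟩
            rintro rfl
            rw [Finset.mem_filter, hP] at hy
            exact hy.2.2.2.2.1 ⟨rfl, hxW⟩
          have h9 : c ∈ nb H x := mem_nb.2 ((hWm x).1 hxW).1.symm
          rw [Finset.card_erase_of_mem h9] at h8
          have h10 : 1 ≤ (nb H x).card := Finset.card_pos.2 ⟨c, h9⟩
          have h11 := hθ0 ⟨x, hxW⟩
          omega
        · have h7 : (b1 x).card = 0 := by
            rw [hb1, if_neg hxc, if_neg hxW, Finset.card_empty]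
          have h8 := Finset.card_le_card h6
          rcases Nat.eq_zero_or_pos θ with h | h
          · have h12 := hWe h
            rw [hcard, h12, Finset.card_empty] at h5
            omega
          · omega
    have hAc : ∀ x, x ≠ v → (A x).card = r := by
      intro x hxv
      have h4 := hsz x hxv
      have h5 : Disjoint (b1 x ∪ b2 x) (b3 x) := by
        rw [Finset.disjoint_left]
        intro i h6 h7
        obtain ⟨a, ha, _⟩ := m3 x i h7
        rw [Finset.mem_union] at h6
        rcases h6 with h6 | h6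
        · obtain ⟨b, hb⟩ := m1 x i h6
          rw [ha] at hb
          exact absurd hb (by simp)
        · obtain ⟨b, hb⟩ := m2 x i h6
          rw [ha] at hb
          exact absurd hb (by simp)
      rw [hA, Finset.card_union_of_disjoint h5, hb3 x, Finset.card_image_of_injective, Finset.card_range]
      · omega
      · intro a b hab
        exact congrArg Prod.snd (Sum.inr_injective (Sum.inr_injective hab))
    apply rep_of_labels (fun x : ({x | x ≠ v} : Set V) => A x.1)
    · intro x y hxy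
      by_contra hne
      have hne' : x.1 ≠ y.1 := fun h => hne (Subtype.ext h)
      have h4 : 1 < (A x.1).card := by
        rw [hAc x.1 x.2]
        omega
      obtain ⟨a, ha, b, hb, hab⟩ := Finset.one_lt_card.1 h4
      have hxy' : A x.1 = A y.1 := hxy
      have ha' := ha
      have hb' := hb
      rw [hxy'] at ha' hb'
      apply hab
      rcases common x.1 y.1 hne' a ha ha' with ⟨a1, rfl, h5⟩ | ⟨rfl, h5⟩
      · rcases common x.1 y.1 hne' b hb hb' with ⟨a2, rfl, h6⟩ | ⟨rfl, h6⟩
        · congr 1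
          rcases h5 with ⟨h5, h7, h8⟩ | ⟨h5, h7, h8⟩ | ⟨h5, h7, h8, h9⟩
          · rcases h6 with ⟨_, _, h10⟩ | ⟨_, h10, _⟩ | ⟨h10, _, _, _⟩
            · exact h8.symm.trans h10
            · rw [h5] at h10
              exact absurd h10 hcW
            · rw [h5] at h10
              exact absurd h10 hcW
          · rcases h6 with ⟨_, h10, _⟩ | ⟨_, _, h10⟩ | ⟨_, h10, _, _⟩
            · rw [h5] at h10
              exact absurd h10 hcW
            · exact h8.symm.trans h10
            · rw [h5] at h10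
              exact absurd h10 hcW
          · rcases h6 with ⟨h10, _, _⟩ | ⟨h10, _, _⟩ | ⟨_, _, h10, _⟩
            · rw [h10] at h5
              exact absurd h5 hcW
            · rw [h10] at h7
              exact absurd h7 hcW
            · exact h8.symm.trans h10
        · exfalso
          rw [hP] at h6
          rcases h5 with ⟨h5, h7, _⟩ | ⟨h5, h7, _⟩ | ⟨h5, h7, h8, h9⟩
          · exact h6.2.1 ⟨h5, h7⟩
          · exact h6.2.2.1 ⟨h5, h7⟩
          · exact h6.2.2.2 ⟨h5, h7, h8.trans h9.symm⟩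
      · rcases common x.1 y.1 hne' b hb hb' with ⟨a2, rfl, h6⟩ | ⟨rfl, _⟩
        · exfalso
          rw [hP] at h5
          rcases h6 with ⟨h6, h7, _⟩ | ⟨h6, h7, _⟩ | ⟨h6, h7, h8, h9⟩
          · exact h5.2.1 ⟨h6, h7⟩
          · exact h5.2.2.1 ⟨h6, h7⟩
          · exact h5.2.2.2 ⟨h6, h7, h8.trans h9.symm⟩
        · rfl
    · intro x
      exact hAc x.1 x.2
    · intro x y hxy
      have hne' : x.1 ≠ y.1 := fun h => hxy (Subtype.ext h)
      change H.Adj x.1 y.1 ↔ _
      constructor
      · intro h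
        by_cases c1 : x.1 = c ∧ y.1 ∈ W
        · exact ⟨Sum.inl (q y.1), (mA1 _ _).2 (Or.inl ⟨c1.1, y.1, c1.2, rfl⟩),
            (mA1 _ _).2 (Or.inr ⟨c1.2, rfl⟩)⟩
        · by_cases c2 : y.1 = c ∧ x.1 ∈ W
          · exact ⟨Sum.inl (q x.1), (mA1 _ _).2 (Or.inr ⟨c2.2, rfl⟩),
              (mA1 _ _).2 (Or.inl ⟨c2.1, x.1, c2.2, rfl⟩)⟩
          · by_cases c3 : x.1 ∈ W ∧ y.1 ∈ W ∧ q x.1 = q y.1
            · exact ⟨Sum.inl (q x.1), (mA1 _ _).2 (Or.inr ⟨c3.1, rfl⟩),
                (mA1 _ _).2 (Or.inr ⟨c3.2.1, c3.2.2.symm⟩)⟩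
            · have hPxy : P x.1 y.1 := (hP _ _).2 ⟨h, c1, c2, c3⟩
              exact ⟨Sum.inr (Sum.inl s(x.1, y.1)), (mA2 _ _).2 ⟨y.1, y.2, hPxy, rfl⟩,
                (mA2 _ _).2 ⟨x.1, x.2, hPs _ _ hPxy, Sym2.eq_swap⟩⟩
      · rintro ⟨i, h4, h5⟩
        rcases common x.1 y.1 hne' i h4 h5 with ⟨a, _, h6⟩ | ⟨_, h6⟩
        · rcases h6 with ⟨h6, h7, _⟩ | ⟨h6, h7, _⟩ | ⟨h6, h7, h8, h9⟩
          · rw [h6]
            exact ((hWm _).1 h7).1
          · rw [h6]
            exact ((hWm _).1 h7).1.symm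
          · exact hq _ h6 _ h7 hne' (h8.trans h9.symm)
        · exact ((hP _ _).1 h6).1
  · -- no representation of H
    rintro ⟨A, hinj, hAc, hadj⟩
    have hg : ∀ x, ∃ i, H.Adj c x → i ∈ A c ∧ i ∈ A x := by
      intro x
      by_cases h : H.Adj c x
      · obtain ⟨i, h4, h5⟩ := (hadj c x h.ne).1 h
        exact ⟨i, fun _ => ⟨h4, h5⟩⟩
      · exact ⟨0, fun h4 => absurd h4 h⟩
    choose g hg using hg
    have hLL : ∀ l ∈ L, ∀ y, H.Adj c y → l ≠ y → g l ≠ g y := by
      intro l hl y hy hne h4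
      have h5 : H.Adj l y := (hadj l y hne).2 ⟨g l, (hg l (hLc l hl)).2, h4 ▸ (hg y hy).2⟩
      have h6 := ((hL l).1 hl y).1 h5
      rw [h6] at hy
      exact hy.ne rfl
    have h4 : (L.image g).card = L.card := by
      rw [Finset.card_image_iff]
      intro l hl l' hl' h
      by_contra hne
      exact hLL l hl l' (hLc l' hl') hne h
    have h5 : θ ≤ (W.image g).card := by
      apply hmin
      intro x hxW y hyW hxy h
      exact (hadj x y hxy).2 ⟨g x, (hg x ((hWm x).1 hxW).1).2, h ▸ (hg y ((hWm y).1 hyW).1).2⟩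
    have h6 : Disjoint (L.image g) (W.image g) := by
      rw [Finset.disjoint_left]
      intro i h7 h8
      rw [Finset.mem_image] at h7 h8
      obtain ⟨l, hl, rfl⟩ := h7
      obtain ⟨w, hw, hlw⟩ := h8
      have hw' := (hWm w).1 hw
      exact hLL l hl w hw'.1 (fun h => hw'.2 (h ▸ hl)) hlw.symm
    have h7 : (L.image g ∪ W.image g).card ≤ (A c).card := by
      apply Finset.card_le_card
      intro i hi
      rw [Finset.mem_union, Finset.mem_image, Finset.mem_image] at hi
      rcases hi with ⟨l, hl, rfl⟩ | ⟨w, hw, rfl⟩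
      · exact (hg l (hLc l hl)).1
      · exact (hg w ((hWm w).1 hw).1).1
    rw [Finset.card_union_of_disjoint h6, hAc c] at h7
    omega

end Pool.Agent.IndSat
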