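import Pool.Agent.IndSat.Kn

/-!
Graphs with two pendant vertices at one vertex and intersection graphs of r-sets.
-/

set_option autoImplicit false

namespace Pool.Agent.IndSat

open Finset

/-- `H` is the intersection graph of a family of distinct sets with `r` elements -/
def Rep {V : Type*} (H : SimpleGraph V) (r : ℕ) : Prop :=
  ∃ A : V → Finset ℕ, Function.Injective A ∧ (∀ x, (A x).card = r) ∧
    ∀ x y, x ≠ y → (H.Adj x y ↔ ∃ i, i ∈ A x ∧ i ∈ A y)

lemma embed_of_rep {V : Type*} {H : SimpleGraph V} {r n : ℕ} {A : V → Finset ℕ}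
    (hinj : Function.Injective A) (hcard : ∀ x, (A x).card = r)
    (hadj : ∀ x y, x ≠ y → (H.Adj x y ↔ ∃ i, i ∈ A x ∧ i ∈ A y)) (hn : ∀ x, ∀ i ∈ A x, i < n) :
    ∃ φ : H ↪g Kn n r, ∀ u v, ((φ u).1 ∩ (φ v).1).card = (A u ∩ A v).card := by
  have hmem : ∀ (x : V) (i : Fin n), i ∈ (A x).attachFin (hn x) ↔ (i : ℕ) ∈ A x :=
    fun x i => Finset.mem_attachFin _
  refine ⟨⟨⟨fun x => ⟨(A x).attachFin (hn x), by rw [Finset.card_attachFin, hcard]⟩, ?_⟩, ?_⟩, ?_⟩
  · intro x y h
    apply hinj
    ext i
    have h2 : (A x).attachFin (hn x) = (A y).attachFin (hn y) := congrArg Subtype.val h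
    constructor
    · intro hi
      have h3 := (hmem x ⟨i, hn x i hi⟩).2 hi
      rw [h2] at h3
      exact (hmem y _).1 h3
    · intro hi
      have h3 := (hmem y ⟨i, hn y i hi⟩).2 hi
      rw [← h2] at h3
      exact (hmem x _).1 h3
  · intro x y
    change ((_ : {A : Finset (Fin n) // A.card = r}) ≠ _ ∧ ∃ i, i ∈ (A x).attachFin (hn x) ∧
      i ∈ (A y).attachFin (hn y)) ↔ H.Adj x y
    constructor
    · rintro ⟨g1, i, g2, g3⟩
      have hne : x ≠ y := by
        rintro rfl
        exact g1 rfl
      exact (hadj x y hne).2 ⟨i, (hmem x i).1 g2, (hmem y i).1 g3⟩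
    · intro h
      obtain ⟨i, g2, g3⟩ := (hadj x y h.ne).1 h
      refine ⟨?_, ⟨i, hn x i g2⟩, (hmem x _).2 g2, (hmem y _).2 g3⟩
      intro h4
      apply h.ne
      apply hinj
      have h2 : (A x).attachFin (hn x) = (A y).attachFin (hn y) := congrArg Subtype.val h4
      ext k
      constructor
      · intro hi
        have h3 := (hmem x ⟨k, hn x k hi⟩).2 hi
        rw [h2] at h3
        exact (hmem y _).1 h3
      · intro hi
        have h3 := (hmem y ⟨k, hn y k hi⟩).2 hi
        rw [← h2] at h3
        exact (hmem x _).1 h3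
  · intro u v
    change ((A u).attachFin (hn u) ∩ (A v).attachFin (hn v)).card = (A u ∩ A v).card
    have e : (A u ∩ A v) = ((A u).attachFin (hn u) ∩ (A v).attachFin (hn v)).map Fin.valEmbedding := by
      ext k
      rw [Finset.mem_map, Finset.mem_inter]
      constructor
      · rintro ⟨h1, h2⟩
        exact ⟨⟨k, hn u k h1⟩, Finset.mem_inter.2 ⟨(hmem u _).2 h1, (hmem v _).2 h2⟩, rfl⟩
      · rintro ⟨i, hi, rfl⟩
        rw [Finset.mem_inter, hmem, hmem] at hi
        exact hi
    rw [e, Finset.card_map]

lemma rep_of_embed {V : Type*} {H : SimpleGraph V} {r n : ℕ} (φ : H ↪g Kn n r) : Rep H r := by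
  refine ⟨fun x => (φ x).1.map Fin.valEmbedding, ?_, ?_, ?_⟩
  · intro x y h
    apply φ.injective
    apply Subtype.ext
    exact Finset.map_injective Fin.valEmbedding h
  · intro x
    rw [Finset.card_map]
    exact (φ x).2
  · intro x y hxy
    rw [← φ.map_adj_iff]
    change (φ x ≠ φ y ∧ ∃ i, i ∈ (φ x).1 ∧ i ∈ (φ y).1) ↔ _
    constructor
    · rintro ⟨_, i, h1, h2⟩
      exact ⟨i, Finset.mem_map_of_mem Fin.valEmbedding h1, Finset.mem_map_of_mem Fin.valEmbedding h2⟩
    · rintro ⟨i, h1, h2⟩
      rw [Finset.mem_map] at h1 h2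
      obtain ⟨a, ha, rfl⟩ := h1
      obtain ⟨b, hb, hab⟩ := h2
      have : b = a := Fin.valEmbedding.injective hab
      subst this
      exact ⟨fun h => hxy (φ.injective h), b, ha, hb⟩

/-- **Criterion**: two pendant vertices at c and a representation of H without one of them. -/
theorem sat_of_twins {V : Type*} [Finite V] {H : SimpleGraph V} {c u v : V} (huv : u ≠ v)
    (hcu : H.Adj c u) (hcv : H.Adj c v) (hu : ∀ w, H.Adj u w → w = c) (hv : ∀ w, H.Adj v w → w = c)
    {r : ℕ} (h1 : Rep (H.induce {x | x ≠ v}) r) (h2 : ¬ Rep H r) :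
    ∃ N : ℕ, ∀ n, N ≤ n → Sat H (Kn n r) ∧ Nonempty (V ↪ {A : Finset (Fin n) // A.card = r}) := by
  classical
  have := Fintype.ofFinite V
  obtain ⟨A, hinj, hcard, hadj⟩ := h1
  have hcv' : c ≠ v := hcv.ne
  have hcu' : c ≠ u := hcu.ne
  -- the representation as a function on V
  set B : V → Finset ℕ := fun x => if h : x ≠ v then A ⟨x, h⟩ else ∅ with hB
  have hBx : ∀ x (h : x ≠ v), B x = A ⟨x, h⟩ := by
    intro x h
    simp only [hB, dif_pos h]
  have hBinj : ∀ x y, x ≠ v → y ≠ v → B x = B y → x = y := by
    intro x y hx hy h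
    rw [hBx x hx, hBx y hy] at h
    exact congrArg Subtype.val (hinj h)
  have hBcard : ∀ x, x ≠ v → (B x).card = r := by
    intro x hx
    rw [hBx x hx]
    exact hcard _
  have hBadj : ∀ x y, x ≠ v → y ≠ v → x ≠ y → (H.Adj x y ↔ ∃ i, i ∈ B x ∧ i ∈ B y) := by
    intro x y hx hy hxy
    rw [hBx x hx, hBx y hy, ← hadj ⟨x, hx⟩ ⟨y, hy⟩ (fun h => hxy (congrArg Subtype.val h))]
    exact Iff.rfl
  obtain ⟨M, hM⟩ : ∃ M : ℕ, ∀ x, ∀ i ∈ B x, i < M := by
    refine ⟨(univ.biUnion B).sup id + 1, fun x i hi => ?_⟩
    have : i ≤ (univ.biUnion B).sup id :=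
      Finset.le_sup (f := id) (Finset.mem_biUnion.2 ⟨x, Finset.mem_univ x, hi⟩)
    omega
  obtain ⟨i0, hi0c, hi0u⟩ := (hBadj c u hcv' huv hcu').1 hcu
  have hr : 1 ≤ r := by
    rw [← hBcard u huv]
    exact Finset.card_pos.2 ⟨i0, hi0u⟩
  -- extension of the representation by a set for v
  have ext : ∀ (K : SimpleGraph V) (S : Finset ℕ), (∀ x y, x ≠ v → y ≠ v → (K.Adj x y ↔ H.Adj x y)) →
      S.card = r → (∀ i ∈ S, i < M + r) → (∃ i ∈ S, M ≤ i) →
      (∀ x, x ≠ v → (K.Adj v x ↔ ∃ i, i ∈ S ∧ i ∈ B x)) → ∀ w, w ≠ v → ∀ n, M + r ≤ n →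
      ∃ φ : K ↪g Kn n r, ((φ w).1 ∩ (φ v).1).card = (B w ∩ S).card := by
    intro K S hK hS hSM hSf hKv w hw n hn
    have e1 : ∀ x, x ≠ v → (if x = v then S else B x) = B x := fun x hx => if_neg hx
    have e2 : (if v = v then S else B v) = S := if_pos rfl
    obtain ⟨k, hkS, hkM⟩ := hSf
    obtain ⟨φ, hφ⟩ := embed_of_rep (H := K) (r := r) (n := n) (A := fun x => if x = v then S else B x)
      (by
        intro x y h
        simp only at h
        by_cases hx : x = v
        · by_cases hy : y = v
          · rw [hx, hy]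
          · exfalso
            rw [if_pos hx, if_neg hy] at h
            rw [h] at hkS
            have := hM y k hkS
            omega
        · by_cases hy : y = v
          · exfalso
            rw [if_neg hx, if_pos hy] at h
            rw [← h] at hkS
            have := hM x k hkS
            omega
          · rw [if_neg hx, if_neg hy] at h
            exact hBinj x y hx hy h)
      (by
        intro x
        by_cases hx : x = v
        · rw [if_pos hx]; exact hS
        · rw [if_neg hx]; exact hBcard x hx)
      (by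
        intro x y hxy
        by_cases hx : x = v
        · by_cases hy : y = v
          · exact absurd (hx.trans hy.symm) hxy
          · rw [if_pos hx, if_neg hy, hx]
            exact hKv y hy
        · by_cases hy : y = v
          · rw [if_neg hx, if_pos hy, hy, K.adj_comm, hKv x hx]
            constructor
            · rintro ⟨i, a, b⟩
              exact ⟨i, b, a⟩
            · rintro ⟨i, a, b⟩
              exact ⟨i, b, a⟩
          · rw [if_neg hx, if_neg hy, hK x y hx hy]
            exact hBadj x y hx hy hxy)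
      (by
        intro x i hi
        by_cases hx : x = v
        · rw [if_pos hx] at hi
          exact (hSM i hi).trans_le hn
        · rw [if_neg hx] at hi
          have := hM x i hi
          omega)
    refine ⟨φ, ?_⟩
    rw [hφ w v, e1 w hw, e2]
  refine ⟨M + r, fun n hn => ?_⟩
  have hfr : ∀ k : ℕ, ((range k).image (fun i => M + i)).card = k := by
    intro k
    rw [Finset.card_image_of_injective _ (fun a b h => Nat.add_left_cancel h), Finset.card_range]
  have hfm : ∀ (k i : ℕ), i ∈ (range k).image (fun i => M + i) → M ≤ i ∧ i < M + k := by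
    intro k i hi
    rw [Finset.mem_image] at hi
    obtain ⟨a, ha, rfl⟩ := hi
    rw [Finset.mem_range] at ha
    exact ⟨by omega, by omega⟩
  -- the copy with a deleted pair
  have hdel : ∃ φ : H.deleteEdges {s(c, v)} ↪g Kn n r, ((φ c).1 ∩ (φ v).1).card = 0 := by
    obtain ⟨φ, hφ⟩ := ext (H.deleteEdges {s(c, v)}) ((range r).image (fun i => M + i))
      (by
        intro x y hx hy
        rw [SimpleGraph.deleteEdges_adj, Set.mem_singleton_iff, Sym2.eq_iff]
        constructor
        · exact fun h => h.1
        · intro h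
          refine ⟨h, ?_⟩
          rintro (⟨_, h3⟩ | ⟨h3, _⟩)
          · exact hy h3
          · exact hx h3)
      (hfr r) (fun i hi => (hfm r i hi).2)
      ⟨M, Finset.mem_image.2 ⟨0, Finset.mem_range.2 (by omega), by omega⟩, le_rfl⟩
      (by
        intro x hx
        rw [SimpleGraph.deleteEdges_adj, Set.mem_singleton_iff]
        constructor
        · rintro ⟨h3, h4⟩
          exfalso
          have := hv x h3
          rw [this] at h4
          exact h4 Sym2.eq_swap
        · rintro ⟨i, h3, h4⟩
          exfalso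
          have := (hfm r i h3).1
          have := hM x i h4
          omega) c hcv' n hn
    refine ⟨φ, ?_⟩
    rw [hφ, Finset.card_eq_zero]
    ext i
    simp only [Finset.mem_inter, Finset.notMem_empty, iff_false, not_and]
    intro h3 h4
    have := (hfm r i h4).1
    have := hM c i h3
    omega
  refine ⟨sat_kn ⟨fun φ => h2 (rep_of_embed φ)⟩ ?_, ?_⟩
  · intro j hj
    rcases Nat.eq_zero_or_pos j with hj0 | hj0
    · obtain ⟨φ, hφ⟩ := hdel
      exact ⟨_, c, v, diffAt_delete H hcv, φ, by rw [hφ, hj0]⟩
    · have hnadj : ¬ H.Adj u v := by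
        intro h
        exact hcv' (hu v h).symm
      obtain ⟨J, hJ1, hJ2, hJ3⟩ : ∃ J, ({i0} : Finset ℕ) ⊆ J ∧ J ⊆ B u ∧ J.card = j :=
        Finset.exists_subsuperset_card_eq (Finset.singleton_subset_iff.2 hi0u)
          (by rw [Finset.card_singleton]; exact hj0) (by rw [hBcard u huv]; exact hj.le)
      have hi0J : i0 ∈ J := hJ1 (Finset.mem_singleton_self i0)
      have hdis : Disjoint J ((range (r - j)).image (fun i => M + i)) := by
        rw [Finset.disjoint_left]
        intro i h3 h4
        have := (hfm _ i h4).1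
        have := hM u i (hJ2 h3)
        omega
      obtain ⟨φ, hφ⟩ := ext (H ⊔ SimpleGraph.edge u v) (J ∪ (range (r - j)).image (fun i => M + i))
        (by
          intro x y hx hy
          rw [SimpleGraph.sup_adj, SimpleGraph.edge_adj]
          constructor
          · rintro (h | ⟨⟨_, h⟩ | ⟨h, _⟩, _⟩)
            · exact h
            · exact absurd h hy
            · exact absurd h hx
          · exact Or.inl)
        (by rw [Finset.card_union_of_disjoint hdis, hJ3, hfr]; omega)
        (by
          intro i hi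
          rw [Finset.mem_union] at hi
          rcases hi with hi | hi
          · have := hM u i (hJ2 hi)
            omega
          · have := (hfm _ i hi).2
            omega)
        ⟨M, Finset.mem_union_right _ (Finset.mem_image.2 ⟨0, Finset.mem_range.2 (by omega), by omega⟩),
          le_rfl⟩
        (by
          intro x hx
          rw [SimpleGraph.sup_adj, SimpleGraph.edge_adj]
          constructor
          · rintro (h | ⟨⟨_, h⟩ | ⟨_, h⟩, _⟩)
            · rw [hv x h]
              exact ⟨i0, Finset.mem_union_left _ hi0J, hi0c⟩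
            · exact absurd h hx
            · rw [h]
              exact ⟨i0, Finset.mem_union_left _ hi0J, hi0u⟩
          · rintro ⟨i, h3, h4⟩
            rw [Finset.mem_union] at h3
            rcases h3 with h3 | h3
            · by_cases hxu : x = u
              · right
                exact ⟨Or.inr ⟨rfl, hxu⟩, fun h => hx h.symm⟩
              · left
                have h5 : H.Adj u x := (hBadj u x huv hx (fun h => hxu h.symm)).2 ⟨i, hJ2 h3, h4⟩
                rw [hu x h5]
                exact hcv.symm
            · exfalso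
              have := (hfm _ i h3).1
              have := hM x i h4
              omega) u huv n hn
      refine ⟨_, u, v, diffAt_add H huv hnadj, φ, ?_⟩
      rw [hφ]
      have e : B u ∩ (J ∪ (range (r - j)).image (fun i => M + i)) = J := by
        ext i
        rw [Finset.mem_inter, Finset.mem_union]
        constructor
        · rintro ⟨h3, h4 | h4⟩
          · exact h4
          · exfalso
            have := (hfm _ i h4).1
            have := hM u i h3
            omega
        · intro h3
          exact ⟨hJ2 h3, Or.inl h3⟩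
      rw [e, hJ3]
  · obtain ⟨φ, _⟩ := hdel
    exact ⟨φ.toEmbedding⟩

end Pool.Agent.IndSat
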