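import Pool.Agent.IndSat.PM

set_option autoImplicit false

namespace Pool.Agent.IndSat

open Finset Matrix

set_option linter.unusedSectionVars false

variable {V : Type} [Fintype V] [DecidableEq V]

lemma clFlip_of {H : SimpleGraph V} (h1 : ∀ v, 2 ≤ (H.neighborSet v).ncard)
    (h2 : ∀ u v, u ≠ v → 3 ≤ (symmDiff (H.neighborSet u) (H.neighborSet v)).ncard)
    {i j : V} (hij : i ≠ j) : ClFlip H i j := by
  constructor
  · intro u
    obtain ⟨l, hl, hl1, hl2⟩ : ∃ l, H.Adj u l ∧ ¬ (u = i ∧ l = j) ∧ ¬ (u = j ∧ l = i) := by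
      by_contra hcon
      push Not at hcon
      have hsub : H.neighborSet u ⊆ {if u = i then j else i} := by
        intro l hl
        rw [SimpleGraph.mem_neighborSet] at hl
        rw [Set.mem_singleton_iff]
        by_cases hu : u = i
        · rw [if_pos hu]
          by_contra hlj
          have h3 := hcon l hl (fun _ => hlj)
          exact hij (hu.symm.trans h3.1)
        · rw [if_neg hu]
          exact (hcon l hl (fun h => absurd h hu)).2
      have h4 := Set.ncard_le_ncard hsub
      rw [Set.ncard_singleton] at h4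
      have := h1 u
      omega
    refine ⟨l, ?_⟩
    simp only [flip, Matrix.of_apply]
    rw [if_neg hl1, if_neg hl2, adj_one.2 hl]
    simp
  · intro u v huv
    obtain ⟨l, hl, hli, hlj⟩ : ∃ l, l ∈ symmDiff (H.neighborSet u) (H.neighborSet v) ∧
        l ≠ i ∧ l ≠ j := by
      by_contra hcon
      push Not at hcon
      have hsub : symmDiff (H.neighborSet u) (H.neighborSet v) ⊆ {i, j} := by
        intro l hl
        by_cases h : l = i
        · left; exact h
        · right; exact hcon l hl h
      have h4 := Set.ncard_le_ncard hsub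
      have h5 := h2 u v huv
      have h6 := Set.ncard_insert_le i {j}
      rw [Set.ncard_singleton] at h6
      omega
    refine ⟨l, ?_⟩
    simp only [flip, Matrix.of_apply]
    rw [if_neg (fun h => hlj h.2), if_neg (fun h => hli h.2), if_neg (fun h => hlj h.2),
      if_neg (fun h => hli h.2)]
    simp only [add_zero]
    rw [adj_ne_iff]
    rw [Set.mem_symmDiff, SimpleGraph.mem_neighborSet, SimpleGraph.mem_neighborSet] at hl
    tauto

/-- The combinatorial criterion. -/
theorem odd_criterion (H : SimpleGraph V) (h1 : ∀ v, 2 ≤ (H.neighborSet v).ncard)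
    (h2 : ∀ u v, u ≠ v → 3 ≤ (symmDiff (H.neighborSet u) (H.neighborSet v)).ncard)
    (hodd : Odd (Nat.card {M : H.Subgraph // M.IsPerfectMatching}))
    {K : SimpleGraph V} {k l : V} (hkl : k ≠ l) (hn : ¬ H.Adj k l)
    (hK : ∀ u v, u ≠ v → ((H.Adj u v ↔ K.Adj u v) ↔ s(u, v) ≠ s(k, l)))
    (heven : Even (Nat.card {M : K.Subgraph // M.IsPerfectMatching})) :
    ∃ d, Sat H (Sp d) ∧ Fintype.card V ≤ Fintype.card {x : W d // x ≠ 0} := by
  have hdet : (adj H).det = 1 := by
    rw [det_adj]
    exact ZMod.natCast_eq_one_iff_odd.2 hodd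
  have hdet2 : (flip (adj H) k l).det = 0 := by
    rw [← adj_flip hkl hK, det_adj]
    exact ZMod.natCast_eq_zero_iff_even.2 heven
  have hU : IsUnit (adj H) := by
    rw [Matrix.isUnit_iff_isUnit_det, hdet]
    exact isUnit_one
  have hrk : (adj H).rank = Fintype.card V := Matrix.rank_of_isUnit _ hU
  have hrk2 : (flip (adj H) k l).rank < Fintype.card V := by
    obtain ⟨x, hx0, hx⟩ := Matrix.exists_mulVec_eq_zero_iff.2 hdet2
    have hk2 := LinearMap.finrank_range_add_finrank_ker (flip (adj H) k l).mulVecLin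
    rw [Module.finrank_fintype_fun_eq_card] at hk2
    unfold Matrix.rank
    have hpos : 0 < Module.finrank F (LinearMap.ker (flip (adj H) k l).mulVecLin) := by
      rw [Nat.pos_iff_ne_zero]
      intro h0
      rw [Submodule.finrank_eq_zero] at h0
      have hm : x ∈ LinearMap.ker (flip (adj H) k l).mulVecLin := by
        rw [LinearMap.mem_ker, Matrix.mulVecLin_apply]
        exact hx
      rw [h0, Submodule.mem_bot] at hm
      exact hx0 hm
    omega
  have hD := drop_of_rank (adj H) (adj_symm H) (adj_diag H) hkl (by rw [hrk]; exact hrk2)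
  have hinv : ∀ i, ∃ u, adj H *ᵥ u = Pi.single i 1 := by
    intro i
    refine ⟨(adj H)⁻¹ *ᵥ (Pi.single i 1), ?_⟩
    rw [Matrix.mulVec_mulVec, Matrix.mul_nonsing_inv _ (by rw [hdet]; exact isUnit_one),
      Matrix.one_mulVec]
  refine criterion2 H ?_ ⟨k, l, hn, hD, clFlip_of h1 h2 hkl⟩
  obtain ⟨u, hu⟩ := hinv k
  have h3 := congrFun hu k
  rw [Pi.single_eq_same, Matrix.mulVec, dotProduct] at h3
  obtain ⟨j, _, hj⟩ := Finset.exists_ne_zero_of_sum_ne_zero
    (s := univ) (f := fun j => adj H k j * u j) (by rw [h3]; exact one_ne_zero)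
  obtain ⟨v, hv⟩ := hinv j
  have hjA : H.Adj k j := by
    by_contra h
    exact hj (by rw [adj_zero.2 h, zero_mul])
  have huj : u j = 1 := by
    rcases F_cases (u j) with h | h
    · exact absurd (by rw [h, mul_zero]) hj
    · exact h
  exact ⟨k, j, hjA, ⟨hjA.ne, u, v, hu, hv, huj⟩, clFlip_of h1 h2 hjA.ne⟩

/-- In a graph without 4-cycles, of minimum degree at least two and with an odd number of perfect
matchings, flipping some non-edge lowers the rank. -/
theorem exists_drop_of_c4free (H : SimpleGraph V) (h1 : ∀ v, 2 ≤ (H.neighborSet v).ncard)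
    (h2 : ∀ u v, u ≠ v → (H.neighborSet u ∩ H.neighborSet v).ncard ≤ 1) [Nonempty V]
    (hinv : ∀ i, ∃ u, adj H *ᵥ u = Pi.single i 1) :
    ∃ k l, ¬ H.Adj k l ∧ Drop (adj H) k l := by
  by_contra hcon
  push Not at hcon
  choose P hP using hinv
  obtain ⟨j⟩ := (inferInstance : Nonempty V)
  -- the support of the column is inside the neighbourhood
  have hsupp : ∀ k, P j k = 1 → H.Adj j k := by
    intro k hk
    by_contra hn
    apply hcon j k hn
    refine ⟨?_, P j, P k, hP j, hP k, hk⟩
    rintro rfl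
    have := alt_quad (adj H) (adj_symm H) (adj_diag H) (P j)
    rw [hP j] at this
    simp only [dotProduct_single, mul_one] at this
    rw [this] at hk
    exact absurd hk (by decide)
  have h3 := congrFun (hP j) j
  rw [Pi.single_eq_same, Matrix.mulVec, dotProduct] at h3
  obtain ⟨k, _, hk⟩ := Finset.exists_ne_zero_of_sum_ne_zero
    (s := univ) (f := fun k => adj H j k * P j k) (by rw [h3]; exact one_ne_zero)
  have hPk : P j k = 1 := by
    rcases F_cases (P j k) with h | h
    · exact absurd (by rw [h, mul_zero]) hk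
    · exact h
  have hjk : H.Adj j k := hsupp k hPk
  obtain ⟨i, hi, hij⟩ : ∃ i, H.Adj k i ∧ i ≠ j := by
    by_contra hno
    push Not at hno
    have hsub : H.neighborSet k ⊆ {j} := fun i hi => hno i hi
    have h4 := Set.ncard_le_ncard hsub
    rw [Set.ncard_singleton] at h4
    have := h1 k
    omega
  have h5 := congrFun (hP j) i
  rw [Pi.single_eq_of_ne hij, Matrix.mulVec, dotProduct, Finset.sum_eq_single k] at h5
  · rw [hPk, adj_one.2 hi.symm, mul_one] at h5
    exact absurd h5 (by decide)
  · intro m _ hm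
    by_contra hne
    have hPm : P j m = 1 := by
      rcases F_cases (P j m) with h | h
      · exact absurd (by rw [h, mul_zero]) hne
      · exact h
    have hAm : H.Adj i m := by
      by_contra h
      exact hne (by rw [adj_zero.2 h, zero_mul])
    have hjm : H.Adj j m := hsupp m hPm
    have hsub : ({k, m} : Set V) ⊆ H.neighborSet i ∩ H.neighborSet j := by
      rintro x (rfl | rfl)
      · exact ⟨hi.symm, hjk⟩
      · exact ⟨hAm, hjm⟩
    have h6 := Set.ncard_le_ncard hsub
    rw [Set.ncard_pair (Ne.symm hm)] at h6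
    have := h2 i j hij
    omega
  · intro h
    exact absurd (mem_univ _) h

/-- The criterion for graphs without 4-cycles. -/
theorem c4free_criterion (H : SimpleGraph V) [Nonempty V]
    (h1 : ∀ v, 2 ≤ (H.neighborSet v).ncard)
    (h2 : ∀ u v, u ≠ v → 3 ≤ (symmDiff (H.neighborSet u) (H.neighborSet v)).ncard)
    (hodd : Odd (Nat.card {M : H.Subgraph // M.IsPerfectMatching}))
    (hc : ∀ u v, u ≠ v → (H.neighborSet u ∩ H.neighborSet v).ncard ≤ 1) :
    ∃ d, Sat H (Sp d) ∧ Fintype.card V ≤ Fintype.card {x : W d // x ≠ 0} := by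
  have hdet : (adj H).det = 1 := by
    rw [det_adj]
    exact ZMod.natCast_eq_one_iff_odd.2 hodd
  have hinv : ∀ i, ∃ u, adj H *ᵥ u = Pi.single i 1 := by
    intro i
    refine ⟨(adj H)⁻¹ *ᵥ (Pi.single i 1), ?_⟩
    rw [Matrix.mulVec_mulVec, Matrix.mul_nonsing_inv _ (by rw [hdet]; exact isUnit_one),
      Matrix.one_mulVec]
  obtain ⟨k, l, hn, hD⟩ := exists_drop_of_c4free H h1 hc hinv
  refine criterion2 H ?_ ⟨k, l, hn, hD, clFlip_of h1 h2 hD.1⟩
  obtain ⟨u, hu⟩ := hinv k
  have h3 := congrFun hu k
  rw [Pi.single_eq_same, Matrix.mulVec, dotProduct] at h3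
  obtain ⟨j, _, hj⟩ := Finset.exists_ne_zero_of_sum_ne_zero
    (s := univ) (f := fun j => adj H k j * u j) (by rw [h3]; exact one_ne_zero)
  obtain ⟨v, hv⟩ := hinv j
  have hjA : H.Adj k j := by
    by_contra h
    exact hj (by rw [adj_zero.2 h, zero_mul])
  have huj : u j = 1 := by
    rcases F_cases (u j) with h | h
    · exact absurd (by rw [h, mul_zero]) hj
    · exact h
  exact ⟨k, j, hjA, ⟨hjA.ne, u, v, hu, hv, huj⟩, clFlip_of h1 h2 hjA.ne⟩

end Pool.Agent.IndSat
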