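import Pool.Agent.IndSat.Rank
import Mathlib.Combinatorics.SimpleGraph.Matching

set_option autoImplicit false

namespace Pool.Agent.IndSat

open Finset Matrix

set_option linter.unusedSectionVars false

variable {V : Type} [Fintype V] [DecidableEq V]

/-- Perfect matchings as fixed point free involutions along edges. -/
def InvPM (H : SimpleGraph V) : Type := {σ : Equiv.Perm V // (∀ v, H.Adj v (σ v)) ∧ ∀ v, σ (σ v) = v}

/-- the subgraph of an involution -/
def invSub (H : SimpleGraph V) (σ : InvPM H) : H.Subgraph where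
  verts := Set.univ
  Adj u v := σ.1 u = v
  adj_sub := by
    intro u v h
    rw [← h]
    exact σ.2.1 u
  edge_vert := fun _ => Set.mem_univ _
  symm := ⟨by
    intro u v h
    rw [← h]
    exact σ.2.2 u⟩

lemma invSub_pm (H : SimpleGraph V) (σ : InvPM H) : (invSub H σ).IsPerfectMatching := by
  rw [SimpleGraph.Subgraph.isPerfectMatching_iff]
  intro v
  exact ⟨σ.1 v, rfl, fun w (hw : σ.1 v = w) => Eq.symm hw⟩

/-- The number of perfect matchings is the number of such involutions. -/
lemma card_invPM (H : SimpleGraph V) :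
    Nat.card (InvPM H) = Nat.card {M : H.Subgraph // M.IsPerfectMatching} := by
  apply Nat.card_congr
  refine Equiv.ofBijective (fun σ => ⟨invSub H σ, invSub_pm H σ⟩) ⟨?_, ?_⟩
  · intro σ τ h
    have h1 : invSub H σ = invSub H τ := congrArg Subtype.val h
    apply Subtype.ext
    ext v
    have h2 : (invSub H σ).Adj v (σ.1 v) := rfl
    rw [h1] at h2
    have h3 : τ.1 v = σ.1 v := h2
    exact h3.symm
  · rintro ⟨M, hM⟩
    have hM' := hM
    rw [SimpleGraph.Subgraph.isPerfectMatching_iff] at hM'
    choose f hf hf2 using hM'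
    have hinv : ∀ v, f (f v) = v := by
      intro v
      exact (hf2 (f v) v (hf v).symm).symm
    refine ⟨⟨⟨f, f, hinv, hinv⟩, ⟨fun v => M.adj_sub (hf v), hinv⟩⟩, ?_⟩
    apply Subtype.ext
    apply SimpleGraph.Subgraph.ext
    · change Set.univ = M.verts
      exact (SimpleGraph.Subgraph.isSpanning_iff.1 hM.2).symm
    · funext u v
      change (f u = v) = M.Adj u v
      apply propext
      constructor
      · rintro rfl
        exact hf u
      · intro h
        exact (hf2 u v h).symm

/-- The determinant over `F_2` counts perfect matchings. -/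
theorem det_adj (H : SimpleGraph V) :
    (adj H).det = (Nat.card {M : H.Subgraph // M.IsPerfectMatching} : F) := by
  classical
  rw [← card_invPM, Matrix.det_apply]
  have hsgn : ∀ σ : Equiv.Perm V, Equiv.Perm.sign σ • ∏ i, adj H (σ i) i =
      ∏ i, adj H (σ i) i := by
    intro σ
    rcases Int.units_eq_one_or (Equiv.Perm.sign σ) with h | h
    · rw [h, one_smul]
    · rw [h]
      rcases F_cases (∏ i, adj H (σ i) i) with h0 | h0
      · rw [h0]; simp
      · rw [h0]; decide
  rw [sum_congr rfl (fun σ _ => hsgn σ)]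
  -- only involutions contribute
  have hsplit := Finset.sum_filter_add_sum_filter_not (univ : Finset (Equiv.Perm V))
    (fun σ => σ⁻¹ = σ) (fun σ => ∏ i, adj H (σ i) i)
  rw [← hsplit]
  have hzero : ∑ σ ∈ (univ : Finset (Equiv.Perm V)).filter (fun σ => ¬ σ⁻¹ = σ),
      ∏ i, adj H (σ i) i = 0 := by
    apply Finset.sum_involution (fun σ _ => σ⁻¹)
    · intro σ _
      have : ∏ i, adj H (σ⁻¹ i) i = ∏ i, adj H (σ i) i := by
        rw [← Equiv.prod_comp σ]
        refine prod_congr rfl fun i _ => ?_
        rw [show σ⁻¹ (σ i) = i from σ.symm_apply_apply i, adj_symm]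
      rw [this, F_add_self]
    · intro σ hσ _ h
      exact (mem_filter.1 hσ).2 h
    · intro σ _
      exact inv_inv σ
    · intro σ hσ
      rw [mem_filter] at hσ ⊢
      refine ⟨mem_univ _, fun h => hσ.2 ?_⟩
      rw [inv_inv] at h
      exact h.symm
  rw [hzero, add_zero]
  have hterm : ∀ σ ∈ (univ : Finset (Equiv.Perm V)).filter (fun σ => σ⁻¹ = σ),
      ∏ i, adj H (σ i) i = if (∀ v, H.Adj v (σ v)) then 1 else 0 := by
    intro σ _
    by_cases h : ∀ v, H.Adj v (σ v)
    · rw [if_pos h]
      exact prod_eq_one fun i _ => adj_one.2 (h i).symm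
    · rw [if_neg h]
      push Not at h
      obtain ⟨v, hv⟩ := h
      exact prod_eq_zero (mem_univ v) (adj_zero.2 fun hh => hv hh.symm)
  rw [sum_congr rfl hterm, ← Finset.sum_filter, Finset.sum_const, nsmul_eq_mul, mul_one,
    Finset.filter_filter]
  congr 1
  unfold InvPM
  rw [Nat.card_eq_fintype_card, Fintype.card_subtype]
  congr 1
  ext σ
  simp only [mem_filter, mem_univ, true_and]
  constructor
  · rintro ⟨h1, h2⟩
    refine ⟨h2, fun v => ?_⟩
    have h3 := congrArg (fun τ : Equiv.Perm V => σ (τ v)) h1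
    rw [show σ (σ⁻¹ v) = v from σ.apply_symm_apply v] at h3
    exact h3.symm
  · rintro ⟨h1, h2⟩
    refine ⟨?_, h1⟩
    apply Equiv.ext
    intro v
    rw [Equiv.Perm.inv_eq_iff_eq]
    exact (h2 v).symm

end Pool.Agent.IndSat
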