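import Pool.Agent.IndSat.Count

set_option autoImplicit false

namespace Pool.Agent.IndSat

open Finset Matrix

set_option linter.unusedSectionVars false

variable {V : Type} [Fintype V] [DecidableEq V]

lemma exists_preimage (A : Matrix V V F) (hs : ∀ i j, A i j = A j i) (i0 : V)
    (h : ∀ z, A *ᵥ z = 0 → z i0 = 0) : ∃ u, A *ᵥ u = Pi.single i0 1 := by
  set L : V → (V → F) →ₗ[F] F := fun i => (LinearMap.proj i) ∘ₗ A.mulVecLin with hL
  have key : (LinearMap.proj i0 : (V → F) →ₗ[F] F) ∈ Submodule.span F (Set.range L) := by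
    apply mem_span_of_iInf_ker_le_ker
    intro z hz
    rw [Submodule.mem_iInf] at hz
    rw [LinearMap.mem_ker, LinearMap.proj_apply]
    apply h
    funext i
    have := hz i
    rw [LinearMap.mem_ker] at this
    exact this
  rw [Submodule.mem_span_range_iff_exists_fun] at key
  obtain ⟨u, hu⟩ := key
  refine ⟨u, ?_⟩
  funext j
  have := congrArg (fun f => f (Pi.single j 1)) hu
  simp only [LinearMap.sum_apply, LinearMap.smul_apply, hL, LinearMap.comp_apply,
    LinearMap.proj_apply, Matrix.mulVecLin_apply, Matrix.mulVec_single_one, Matrix.col_apply,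
    smul_eq_mul] at this
  rw [Matrix.mulVec, dotProduct]
  have e : ∑ i, A j i * u i = ∑ i, u i * A i j := by
    refine sum_congr rfl fun i _ => ?_
    rw [hs j i, mul_comm]
  rw [e, this]
  by_cases hji : i0 = j
  · subst hji; simp
  · rw [Pi.single_eq_of_ne hji, Pi.single_eq_of_ne (Ne.symm hji)]

/-- zero-pattern failure for a kernel frame of size `k` -/
def ZF (k : ℕ) (H : SimpleGraph V) : Prop :=
  ∃ σ : Fin k → V, ∃ P : V → Fin k → F, (∀ s t, P (σ t) s = if s = t then 1 else 0) ∧
    (∀ s, adj H *ᵥ (fun i => P i s) = 0) ∧ ∀ i, P i ≠ 0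

/-- bad structure -/
def BS (k : ℕ) (c : F) (H : SimpleGraph V) : Prop :=
  ∃ σ : Fin k → V, ∃ i0 t : V, ∃ w : V → (Fin k → F) × F,
    (∀ s t', (w (σ t')).1 s = if s = t' then 1 else 0) ∧ (∀ s, (w (σ s)).2 = 0) ∧
    (w t).2 = 1 ∧ w i0 = (0, 0) ∧
    (∀ s, adj H *ᵥ (fun i => (w i).1 s) = 0) ∧ adj H *ᵥ (fun i => (w i).2) = Pi.single i0 1 ∧
    ∀ j, w j = (0, 1) → adj H i0 j = c

open Classical in
/-- big kernel -/
def BK (K : ℕ) (H : SimpleGraph V) : Prop :=
  2 ^ K ≤ ((univ : Finset (V → F)).filter (fun z => adj H *ᵥ z = 0)).card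

lemma det (H : SimpleGraph V) (K : ℕ) (hBK : ¬ BK K H) (hZF : ∀ k < K, ¬ ZF k H)
    (hBS : ∀ k < K, ∀ c, ¬ BS k c H) (c : F) :
    ∃ i j, adj H i j ≠ c ∧ Drop (adj H) i j := by
  classical
  obtain ⟨k, σ, x, h1, h2, h3⟩ := frame (LinearMap.ker (adj H).mulVecLin)
  have h1' : ∀ s, adj H *ᵥ x s = 0 := by
    intro s
    have := h1 s
    rwa [LinearMap.mem_ker, Matrix.mulVecLin_apply] at this
  have h3' : ∀ z, adj H *ᵥ z = 0 → z = ∑ s, z (σ s) • x s := by
    intro z hz
    apply h3
    rwa [LinearMap.mem_ker, Matrix.mulVecLin_apply]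
  have hsum : ∀ c : Fin k → F, ∀ t, (∑ s, c s • x s) (σ t) = c t := by
    intro c t
    rw [Finset.sum_apply]
    simp only [Pi.smul_apply, h2, smul_eq_mul, mul_ite, mul_one, mul_zero]
    rw [Finset.sum_ite_eq' univ t (fun s => c s)]
    simp
  have hAsum : ∀ c : Fin k → F, adj H *ᵥ (∑ s, c s • x s) = 0 := by
    intro c
    rw [Matrix.mulVec_sum]
    apply Finset.sum_eq_zero
    intro s _
    rw [Matrix.mulVec_smul, h1', smul_zero]
  have hkK : k < K := by
    by_contra hcon
    push Not at hcon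
    apply hBK
    unfold BK
    refine (Nat.pow_le_pow_right (by norm_num) hcon).trans ?_
    have hc : 2 ^ k = (univ : Finset (Fin k → F)).card := by
      rw [Finset.card_univ, Fintype.card_fun, ZMod.card, Fintype.card_fin]
    rw [hc]
    apply Finset.card_le_card_of_injOn (fun c => ∑ s, c s • x s)
    · intro c _
      simp only [coe_filter, mem_univ, true_and, Set.mem_ofPred_eq]
      exact hAsum c
    · intro c _ c' _ hcc
      funext t
      simp only at hcc
      rw [← hsum c t, hcc, hsum c' t]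
  -- zero pattern
  obtain ⟨i0, hi0⟩ : ∃ i0, ∀ s, x s i0 = 0 := by
    by_contra hcon
    apply hZF k hkK
    refine ⟨σ, fun i s => x s i, h2, h1', ?_⟩
    intro i hi
    apply hcon
    exact ⟨i, fun s => congrFun hi s⟩
  obtain ⟨u0, hu0⟩ := exists_preimage (adj H) (adj_symm H) i0 (by
    intro z hz
    rw [h3' z hz, Finset.sum_apply]
    apply Finset.sum_eq_zero
    intro s _
    rw [Pi.smul_apply, hi0, smul_zero])
  set u : V → F := u0 - ∑ s, u0 (σ s) • x s with hu
  have hAu : adj H *ᵥ u = Pi.single i0 1 := by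
    rw [hu, Matrix.mulVec_sub, hAsum, sub_zero, hu0]
  have huσ : ∀ t, u (σ t) = 0 := by
    intro t
    rw [hu, Pi.sub_apply, hsum, sub_self]
  have hui : u i0 = 0 := by
    have := alt_quad (adj H) (adj_symm H) (adj_diag H) u
    rw [hAu] at this
    simpa using this
  obtain ⟨t, ht⟩ : ∃ t, u t = 1 := by
    by_contra hcon
    push Not at hcon
    have hu00 : u = 0 := by
      funext t
      rcases F_cases (u t) with h | h
      · exact h
      · exact absurd h (hcon t)
    rw [hu00, Matrix.mulVec_zero] at hAu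
    have := congrFun hAu i0
    simp at this
  -- the bad structure does not occur
  obtain ⟨j, hj1, hj2, hj3⟩ : ∃ j, (∀ s, x s j = 0) ∧ u j = 1 ∧ adj H i0 j ≠ c := by
    by_contra hcon
    apply hBS k hkK c
    refine ⟨σ, i0, t, fun i => (fun s => x s i, u i), h2, huσ, ht, ?_, h1', hAu, ?_⟩
    · rw [Prod.mk.injEq]
      exact ⟨funext fun s => hi0 s, hui⟩
    · intro j hj
      rw [Prod.mk.injEq] at hj
      by_contra hne
      exact hcon ⟨j, fun s => congrFun hj.1 s, hj.2, hne⟩
  obtain ⟨v, hv⟩ := exists_preimage (adj H) (adj_symm H) j (by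
    intro z hz
    rw [h3' z hz, Finset.sum_apply]
    apply Finset.sum_eq_zero
    intro s _
    rw [Pi.smul_apply, hj1, smul_zero])
  refine ⟨i0, j, hj3, ?_, u, v, hAu, hv, hj2⟩
  rintro rfl
  rw [hui] at hj2
  exact absurd hj2 (by decide)

open Classical in
/-- number of graphs with a property, as a real -/
noncomputable def cnt (P : SimpleGraph V → Prop) : ℝ :=
  ((univ : Finset (SimpleGraph V)).filter P).card

lemma cnt_mono {P Q : SimpleGraph V → Prop} (h : ∀ H, P H → Q H) : cnt P ≤ cnt Q := by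
  classical
  unfold cnt
  norm_cast
  apply Finset.card_le_card
  intro H hH
  rw [mem_filter] at hH ⊢
  exact ⟨hH.1, h H hH.2⟩

lemma cnt_or (P Q : SimpleGraph V → Prop) : cnt (fun H => P H ∨ Q H) ≤ cnt P + cnt Q := by
  classical
  unfold cnt
  norm_cast
  refine le_trans (Finset.card_le_card (t := univ.filter P ∪ univ.filter Q) ?_)
    ((Finset.card_union_le _ _).trans (le_of_eq ?_))
  · intro H hH
    simp only [mem_filter, mem_univ, true_and, mem_union] at hH ⊢
    exact hH
  · congr!

lemma cnt_exists {ι : Type} [Fintype ι] (P : ι → SimpleGraph V → Prop) :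
    cnt (fun H => ∃ i, P i H) ≤ ∑ i, cnt (P i) := by
  classical
  unfold cnt
  norm_cast
  refine le_trans (Finset.card_le_card (t := univ.biUnion fun i => univ.filter (P i)) ?_)
    (Finset.card_biUnion_le.trans (le_of_eq ?_))
  · intro H hH
    simp only [mem_filter, mem_univ, true_and, mem_biUnion] at hH ⊢
    exact hH
  · congr!

/-- total number of graphs -/
noncomputable def tot (V : Type) [Fintype V] [DecidableEq V] : ℝ := Fintype.card (SimpleGraph V)

lemma tot_nonneg : 0 ≤ tot V := Nat.cast_nonneg _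

lemma cnt_struct (T : Finset V) {ι : Type} (w y : ι → V → F)
    (hw : ∀ d : V → F, (∀ i, i ∉ T → d i = 0) → (∀ s, d ⬝ᵥ w s = 0) → d = 0)
    (i0 : V) (J : Finset V) (hJ : ∀ j ∈ J, j ∉ T ∧ j ≠ i0 ∧ i0 ∉ T) (c : F)
    (P : SimpleGraph V → Prop)
    (hS : ∀ H, P H → (∀ s, adj H *ᵥ w s = y s) ∧ ∀ j ∈ J, adj H i0 j = c) :
    cnt P ≤ tot V / 2 ^ (T.card * (Fintype.card V - T.card) + J.card) := by
  classical
  rw [le_div_iff₀ (by positivity)]
  unfold cnt tot
  have := card_struct T w y hw i0 J hJ c (univ.filter P) (by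
    intro H hH
    rw [mem_filter] at hH
    exact hS H hH.2)
  exact_mod_cast this

lemma cnt_pow (P : SimpleGraph V → Prop) (E : Finset (V × V))
    (hE1 : ∀ i j, (i, j) ∈ E → i ≠ j) (hE2 : ∀ i j, (i, j) ∈ E → (j, i) ∉ E)
    (h : ∀ H, P H → ∀ H', P H' →
      (∀ i j, (i, j) ∉ E → (j, i) ∉ E → (H.Adj i j ↔ H'.Adj i j)) → H = H') (m : ℕ)
    (hm : m ≤ E.card) :
    cnt P ≤ tot V / 2 ^ m := by
  classical
  have := card_mul_pow (univ.filter P) E hE1 hE2 (by
    intro H hH H' hH'
    rw [mem_filter] at hH hH'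
    exact h H hH.2 H' hH'.2)
  have h2 : cnt P ≤ tot V / 2 ^ E.card := by
    rw [le_div_iff₀ (by positivity)]
    unfold cnt tot
    exact_mod_cast this
  refine h2.trans ?_
  apply div_le_div_of_nonneg_left tot_nonneg (by positivity)
  exact pow_le_pow_right₀ (by norm_num) hm

/-- failure of `G1` is rare -/
lemma cnt_G1 : cnt (fun H : SimpleGraph V => ¬ G1 H) ≤
    (Fintype.card V : ℝ) ^ 3 * (tot V / 2 ^ (Fintype.card V - 3)) := by
  classical
  have h1 : cnt (fun H : SimpleGraph V => ¬ G1 H) ≤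
      cnt (fun H : SimpleGraph V => ∃ p : V × V × V, ∀ l, l ≠ p.2.1 → l ≠ p.2.2 →
        ¬ H.Adj p.1 l) := by
    apply cnt_mono
    intro H hH
    unfold G1 at hH
    push Not at hH
    obtain ⟨i, a, b, h⟩ := hH
    exact ⟨(i, a, b), h⟩
  refine h1.trans ((cnt_exists _).trans ?_)
  have h2 : ∀ p : V × V × V, cnt (fun H : SimpleGraph V => ∀ l, l ≠ p.2.1 → l ≠ p.2.2 →
        ¬ H.Adj p.1 l) ≤ tot V / 2 ^ (Fintype.card V - 3) := by
    rintro ⟨i, a, b⟩
    apply cnt_pow _ ({i} ×ˢ ({i, a, b} : Finset V)ᶜ)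
    · intro u v huv
      simp only [mem_product, mem_singleton, mem_compl, mem_insert, not_or] at huv
      rintro rfl
      exact huv.2.1 huv.1
    · intro u v huv hvu
      simp only [mem_product, mem_singleton, mem_compl, mem_insert, not_or] at huv hvu
      exact huv.2.1 hvu.1
    · intro H hH H' hH' hag
      ext u v
      by_cases h1 : (u, v) ∈ ({i} ×ˢ ({i, a, b} : Finset V)ᶜ)
      · simp only [mem_product, mem_singleton, mem_compl, mem_insert, not_or] at h1
        obtain ⟨rfl, h2, h3, h4⟩ := h1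
        exact iff_of_false (hH v h3 h4) (hH' v h3 h4)
      · by_cases h2 : (v, u) ∈ ({i} ×ˢ ({i, a, b} : Finset V)ᶜ)
        · simp only [mem_product, mem_singleton, mem_compl, mem_insert, not_or] at h2
          obtain ⟨rfl, h2, h3, h4⟩ := h2
          rw [H.adj_comm, H'.adj_comm]
          exact iff_of_false (hH u h3 h4) (hH' u h3 h4)
        · exact hag u v h1 h2
    · rw [Finset.card_product, Finset.card_singleton, one_mul, Finset.card_compl]
      have := Finset.card_le_three (a := i) (b := a) (c := b)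
      omega
  refine (Finset.sum_le_sum fun p _ => h2 p).trans ?_
  rw [Finset.sum_const, Finset.card_univ, nsmul_eq_mul]
  simp only [Fintype.card_prod, Nat.cast_mul]
  apply le_of_eq
  ring

/-- failure of `G2` is rare -/
lemma cnt_G2 : cnt (fun H : SimpleGraph V => ¬ G2 H) ≤
    (Fintype.card V : ℝ) ^ 4 * (tot V / 2 ^ (Fintype.card V - 4)) := by
  classical
  have h1 : cnt (fun H : SimpleGraph V => ¬ G2 H) ≤
      cnt (fun H : SimpleGraph V => ∃ p : V × V × V × V, p.1 ≠ p.2.1 ∧ ∀ l, l ≠ p.2.2.1 →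
        l ≠ p.2.2.2 → (H.Adj p.1 l ↔ H.Adj p.2.1 l)) := by
    apply cnt_mono
    intro H hH
    unfold G2 at hH
    simp only [not_forall] at hH
    obtain ⟨i, j, hij, a, b, h⟩ := hH
    refine ⟨(i, j, a, b), hij, ?_⟩
    intro l h1 h2
    by_contra h3
    exact h ⟨l, h1, h2, h3⟩
  refine h1.trans ((cnt_exists _).trans ?_)
  have h2 : ∀ p : V × V × V × V, cnt (fun H : SimpleGraph V => p.1 ≠ p.2.1 ∧
      ∀ l, l ≠ p.2.2.1 → l ≠ p.2.2.2 → (H.Adj p.1 l ↔ H.Adj p.2.1 l)) ≤
        tot V / 2 ^ (Fintype.card V - 4) := by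
    rintro ⟨i, j, a, b⟩
    apply cnt_pow _ ({i} ×ˢ ({i, j, a, b} : Finset V)ᶜ)
    · intro u v huv
      simp only [mem_product, mem_singleton, mem_compl, mem_insert, not_or] at huv
      rintro rfl
      exact huv.2.1 huv.1
    · intro u v huv hvu
      simp only [mem_product, mem_singleton, mem_compl, mem_insert, not_or] at huv hvu
      exact huv.2.1 hvu.1
    · rintro H ⟨hij, hH⟩ H' ⟨-, hH'⟩ hag
      simp only at hij hH hH'
      have hj : ∀ l, l ≠ i → (H.Adj j l ↔ H'.Adj j l) := by
        intro l hl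
        apply hag
        · simp only [mem_product, mem_singleton, mem_compl, mem_insert, not_or]
          rintro ⟨h, -⟩
          exact hij h.symm
        · simp only [mem_product, mem_singleton, mem_compl, mem_insert, not_or]
          rintro ⟨h, -⟩
          exact hl h
      ext u v
      by_cases h1 : (u, v) ∈ ({i} ×ˢ ({i, j, a, b} : Finset V)ᶜ)
      · simp only [mem_product, mem_singleton, mem_compl, mem_insert, not_or] at h1
        obtain ⟨rfl, h2, h3, h4, h5⟩ := h1
        rw [hH v h4 h5, hH' v h4 h5]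
        exact hj v h2
      · by_cases h2 : (v, u) ∈ ({i} ×ˢ ({i, j, a, b} : Finset V)ᶜ)
        · simp only [mem_product, mem_singleton, mem_compl, mem_insert, not_or] at h2
          obtain ⟨rfl, h2, h3, h4, h5⟩ := h2
          rw [H.adj_comm, H'.adj_comm, hH u h4 h5, hH' u h4 h5]
          exact hj u h2
        · exact hag u v h1 h2
    · rw [Finset.card_product, Finset.card_singleton, one_mul, Finset.card_compl]
      have := Finset.card_le_four (a := i) (b := j) (c := a) (d := b)
      omega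
  refine (Finset.sum_le_sum fun p _ => h2 p).trans ?_
  rw [Finset.sum_const, Finset.card_univ, nsmul_eq_mul]
  simp only [Fintype.card_prod, Nat.cast_mul]
  apply le_of_eq
  ring

end Pool.Agent.IndSat
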