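import Pool.Agent.IndSat.Prob

set_option autoImplicit false

namespace Pool.Agent.IndSat

open Finset Matrix

set_option linter.unusedSectionVars false

variable {V : Type} [Fintype V] [DecidableEq V]

open Classical in
lemma cnt_eq (P : SimpleGraph V → Prop) : cnt P = ∑ H, (if P H then (1 : ℝ) else 0) := by
  unfold cnt
  rw [Finset.card_filter]
  push_cast
  rfl

lemma cnt_le_tot (P : SimpleGraph V → Prop) : cnt P ≤ tot V := by
  classical
  unfold cnt tot
  norm_cast
  exact Finset.card_le_univ _

lemma cnt_false {P : SimpleGraph V → Prop} (h : ∀ H, ¬ P H) : cnt P = 0 := by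
  classical
  unfold cnt
  rw [Finset.filter_false_of_mem (fun H _ => h H)]
  simp

lemma cnt_ker {z : V → F} (hz : z ≠ 0) :
    cnt (fun H : SimpleGraph V => adj H *ᵥ z = 0) ≤ tot V / 2 ^ (Fintype.card V - 1) := by
  classical
  obtain ⟨t, ht⟩ : ∃ t, z t = 1 := by
    by_contra hcon
    push Not at hcon
    apply hz
    funext t
    rcases F_cases (z t) with h | h
    · exact h
    · exact absurd h (hcon t)
  have := cnt_struct (V := V) ({t} : Finset V) (ι := Unit) (fun _ => z) (fun _ => 0) (by
    intro d hd hs
    have h1 := hs ()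
    rw [dotProduct, Finset.sum_eq_single t] at h1
    · rw [ht, mul_one] at h1
      funext i
      by_cases hi : i = t
      · rw [hi, h1]; rfl
      · exact hd i (by simpa using hi)
    · intro b _ hb
      rw [hd b (by simpa using hb), zero_mul]
    · intro h; exact absurd (mem_univ _) h) t ∅ (by simp) 0
    (fun H : SimpleGraph V => adj H *ᵥ z = 0) (by
      intro H hH
      exact ⟨fun _ => hH, by simp⟩)
  simpa using this

/-- big kernels are rare -/
lemma cnt_BK (K : ℕ) (hV : 1 ≤ Fintype.card V) :
    cnt (BK (V := V) K) ≤ 3 / 2 ^ K * tot V := by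
  classical
  have h1 : (2 : ℝ) ^ K * cnt (BK (V := V) K) ≤
      ∑ z : V → F, cnt (fun H : SimpleGraph V => adj H *ᵥ z = 0) := by
    simp only [cnt_eq]
    rw [Finset.sum_comm, Finset.mul_sum]
    apply Finset.sum_le_sum
    intro H _
    have e : ∑ z : V → F, (if adj H *ᵥ z = 0 then (1 : ℝ) else 0) =
        (((univ : Finset (V → F)).filter (fun z => adj H *ᵥ z = 0)).card : ℝ) := by
      rw [Finset.card_filter]
      push_cast
      rfl
    by_cases hB : BK K H
    · rw [if_pos hB, mul_one]
      unfold BK at hB
      have hB' : (2 : ℝ) ^ K ≤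
          (((univ : Finset (V → F)).filter (fun z => adj H *ᵥ z = 0)).card : ℝ) := by
        exact_mod_cast hB
      refine hB'.trans (le_of_eq ?_)
      rw [← e]
      refine Finset.sum_congr rfl fun z _ => ?_
      congr
    · rw [if_neg hB, mul_zero]
      apply Finset.sum_nonneg
      intro z _
      split_ifs <;> norm_num
  have h2 : ∑ z : V → F, cnt (fun H : SimpleGraph V => adj H *ᵥ z = 0) ≤ 3 * tot V := by
    rw [← Finset.add_sum_erase univ _ (mem_univ (0 : V → F))]
    have h3 : ∑ z ∈ (univ : Finset (V → F)).erase 0,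
        cnt (fun H : SimpleGraph V => adj H *ᵥ z = 0) ≤
        ∑ z ∈ (univ : Finset (V → F)).erase 0, tot V / 2 ^ (Fintype.card V - 1) := by
      apply Finset.sum_le_sum
      intro z hz
      rw [mem_erase] at hz
      exact cnt_ker hz.1
    rw [Finset.sum_const, nsmul_eq_mul] at h3
    have h4 : (((univ : Finset (V → F)).erase 0).card : ℝ) ≤ 2 ^ Fintype.card V := by
      have : ((univ : Finset (V → F)).erase 0).card ≤ 2 ^ Fintype.card V := by
        refine (Finset.card_le_univ _).trans (le_of_eq ?_)
        rw [Fintype.card_fun, ZMod.card]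
      exact_mod_cast this
    have h5 : (2 : ℝ) ^ Fintype.card V = 2 * 2 ^ (Fintype.card V - 1) := by
      rw [← pow_succ']
      congr 1
      omega
    have h6 : (((univ : Finset (V → F)).erase 0).card : ℝ) *
        (tot V / 2 ^ (Fintype.card V - 1)) ≤ 2 * tot V := by
      refine (mul_le_mul_of_nonneg_right h4 (div_nonneg tot_nonneg (by positivity))).trans ?_
      rw [h5]
      apply le_of_eq
      field_simp
    have h7 := cnt_le_tot (V := V) (fun H => adj H *ᵥ (0 : V → F) = 0)
    linarith
  rw [div_mul_eq_mul_div, le_div_iff₀ (by positivity)]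
  linarith

lemma sum_prod_fun {α : Type} [Fintype α] (g : α → ℝ) :
    ∑ P : V → α, ∏ i, g (P i) = (∑ a, g a) ^ Fintype.card V := by
  classical
  have := Finset.prod_univ_sum (fun _ : V => (univ : Finset α)) (fun _ a => g a)
  rw [Fintype.piFinset_univ] at this
  rw [← this, Finset.prod_const, Finset.card_univ]

lemma sigma_inj {k : ℕ} {σ : Fin k → V} {P : V → Fin k → F}
    (h : ∀ s t, P (σ t) s = if s = t then 1 else 0) : Function.Injective σ := by
  intro s t hst
  by_contra hne
  have h1 := h s s
  have h2 := h s t
  rw [if_pos rfl] at h1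
  rw [if_neg hne, ← hst, h1] at h2
  exact absurd h2 (by decide)

lemma supp_zero {k : ℕ} {σ : Fin k → V} {P : V → Fin k → F}
    (h : ∀ s t, P (σ t) s = if s = t then 1 else 0) (d : V → F)
    (hd : ∀ i, i ∉ univ.image σ → d i = 0) (hs : ∀ s, d ⬝ᵥ (fun i => P i s) = 0) : d = 0 := by
  classical
  have hinj := sigma_inj h
  have key : ∀ s, d (σ s) = 0 := by
    intro s
    have h1 := hs s
    rw [dotProduct, ← Finset.sum_subset (Finset.subset_univ (univ.image σ)),
      Finset.sum_image (fun a _ b _ hab => hinj hab)] at h1
    · simp only [h, mul_ite, mul_one, mul_zero] at h1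
      rw [Finset.sum_ite_eq univ s (fun s => d (σ s)), if_pos (mem_univ _)] at h1
      exact h1
    · intro i _ hi
      rw [hd i hi, zero_mul]
  funext i
  by_cases hi : i ∈ univ.image σ
  · rw [mem_image] at hi
    obtain ⟨s, -, rfl⟩ := hi
    exact key s
  · exact hd i hi

/-- zero-pattern failures are rare -/
lemma cnt_ZF (k : ℕ) : cnt (ZF (V := V) k) ≤
    (Fintype.card V : ℝ) ^ k * ((2 ^ k - 1) ^ Fintype.card V *
      (tot V / 2 ^ (k * (Fintype.card V - k)))) := by
  classical
  have h1 : cnt (ZF (V := V) k) ≤ cnt (fun H : SimpleGraph V =>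
      ∃ p : (Fin k → V) × (V → Fin k → F),
        (∀ s t, p.2 (p.1 t) s = if s = t then 1 else 0) ∧
        (∀ s, adj H *ᵥ (fun i => p.2 i s) = 0) ∧ ∀ i, p.2 i ≠ 0) := by
    apply cnt_mono
    rintro H ⟨σ, P, h1, h2, h3⟩
    exact ⟨(σ, P), h1, h2, h3⟩
  refine h1.trans ((cnt_exists _).trans ?_)
  rw [Fintype.sum_prod_type]
  set g : (Fin k → F) → ℝ := fun a => if a = 0 then 0 else 1 with hg
  have h2 : ∀ (σ : Fin k → V) (P : V → Fin k → F), cnt (fun H : SimpleGraph V =>
        (∀ s t, P (σ t) s = if s = t then 1 else 0) ∧
        (∀ s, adj H *ᵥ (fun i => P i s) = 0) ∧ ∀ i, P i ≠ 0) ≤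
      (∏ i, g (P i)) * (tot V / 2 ^ (k * (Fintype.card V - k))) := by
    intro σ P
    by_cases hv : (∀ s t, P (σ t) s = if s = t then 1 else 0) ∧ ∀ i, P i ≠ 0
    · have hprod : ∏ i, g (P i) = 1 := by
        apply Finset.prod_eq_one
        intro i _
        rw [hg]
        simp only
        rw [if_neg (hv.2 i)]
      rw [hprod, one_mul]
      have hT : (univ.image σ).card = k := by
        rw [Finset.card_image_of_injective _ (sigma_inj hv.1), Finset.card_univ,
          Fintype.card_fin]
      by_cases hne : Nonempty V
      · obtain ⟨v0⟩ := hne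
        have := cnt_struct (V := V) (univ.image σ) (ι := Fin k) (fun s i => P i s) (fun _ => 0)
          (fun d hd hs => supp_zero hv.1 d hd hs) v0 ∅ (by simp) 0
          (fun H : SimpleGraph V =>
            (∀ s t, P (σ t) s = if s = t then 1 else 0) ∧
            (∀ s, adj H *ᵥ (fun i => P i s) = 0) ∧ ∀ i, P i ≠ 0) (by
              rintro H ⟨-, h, -⟩
              exact ⟨h, by simp⟩)
        rw [hT] at this
        simpa using this
      · have hk : k = 0 := by
          by_contra hk
          exact hne ⟨σ ⟨0, by omega⟩⟩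
        subst hk
        simp only [zero_mul, pow_zero, div_one]
        exact cnt_le_tot _
    · rw [cnt_false]
      · apply mul_nonneg
        · apply Finset.prod_nonneg
          intro i _
          rw [hg]
          simp only
          split_ifs <;> norm_num
        · exact div_nonneg tot_nonneg (by positivity)
      · rintro H ⟨h1, -, h3⟩
        exact hv ⟨h1, h3⟩
  refine (Finset.sum_le_sum fun σ _ => Finset.sum_le_sum fun P _ => h2 σ P).trans ?_
  simp only [← Finset.sum_mul]
  rw [sum_prod_fun, Finset.sum_const, Finset.card_univ, Fintype.card_fun, Fintype.card_fin,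
    nsmul_eq_mul]
  have h3 : ∑ a, g a = 2 ^ k - 1 := by
    have e : ∀ a : Fin k → F, g a = 1 - (if a = 0 then 1 else 0) := by
      intro a
      rw [hg]
      simp only
      split_ifs <;> norm_num
    simp only [e]
    rw [Finset.sum_sub_distrib]
    simp
  rw [h3]
  push_cast
  apply le_of_eq
  ring

/-- bad structures are rare -/
lemma cnt_BS (k : ℕ) (c : F) : cnt (BS (V := V) k c) ≤
    (Fintype.card V : ℝ) ^ (k + 2) * ((2 ^ (k + 1) - 1 / 2) ^ Fintype.card V *
      (2 * (tot V / 2 ^ ((k + 1) * (Fintype.card V - (k + 1)))))) := by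
  classical
  set Q : (Fin k → V) → V → V → (V → (Fin k → F) × F) → SimpleGraph V → Prop :=
    fun σ i0 t w H => (∀ s t', (w (σ t')).1 s = if s = t' then 1 else 0) ∧
      (∀ s, (w (σ s)).2 = 0) ∧ (w t).2 = 1 ∧ w i0 = (0, 0) ∧
      (∀ s, adj H *ᵥ (fun i => (w i).1 s) = 0) ∧ adj H *ᵥ (fun i => (w i).2) = Pi.single i0 1 ∧
      ∀ j, w j = (0, 1) → adj H i0 j = c with hQ
  have h1 : cnt (BS (V := V) k c) ≤ cnt (fun H : SimpleGraph V =>
      ∃ p : (Fin k → V) × V × V × (V → (Fin k → F) × F), Q p.1 p.2.1 p.2.2.1 p.2.2.2 H) := by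
    apply cnt_mono
    rintro H ⟨σ, i0, t, w, h⟩
    exact ⟨(σ, i0, t, w), h⟩
  refine h1.trans ((cnt_exists _).trans ?_)
  rw [Fintype.sum_prod_type]
  simp only [Fintype.sum_prod_type]
  set g : (Fin k → F) × F → ℝ := fun a => if a = (0, 1) then 1 / 2 else 1 with hg
  have hgpos : ∀ a, 0 ≤ g a := by
    intro a
    rw [hg]
    simp only
    split_ifs <;> norm_num
  have h2 : ∀ (σ : Fin k → V) (i0 t : V) (w : V → (Fin k → F) × F), cnt (Q σ i0 t w) ≤
      (∏ i, g (w i)) * (2 * (tot V / 2 ^ ((k + 1) * (Fintype.card V - (k + 1))))) := by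
    intro σ i0 t w
    by_cases hv : (∀ s t', (w (σ t')).1 s = if s = t' then 1 else 0) ∧
      (∀ s, (w (σ s)).2 = 0) ∧ (w t).2 = 1 ∧ w i0 = (0, 0)
    · obtain ⟨hv1, hv2, hv3, hv4⟩ := hv
      have hsinj : Function.Injective σ := sigma_inj (P := fun i => (w i).1) hv1
      have htσ : t ∉ univ.image σ := by
        intro h
        rw [mem_image] at h
        obtain ⟨s, -, rfl⟩ := h
        rw [hv2] at hv3
        exact absurd hv3 (by decide)
      set T : Finset V := insert t (univ.image σ) with hT
      have hTcard : T.card = k + 1 := by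
        rw [hT, Finset.card_insert_of_notMem htσ, Finset.card_image_of_injective _ hsinj,
          Finset.card_univ, Fintype.card_fin]
      have hi0T : i0 ∉ T := by
        rw [hT, mem_insert, mem_image]
        rintro (h | ⟨s, -, h⟩)
        · rw [← h, hv4] at hv3
          simp at hv3
        · have := hv1 s s
          rw [h, hv4, if_pos rfl] at this
          simp at this
      set J0 : Finset V := univ.filter (fun j => w j = (0, 1)) with hJ0
      set J : Finset V := J0.erase t with hJ
      have hJc : J0.card ≤ J.card + 1 := by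
        have := Finset.pred_card_le_card_erase (s := J0) (a := t)
        rw [hJ]
        omega
      have hJT : ∀ j ∈ J, j ∉ T ∧ j ≠ i0 ∧ i0 ∉ T := by
        intro j hj
        rw [hJ, mem_erase, hJ0, mem_filter] at hj
        obtain ⟨hjt, -, hj⟩ := hj
        refine ⟨?_, ?_, hi0T⟩
        · rw [hT, mem_insert, mem_image]
          rintro (h | ⟨s, -, h⟩)
          · exact hjt h
          · have := hv1 s s
            rw [h, hj, if_pos rfl] at this
            simp at this
        · intro h
          rw [h, hv4, Prod.mk.injEq] at hj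
          exact absurd hj.2 (by decide)
      have h3 := cnt_struct (V := V) T (ι := Option (Fin k))
        (fun o i => o.elim (w i).2 (fun s => (w i).1 s))
        (fun o => o.elim (Pi.single i0 1) (fun _ => 0)) (by
          intro d hd hs
          have hnone := hs none
          have hdt : d t = 0 := by
            rw [dotProduct, Finset.sum_eq_single t] at hnone
            · simp only [Option.elim_none, hv3, mul_one] at hnone
              exact hnone
            · intro b _ hb
              simp only [Option.elim_none]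
              by_cases hbT : b ∈ T
              · rw [hT, mem_insert, mem_image] at hbT
                rcases hbT with h | ⟨s, -, rfl⟩
                · exact absurd h hb
                · rw [hv2, mul_zero]
              · rw [hd b hbT, zero_mul]
            · intro h; exact absurd (mem_univ _) h
          apply supp_zero (P := fun i => (w i).1) hv1 d
          · intro i hi
            by_cases hit : i = t
            · rw [hit, hdt]
            · apply hd
              rw [hT, mem_insert]
              rintro (h | h)
              · exact hit h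
              · exact hi h
          · intro s
            exact hs (some s)) i0 J hJT c (Q σ i0 t w) (by
          rintro H ⟨-, -, -, -, h5, h6, h7⟩
          refine ⟨?_, ?_⟩
          · rintro (_ | s)
            · exact h6
            · exact h5 s
          · intro j hj
            rw [hJ, mem_erase, hJ0, mem_filter] at hj
            exact h7 j hj.2.2)
      rw [hTcard] at h3
      refine h3.trans ?_
      have hprod : ∏ i, g (w i) = (1 / 2) ^ J0.card := by
        rw [hg]
        simp only
        rw [Finset.prod_ite]
        simp [hJ0]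
      rw [hprod, pow_add]
      have e1 : (1 / 2 : ℝ) ^ J0.card * (2 * (tot V /
          2 ^ ((k + 1) * (Fintype.card V - (k + 1))))) =
          tot V / 2 ^ ((k + 1) * (Fintype.card V - (k + 1))) * (2 * (1 / 2) ^ J0.card) := by
        ring
      rw [e1, ← div_div, div_eq_mul_inv (tot V / 2 ^ ((k + 1) * (Fintype.card V - (k + 1))))]
      apply mul_le_mul_of_nonneg_left _ (div_nonneg tot_nonneg (by positivity))
      have e2 : ((2 : ℝ) ^ J.card)⁻¹ = 2 * (1 / 2) ^ (J.card + 1) := by
        rw [pow_succ, one_div, inv_pow]
        ring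
      rw [e2]
      apply mul_le_mul_of_nonneg_left _ (by norm_num)
      exact pow_le_pow_of_le_one (by norm_num) (by norm_num) hJc
    · rw [cnt_false]
      · apply mul_nonneg (Finset.prod_nonneg fun i _ => hgpos _)
        exact mul_nonneg (by norm_num) (div_nonneg tot_nonneg (by positivity))
      · rintro H ⟨h1, h2, h3, h4, -⟩
        exact hv ⟨h1, h2, h3, h4⟩
  refine (Finset.sum_le_sum fun σ _ => Finset.sum_le_sum fun i0 _ =>
    Finset.sum_le_sum fun t _ => Finset.sum_le_sum fun w _ => h2 σ i0 t w).trans ?_
  simp only [← Finset.sum_mul]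
  rw [sum_prod_fun]
  simp only [Finset.sum_const, Finset.card_univ, Fintype.card_fun, Fintype.card_fin, nsmul_eq_mul]
  have h3 : ∑ a, g a = 2 ^ (k + 1) - 1 / 2 := by
    have e : ∀ a : (Fin k → F) × F, g a = 1 - (if a = (0, 1) then 1 / 2 else 0) := by
      intro a
      rw [hg]
      simp only
      split_ifs <;> norm_num
    simp only [e]
    rw [Finset.sum_sub_distrib]
    simp [pow_succ]
  rw [h3]
  push_cast
  apply le_of_eq
  ring

end Pool.Agent.IndSat
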