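import Pool.Agent.IndSat.Final

set_option autoImplicit false

namespace Pool.Agent.IndSat

open Finset Matrix

set_option linter.unusedSectionVars false

variable {V : Type} [Fintype V] [DecidableEq V]

/-- If flipping the pair `i, j` lowers the rank, the certificate `Drop` exists. -/
theorem drop_of_rank (A : Matrix V V F) (hs : ∀ i j, A i j = A j i) (hd : ∀ i, A i i = 0)
    {i j : V} (hij : i ≠ j) (h : (flip A i j).rank < A.rank) : Drop A i j := by
  have hk1 := LinearMap.finrank_range_add_finrank_ker A.mulVecLin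
  have hk2 := LinearMap.finrank_range_add_finrank_ker (flip A i j).mulVecLin
  unfold Matrix.rank at h
  have hker : Module.finrank F (LinearMap.ker A.mulVecLin) <
      Module.finrank F (LinearMap.ker (flip A i j).mulVecLin) := by omega
  -- the equation of the kernel of the flipped matrix
  have hmem : ∀ x : V → F, flip A i j *ᵥ x = 0 →
      A *ᵥ x = x j • Pi.single i 1 + x i • Pi.single j 1 := by
    intro x hx
    funext u
    have h1 := congrFun hx u
    rw [flip_apply] at h1
    have h2 : (A *ᵥ x) u = (if u = i then x j else 0) + (if u = j then x i else 0) := by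
      have h3 := F_add_self ((if u = i then x j else 0) + (if u = j then x i else 0))
      have h4 : (A *ᵥ x) u + (((if u = i then x j else 0) + (if u = j then x i else 0)) +
          ((if u = i then x j else 0) + (if u = j then x i else 0))) =
          (if u = i then x j else 0) + (if u = j then x i else 0) := by
        rw [← add_assoc, h1]; simp
      rwa [h3, add_zero] at h4
    rw [h2]
    simp only [Pi.add_apply, Pi.smul_apply, smul_eq_mul, Pi.single_apply]
    by_cases a : u = i <;> by_cases b : u = j <;> simp [a, b]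
  by_cases hz : ∀ z : V → F, A *ᵥ z = 0 → z i = 0 ∧ z j = 0
  · obtain ⟨u, hu⟩ := exists_preimage A hs i (fun z h => (hz z h).1)
    obtain ⟨v, hv⟩ := exists_preimage A hs j (fun z h => (hz z h).2)
    have hui : u i = 0 := by
      have := alt_quad A hs hd u
      rw [hu] at this
      simpa using this
    have hvj : v j = 0 := by
      have := alt_quad A hs hd v
      rw [hv] at this
      simpa using this
    have hvi : u j = v i := by
      have := sym_quad A hs u v
      rw [hu, hv] at this
      simpa only [dotProduct_single, mul_one] using this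
    refine ⟨hij, u, v, hu, hv, ?_⟩
    -- an element of the bigger kernel outside the smaller one
    obtain ⟨x, hx, hxn⟩ : ∃ x : V → F, flip A i j *ᵥ x = 0 ∧ A *ᵥ x ≠ 0 := by
      by_contra hcon
      push Not at hcon
      have hle : LinearMap.ker (flip A i j).mulVecLin ≤ LinearMap.ker A.mulVecLin := by
        intro x hx
        rw [LinearMap.mem_ker, Matrix.mulVecLin_apply] at hx ⊢
        exact hcon x hx
      exact absurd (Submodule.finrank_mono hle) (not_le.2 hker)
    have hx2 := hmem x hx
    have hdiff : A *ᵥ (x - (x j • u + x i • v)) = 0 := by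
      rw [Matrix.mulVec_sub, Matrix.mulVec_add, Matrix.mulVec_smul, Matrix.mulVec_smul, hu, hv,
        hx2, sub_self]
    obtain ⟨e1, e2⟩ := hz _ hdiff
    simp only [Pi.sub_apply, Pi.add_apply, Pi.smul_apply, smul_eq_mul, hui, hvj, mul_zero,
      zero_add, add_zero] at e1 e2
    rcases F_cases (u j) with h0 | h0
    · exfalso
      rw [← hvi, h0, mul_zero, sub_zero] at e1
      rw [h0, mul_zero, sub_zero] at e2
      apply hxn
      rw [hx2, e1, e2]
      simp
    · exact h0
  · exfalso
    push Not at hz
    obtain ⟨z, hz0, hz1⟩ := hz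
    -- projection to the two coordinates
    set π : (V → F) →ₗ[F] (F × F) :=
      (LinearMap.proj i : (V → F) →ₗ[F] F).prod (LinearMap.proj j : (V → F) →ₗ[F] F) with hπ
    have hπa : ∀ x, π x = (x i, x j) := fun x => rfl
    set K := LinearMap.ker A.mulVecLin with hK
    set K' := LinearMap.ker (flip A i j).mulVecLin with hK'
    have hr1 := LinearMap.finrank_range_add_finrank_ker (π ∘ₗ K.subtype)
    have hr2 := LinearMap.finrank_range_add_finrank_ker (π ∘ₗ K'.subtype)
    have hkk : Module.finrank F (LinearMap.ker (π ∘ₗ K.subtype)) =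
        Module.finrank F (LinearMap.ker (π ∘ₗ K'.subtype)) := by
      rw [LinearMap.ker_comp, LinearMap.ker_comp]
      have e1 : Module.finrank F (Submodule.comap K.subtype (LinearMap.ker π)) =
          Module.finrank F (K ⊓ LinearMap.ker π : Submodule F (V → F)) := by
        rw [← Submodule.map_comap_subtype]
        exact (Submodule.equivMapOfInjective K.subtype K.injective_subtype _).finrank_eq
      have e2 : Module.finrank F (Submodule.comap K'.subtype (LinearMap.ker π)) =
          Module.finrank F (K' ⊓ LinearMap.ker π : Submodule F (V → F)) := by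
        rw [← Submodule.map_comap_subtype]
        exact (Submodule.equivMapOfInjective K'.subtype K'.injective_subtype _).finrank_eq
      have e3 : (K ⊓ LinearMap.ker π : Submodule F (V → F)) = K' ⊓ LinearMap.ker π := by
       ext x
       simp only [Submodule.mem_inf, LinearMap.mem_ker, hπa, Prod.mk_eq_zero, hK, hK',
        Matrix.mulVecLin_apply]
       constructor
       · rintro ⟨h1, h2, h3⟩
         refine ⟨?_, h2, h3⟩
         funext u
         rw [flip_apply, h1, h2, h3]
         simp
       · rintro ⟨h1, h2, h3⟩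
         refine ⟨?_, h2, h3⟩
         rw [hmem x h1, h2, h3]
         simp
      rw [e1, e2, e3]
    have hge : 1 ≤ Module.finrank F (LinearMap.range (π ∘ₗ K.subtype)) := by
      rw [Nat.one_le_iff_ne_zero]
      intro h0
      rw [Submodule.finrank_eq_zero] at h0
      have hm : (π ∘ₗ K.subtype) ⟨z, by
          rw [hK, LinearMap.mem_ker, Matrix.mulVecLin_apply]; exact hz0⟩ ∈
          LinearMap.range (π ∘ₗ K.subtype) := ⟨_, rfl⟩
      rw [h0, Submodule.mem_bot] at hm
      change π z = 0 at hm
      rw [hπa, Prod.mk_eq_zero] at hm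
      exact hz1 hm.1 hm.2
    have hle1 : Module.finrank F (LinearMap.range (π ∘ₗ K'.subtype)) ≤ 1 := by
      have hsub : LinearMap.range (π ∘ₗ K'.subtype) ≤ Submodule.span F {(z i, z j)} := by
        rintro _ ⟨⟨x, hx⟩, rfl⟩
        change π x ∈ _
        rw [hπa, Submodule.mem_span_singleton]
        rw [hK', LinearMap.mem_ker, Matrix.mulVecLin_apply] at hx
        have h1 := hmem x hx
        have h2 := sym_quad A hs z x
        rw [hz0, h1] at h2
        simp only [dotProduct_add, dotProduct_smul, dotProduct_single, mul_one, smul_eq_mul,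
          dotProduct_zero] at h2
        rcases F_cases (z i) with a | a <;> rcases F_cases (z j) with b | b
        · exact absurd b (hz1 a)
        · refine ⟨x j, ?_⟩
          rw [a, b] at h2 ⊢
          simp only [mul_zero, mul_one, zero_add] at h2
          simp [h2]
        · refine ⟨x i, ?_⟩
          rw [a, b] at h2 ⊢
          simp only [mul_zero, mul_one, add_zero] at h2
          simp [h2]
        · refine ⟨x i, ?_⟩
          rw [a, b] at h2 ⊢
          simp only [mul_one] at h2
          have h3 : x j = x i := by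
            rcases F_cases (x i) with c | c <;> rcases F_cases (x j) with d | d <;>
              rw [c, d] at h2 ⊢
            · simp at h2
            · simp at h2
          simp [h3]
      exact (Submodule.finrank_mono hsub).trans (finrank_span_le_card _ |>.trans (by simp))
    omega

/-- After flipping the pair `i, j` no vertex is isolated and no two distinct vertices have the
same neighbours (stated with the flipped matrix). -/
def ClFlip (H : SimpleGraph V) (i j : V) : Prop :=
  (∀ u, ∃ l, flip (adj H) i j u l ≠ 0) ∧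
    ∀ u v, u ≠ v → ∃ l, flip (adj H) i j u l ≠ flip (adj H) i j v l

/-- embedding of a flipped graph into `Sp(2d, 2)` -/
lemma exists_gram2 {H : SimpleGraph V} {i j : V} (hC : ClFlip H i j) (hD : Drop (adj H) i j)
    {d : ℕ} (hd : (adj H).rank ≤ 2 * d + 2) :
    ∃ Φ : V → W d, (∀ u v, flip (adj H) i j u v = B (Φ u) (Φ v)) ∧ (∀ u, Φ u ≠ 0) ∧
      Function.Injective Φ := by
  have hr := rank_flip (adj H) (adj_symm H) (adj_diag H) hD
  obtain ⟨Φ, hΦ⟩ := factor d (flip (adj H) i j) (by
      intro u v
      simp only [flip, Matrix.of_apply]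
      rw [adj_symm H u v, add_comm (if u = i ∧ v = j then (1 : F) else 0)]
      simp only [and_comm]) (by
      intro u
      simp only [flip, Matrix.of_apply]
      rw [adj_diag, zero_add]
      have hij := hD.1
      have e1 : ¬ (u = i ∧ u = j) := by rintro ⟨rfl, h⟩; exact hij h
      have e2 : ¬ (u = j ∧ u = i) := by rintro ⟨rfl, h⟩; exact hij h.symm
      rw [if_neg e1, if_neg e2, add_zero]) (by omega)
  refine ⟨Φ, hΦ, ?_, ?_⟩
  · intro u hu
    obtain ⟨l, hl⟩ := hC.1 u
    apply hl
    rw [hΦ u l, hu]
    simp [B]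
  · intro u v huv
    by_contra hne
    obtain ⟨l, hl⟩ := hC.2 u v hne
    apply hl
    rw [hΦ u l, hΦ v l, huv]

/-- The criterion: the symplectic graph is `H`-induced-saturated. -/
theorem criterion2 (H : SimpleGraph V)
    (he : ∃ i j, H.Adj i j ∧ Drop (adj H) i j ∧ ClFlip H i j)
    (hf : ∃ i j, ¬ H.Adj i j ∧ Drop (adj H) i j ∧ ClFlip H i j) :
    ∃ d, Sat H (Sp d) ∧ Fintype.card V ≤ Fintype.card {x : W d // x ≠ 0} := by
  obtain ⟨i0, j0, hadj0, hD0, hC0⟩ := he
  have hr := rank_flip (adj H) (adj_symm H) (adj_diag H) hD0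
  refine ⟨((adj H).rank - 1) / 2, ⟨?_, ?_⟩, ?_⟩
  · refine ⟨fun φ => ?_⟩
    have := rank_le_of_gram (adj H) (fun u => (φ u).1) (by
      intro u v
      have hmap := φ.map_rel_iff (a := u) (b := v)
      change B (φ u).1 (φ v).1 = 1 ↔ H.Adj u v at hmap
      by_cases h : H.Adj u v
      · rw [hmap.2 h, adj_one.2 h]
      · rcases F_cases (B (φ u).1 (φ v).1) with h0 | h0
        · rw [h0, adj_zero.2 h]
        · exact absurd (hmap.1 h0) h)
    omega
  · rintro G' ⟨e, hG'⟩
    induction e using Sym2.ind with
    | _ x y =>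
    have hxy : x ≠ y := by
      rintro rfl
      have := hG' s(x, x)
      simp at this
    have hflip : ∀ a b, s(a, b) ≠ s(x, y) → (G'.Adj a b ↔ B a.1 b.1 = 1) := by
      intro a b hab
      have := (hG' s(a, b)).2 hab
      rw [SimpleGraph.mem_edgeSet, SimpleGraph.mem_edgeSet] at this
      exact this.symm
    have hflip2 : G'.Adj x y ↔ ¬ (B x.1 y.1 = 1) := by
      have := (hG' s(x, y))
      rw [SimpleGraph.mem_edgeSet, SimpleGraph.mem_edgeSet] at this
      have h3 : ¬ ((Sp _).Adj x y ↔ G'.Adj x y) := fun h => this.1 h rfl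
      change ¬ (B x.1 y.1 = 1 ↔ G'.Adj x y) at h3
      tauto
    -- choose the pair of `H`
    obtain ⟨i, j, hij, hD, hC⟩ : ∃ i j, (H.Adj i j ↔ ¬ (B x.1 y.1 = 1)) ∧
        Drop (adj H) i j ∧ ClFlip H i j := by
      by_cases hB : B x.1 y.1 = 1
      · obtain ⟨i, j, h, hD, hC⟩ := hf
        exact ⟨i, j, by tauto, hD, hC⟩
      · exact ⟨i0, j0, by tauto, hD0, hC0⟩
    obtain ⟨Φ, hΦ, hΦ0, hΦi⟩ := exists_gram2 hC hD (d := ((adj H).rank - 1) / 2) (by omega)
    have hBij : B (Φ i) (Φ j) = B x.1 y.1 := by
      rw [← hΦ i j]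
      simp only [flip, Matrix.of_apply, and_self, if_true]
      rw [if_neg (fun h => hD.1 h.1), add_zero]
      by_cases hB : B x.1 y.1 = 1
      · rw [adj_zero.2 (by tauto), hB, zero_add]
      · rw [adj_one.2 (by tauto)]
        rcases F_cases (B x.1 y.1) with h | h
        · rw [h]; decide
        · exact absurd h hB
    obtain ⟨g, hg, hgi, hgj⟩ := trans_two (hΦ0 i) (hΦ0 j) (fun h => hD.1 (hΦi h)) x.2 y.2
      (fun h => hxy (Subtype.ext h)) hBij
    have hg0 : ∀ u, g (Φ u) ≠ 0 := by
      intro u hu
      apply hΦ0 u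
      apply hg.injective
      rw [hu, map_zero]
    refine ⟨⟨⟨fun u => ⟨g (Φ u), hg0 u⟩, ?_⟩, ?_⟩⟩
    · intro u v huv
      exact hΦi (hg.injective (congrArg Subtype.val huv))
    · intro u v
      have hinj : ∀ p q : V, g (Φ p) = g (Φ q) → p = q := fun p q h => hΦi (hg.injective h)
      change G'.Adj ⟨g (Φ u), hg0 u⟩ ⟨g (Φ v), hg0 v⟩ ↔ H.Adj u v
      by_cases hcase : s(u, v) = s(i, j)
      · have hHij : H.Adj u v ↔ H.Adj i j := by
          rw [← SimpleGraph.mem_edgeSet, hcase, SimpleGraph.mem_edgeSet]
        have hx : (⟨g (Φ i), hg0 i⟩ : {x : W _ // x ≠ 0}) = x := Subtype.ext hgi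
        have hy : (⟨g (Φ j), hg0 j⟩ : {x : W _ // x ≠ 0}) = y := Subtype.ext hgj
        have hG2 : G'.Adj ⟨g (Φ u), hg0 u⟩ ⟨g (Φ v), hg0 v⟩ ↔ G'.Adj x y := by
          rw [Sym2.eq_iff] at hcase
          rcases hcase with ⟨rfl, rfl⟩ | ⟨rfl, rfl⟩
          · rw [hx, hy]
          · rw [hx, hy, G'.adj_comm]
        rw [hG2, hHij, hflip2, hij]
      · rw [hflip]
        · simp only
          rw [hg, ← hΦ u v]
          have hne : ¬ (u = i ∧ v = j) := by
            rintro ⟨rfl, rfl⟩; exact hcase rfl
          have hne2 : ¬ (u = j ∧ v = i) := by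
            rintro ⟨rfl, rfl⟩; exact hcase Sym2.eq_swap
          simp only [flip, Matrix.of_apply]
          rw [if_neg hne, if_neg hne2, add_zero, add_zero, adj_one]
        · intro hs
          apply hcase
          rw [Sym2.eq_iff] at hs ⊢
          rcases hs with ⟨e1, e2⟩ | ⟨e1, e2⟩
          · left
            have f1 := congrArg Subtype.val e1
            have f2 := congrArg Subtype.val e2
            simp only at f1 f2
            rw [← hgi] at f1
            rw [← hgj] at f2
            exact ⟨hinj _ _ f1, hinj _ _ f2⟩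
          · right
            have f1 := congrArg Subtype.val e1
            have f2 := congrArg Subtype.val e2
            simp only at f1 f2
            rw [← hgj] at f1
            rw [← hgi] at f2
            exact ⟨hinj _ _ f1, hinj _ _ f2⟩
  · obtain ⟨Φ, hΦ, hΦ0, hΦi⟩ := exists_gram2 hC0 hD0 (d := ((adj H).rank - 1) / 2) (by omega)
    apply Fintype.card_le_of_injective (fun u => (⟨Φ u, hΦ0 u⟩ : {x : W _ // x ≠ 0}))
    intro u v huv
    exact hΦi (congrArg Subtype.val huv)


/-- the adjacency matrix of a graph obtained by flipping one pair -/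
lemma adj_flip {H K : SimpleGraph V} {i j : V} (hij : i ≠ j)
    (hK : ∀ u v, u ≠ v → ((H.Adj u v ↔ K.Adj u v) ↔ s(u, v) ≠ s(i, j))) :
    adj K = flip (adj H) i j := by
  funext u v
  simp only [flip, Matrix.of_apply]
  by_cases huv : u = v
  · subst huv
    rw [adj_diag, adj_diag]
    have e1 : ¬ (u = i ∧ u = j) := by rintro ⟨rfl, h⟩; exact hij h
    have e2 : ¬ (u = j ∧ u = i) := by rintro ⟨rfl, h⟩; exact hij h.symm
    rw [if_neg e1, if_neg e2]
    simp
  · have h := hK u v huv
    by_cases hs : s(u, v) = s(i, j)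
    · have h1 : ¬ (H.Adj u v ↔ K.Adj u v) := fun hh => (h.1 hh) hs
      rw [Sym2.eq_iff] at hs
      have hone : ((if u = i ∧ v = j then (1 : F) else 0) + (if u = j ∧ v = i then 1 else 0)) = 1 := by
        rcases hs with hs | hs
        · rw [if_pos hs, if_neg (by rintro ⟨h2, _⟩; exact hij (hs.1.symm.trans h2)), add_zero]
        · rw [if_pos hs, if_neg (by rintro ⟨h2, _⟩; exact hij (h2.symm.trans hs.1)), zero_add]
      rw [hone]
      by_cases hH : H.Adj u v
      · have hK' : ¬ K.Adj u v := fun h2 => h1 ⟨fun _ => h2, fun _ => hH⟩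
        rw [adj_one.2 hH, adj_zero.2 hK', F_add_self]
      · have hK' : K.Adj u v := by
          by_contra h2
          exact h1 ⟨fun h3 => absurd h3 hH, fun h3 => absurd h3 h2⟩
        rw [adj_zero.2 hH, adj_one.2 hK', zero_add]
    · have h1 : H.Adj u v ↔ K.Adj u v := h.2 hs
      have hs1 : ¬ (u = i ∧ v = j) := by
        rintro ⟨rfl, rfl⟩; exact hs rfl
      have hs2 : ¬ (u = j ∧ v = i) := by
        rintro ⟨rfl, rfl⟩; exact hs Sym2.eq_swap
      rw [if_neg hs1, if_neg hs2]
      by_cases hH : H.Adj u v
      · rw [adj_one.2 hH, adj_one.2 (h1.1 hH)]; simp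
      · rw [adj_zero.2 hH, adj_zero.2 (fun h2 => hH (h1.2 h2))]; simp

end Pool.Agent.IndSat
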