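import Mathlib

set_option autoImplicit false

namespace Pool.Agent.IndSat

open Finset

/-- The field with two elements. -/
abbrev F : Type := ZMod 2

/-- The vector space `F_2^{2d}`. -/
abbrev W (d : ℕ) : Type := Fin d → F × F

/-- The standard symplectic form on `F_2^{2d}`. -/
def B {d : ℕ} (x y : W d) : F := ∑ t, ((x t).1 * (y t).2 + (x t).2 * (y t).1)

lemma F_cases (a : F) : a = 0 ∨ a = 1 := by
  revert a; decide

lemma F_ne_zero {a : F} : a ≠ 0 ↔ a = 1 := by
  revert a; decide

lemma F_add_self (a : F) : a + a = 0 := by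
  revert a; decide

variable {d : ℕ}

lemma B_comm (x y : W d) : B x y = B y x := by
  unfold B
  refine sum_congr rfl fun t _ => ?_
  ring

lemma B_self (x : W d) : B x x = 0 := by
  unfold B
  refine sum_eq_zero fun t _ => ?_
  rw [mul_comm, F_add_self]

lemma B_add_left (x y z : W d) : B (x + y) z = B x z + B y z := by
  unfold B
  rw [← sum_add_distrib]
  refine sum_congr rfl fun t _ => ?_
  simp only [Pi.add_apply, Prod.fst_add, Prod.snd_add]
  ring

lemma B_smul_left (a : F) (x y : W d) : B (a • x) y = a * B x y := by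
  unfold B
  rw [mul_sum]
  refine sum_congr rfl fun t _ => ?_
  simp only [Pi.smul_apply, Prod.smul_fst, Prod.smul_snd, smul_eq_mul]
  ring

lemma B_add_right (x y z : W d) : B x (y + z) = B x y + B x z := by
  rw [B_comm, B_add_left, B_comm y, B_comm z]

lemma B_smul_right (a : F) (x y : W d) : B x (a • y) = a * B x y := by
  rw [B_comm, B_smul_left, B_comm y]

/-- `B x ·` as a linear functional. -/
def Bl (x : W d) : W d →ₗ[F] F where
  toFun := B x
  map_add' := B_add_right x
  map_smul' := fun a y => by simp [B_smul_right]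

@[simp] lemma Bl_apply (x y : W d) : Bl x y = B x y := rfl

lemma nondeg {x : W d} (h : ∀ y, B x y = 0) : x = 0 := by
  funext t
  have h1 := h (Pi.single t (1, 0))
  have h2 := h (Pi.single t (0, 1))
  have e1 : B x (Pi.single t (1, 0)) = (x t).2 := by
    unfold B
    rw [Finset.sum_eq_single t]
    · simp
    · intro b _ hb
      simp [Pi.single_eq_of_ne hb]
    · simp
  have e2 : B x (Pi.single t (0, 1)) = (x t).1 := by
    unfold B
    rw [Finset.sum_eq_single t]
    · simp
    · intro b _ hb
      simp [Pi.single_eq_of_ne hb]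
    · simp
  rw [e1] at h1
  rw [e2] at h2
  exact Prod.ext h2 h1

lemma Bl_injective {x y : W d} (h : Bl x = Bl y) : x = y := by
  have : x + y = 0 := by
    apply nondeg
    intro z
    rw [B_add_left]
    have := congrArg (fun f => f z) h
    simp only [Bl_apply] at this
    rw [this, F_add_self]
  have h2 : y + y = 0 := by
    funext t
    exact Prod.ext (F_add_self _) (F_add_self _)
  have : x + y = y + y := by rw [this, h2]
  exact add_right_cancel this

lemma W_add_self (x : W d) : x + x = 0 := by
  funext t
  exact Prod.ext (F_add_self _) (F_add_self _)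

lemma W_add_eq_zero {x y : W d} : x + y = 0 ↔ x = y := by
  constructor
  · intro h
    have : x + y = y + y := by rw [h, W_add_self]
    exact add_right_cancel this
  · rintro rfl
    exact W_add_self x

/-- a vector orthogonal to `x, y` but not to `w` exists when `w` is not in their span -/
lemma exists_sep {w x y : W d} (h0 : w ≠ 0) (hx : w ≠ x) (hy : w ≠ y) (hxy : w ≠ x + y) :
    ∃ z, B w z = 1 ∧ B x z = 0 ∧ B y z = 0 := by
  by_contra hcon
  push Not at hcon
  have key : Bl w ∈ Submodule.span F (Set.range ![Bl x, Bl y]) := by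
    apply mem_span_of_iInf_ker_le_ker
    intro z hz
    rw [Submodule.mem_iInf] at hz
    have h1 := hz 0
    have h2 := hz 1
    simp only [Matrix.cons_val_zero, Matrix.cons_val_one, LinearMap.mem_ker, Bl_apply] at h1 h2
    rw [LinearMap.mem_ker, Bl_apply]
    by_contra h3
    rw [← ne_eq, F_ne_zero] at h3
    exact hcon z h3 h1 h2
  rw [Submodule.mem_span_range_iff_exists_fun] at key
  obtain ⟨c, hc⟩ := key
  rw [Fin.sum_univ_two] at hc
  simp only [Matrix.cons_val_zero, Matrix.cons_val_one] at hc
  have hw : w = c 0 • x + c 1 • y := by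
    apply Bl_injective
    rw [← hc]
    refine LinearMap.ext fun z => ?_
    simp [B_add_left, B_smul_left]
  rcases F_cases (c 0) with h | h <;> rcases F_cases (c 1) with h' | h' <;>
    rw [h, h'] at hw <;> simp at hw
  · exact h0 hw
  · exact hy hw
  · exact hx hw
  · exact hxy hw

lemma exists_pair {x y : W d} (hx : x ≠ 0) (hy : y ≠ 0) : ∃ z, B x z = 1 ∧ B y z = 1 := by
  by_cases hxy : x = y
  · subst hxy
    by_contra hcon
    push Not at hcon
    apply hx
    apply nondeg
    intro z
    rcases F_cases (B x z) with h | h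
    · exact h
    · exact absurd h (hcon z h)
  · obtain ⟨z1, h1, h2, -⟩ := exists_sep (w := x) (x := y) (y := y) hx hxy hxy
      (by rw [W_add_self]; exact hx)
    obtain ⟨z2, h3, h4, -⟩ := exists_sep (w := y) (x := x) (y := x) hy (Ne.symm hxy) (Ne.symm hxy)
      (by rw [W_add_self]; exact hy)
    refine ⟨z1 + z2, ?_, ?_⟩
    · rw [B_add_right, h1, h4, add_zero]
    · rw [B_add_right, h2, h3, zero_add]

/-- The symplectic transvection. -/
def tv (a : W d) : W d →ₗ[F] W d where
  toFun := fun x => x + B x a • a
  map_add' := fun x y => by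
    rw [B_add_left, add_smul]; abel
  map_smul' := fun c x => by
    simp only [RingHom.id_apply]
    rw [B_smul_left, smul_add, mul_smul]

@[simp] lemma tv_apply (a x : W d) : tv a x = x + B x a • a := rfl

/-- isometries of the form -/
def Isom (g : W d →ₗ[F] W d) : Prop := ∀ x y, B (g x) (g y) = B x y

lemma Isom.comp {g h : W d →ₗ[F] W d} (hg : Isom g) (hh : Isom h) : Isom (g.comp h) := by
  intro x y
  rw [LinearMap.comp_apply, LinearMap.comp_apply, hg, hh]

lemma Isom.injective {g : W d →ₗ[F] W d} (hg : Isom g) : Function.Injective g := by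
  rw [injective_iff_map_eq_zero]
  intro x hx
  apply nondeg
  intro y
  rw [← hg x y, hx]
  have := B_smul_left (0 : F) (0 : W d) (g y)
  simpa using this

lemma isom_tv (a : W d) : Isom (tv a) := by
  intro x y
  simp only [tv_apply, B_add_left, B_add_right, B_smul_left, B_smul_right, B_self, mul_zero,
    add_zero]
  rw [B_comm a y]
  have h : B x a * B y a + B y a * B x a = 0 := by rw [mul_comm, F_add_self]
  rw [add_assoc, h, add_zero]

lemma isom_id : Isom (LinearMap.id : W d →ₗ[F] W d) := fun _ _ => rfl

/-- one transvection step -/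
lemma step {x y : W d} (h : B x y = 1) : tv (x + y) x = y := by
  rw [tv_apply, B_add_right, B_self, h, zero_add, one_smul, ← add_assoc, W_add_self, zero_add]

lemma trans_one {x y : W d} (hx : x ≠ 0) (hy : y ≠ 0) :
    ∃ g : W d →ₗ[F] W d, Isom g ∧ g x = y := by
  rcases F_cases (B x y) with h | h
  · obtain ⟨z, h1, h2⟩ := exists_pair hx hy
    refine ⟨(tv (z + y)).comp (tv (x + z)), (isom_tv _).comp (isom_tv _), ?_⟩
    rw [LinearMap.comp_apply, step h1, step]
    rw [B_comm]; exact h2
  · exact ⟨tv (x + y), isom_tv _, step h⟩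

lemma fix {x y z : W d} (h : B x y = B x z) : tv (y + z) x = x := by
  rw [tv_apply, B_add_right, h, F_add_self, zero_smul, add_zero]

/-- moving `y` to `z` while fixing `x` -/
lemma trans_fix {x y z : W d} (hx : x ≠ 0) (hy : y ≠ 0) (hz : z ≠ 0) (hxy : x ≠ y) (hxz : x ≠ z)
    (h : B x y = B x z) : ∃ g : W d →ₗ[F] W d, Isom g ∧ g x = x ∧ g y = z := by
  rcases F_cases (B y z) with h0 | h1
  · by_cases hyz : y = z
    · subst hyz
      exact ⟨LinearMap.id, isom_id, rfl, rfl⟩
    · -- find w
      obtain ⟨w, hw1, hw2, hw3⟩ : ∃ w, B y w = 1 ∧ B z w = 1 ∧ B x w = B x y := by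
        obtain ⟨w0, h1, h2⟩ := exists_pair hy hz
        by_cases hs : x = y + z
        · refine ⟨w0, h1, h2, ?_⟩
          have e1 : B x w0 = 0 := by
            rw [hs, B_add_left, h1, h2]; decide
          have e2 : B x y = 0 := by
            rw [hs, B_add_left, B_self, B_comm z y, h0, add_zero]
          rw [e1, e2]
        · by_cases hb : B x w0 = B x y
          · exact ⟨w0, h1, h2, hb⟩
          · obtain ⟨v, hv1, hv2, hv3⟩ := exists_sep hx hxy hxz hs
            refine ⟨w0 + v, ?_, ?_, ?_⟩
            · rw [B_add_right, h1, hv2, add_zero]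
            · rw [B_add_right, h2, hv3, add_zero]
            · rw [B_add_right, hv1]
              rcases F_cases (B x w0) with e | e <;> rcases F_cases (B x y) with e' | e' <;>
                rw [e, e'] at hb ⊢
              · exact absurd rfl hb
              · decide
              · decide
              · exact absurd rfl hb
      refine ⟨(tv (w + z)).comp (tv (y + w)), (isom_tv _).comp (isom_tv _), ?_, ?_⟩
      · rw [LinearMap.comp_apply, fix hw3.symm, fix]
        rw [hw3, h]
      · rw [LinearMap.comp_apply, step hw1, step]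
        rw [B_comm]; exact hw2
  · exact ⟨tv (y + z), isom_tv _, fix h, step h1⟩

lemma trans_two {x y x' y' : W d} (hx : x ≠ 0) (hy : y ≠ 0) (hxy : x ≠ y) (hx' : x' ≠ 0)
    (hy' : y' ≠ 0) (hxy' : x' ≠ y') (h : B x y = B x' y') :
    ∃ g : W d →ₗ[F] W d, Isom g ∧ g x = x' ∧ g y = y' := by
  obtain ⟨g, hg, hgx⟩ := trans_one hx hx'
  have hgy : g y ≠ 0 := by
    intro h0
    apply hy
    apply hg.injective
    rw [h0, map_zero]
  have hne : x' ≠ g y := by
    intro h0
    apply hxy
    apply hg.injective
    rw [hgx, h0]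
  have hB : B x' (g y) = B x' y' := by
    rw [← hgx, hg x y, hgx, h]
  obtain ⟨g2, hg2, e1, e2⟩ := trans_fix hx' hgy hy' hne hxy' hB
  refine ⟨g2.comp g, hg2.comp hg, ?_, ?_⟩
  · rw [LinearMap.comp_apply, hgx, e1]
  · rw [LinearMap.comp_apply, e2]

end Pool.Agent.IndSat
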